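import Pool.Agent.P.MP_ee6314_co.Mom

/-! Asymptotic form of the entire function in a sector. -/

namespace Pool.Agent.P.MP_ee6314_co

open Real intervalIntegral MeasureTheory Set Filter

/-- The leading term. -/
noncomputable def aa (v : ℂ) : ℂ :=
  Complex.exp (2 * v - 3 / 2 * Complex.log (v - 7 / 8)) / (8 * √π : ℝ)

theorem integrableOn_root_exp {b : ℂ} (hb : 0 < b.re) :
    IntegrableOn (fun z : ℝ => ((√z : ℝ) : ℂ) * Complex.exp (-(b * z))) (Ioi 0) := by
  refine Integrable.mono' (integrableOn_rpow_mul_exp_neg_mul_rpow (s := 1 / 2) (p := 1)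
    (by norm_num) one_pos hb) (Continuous.aestronglyMeasurable (by fun_prop))
    (Eventually.of_forall fun z => le_of_eq ?_)
  rw [norm_mul, Complex.norm_real, Complex.norm_exp, norm_of_nonneg (sqrt_nonneg _), sqrt_eq_rpow]
  simp

theorem integral_root_exp {b : ℂ} (hb : 0 < b.re) :
    ∫ z : ℝ in Ioi 0, ((√z : ℝ) : ℂ) * Complex.exp (-(b * z)) =
      (√π : ℝ) / 2 * Complex.exp (-(3 / 2 * Complex.log b)) := by
  have hb0 : b ≠ 0 := by rintro rfl; simp at hb
  have i1 : IntegrableOn (fun x : ℝ => Complex.exp (-b * (x : ℂ) ^ 2)) (Ioi 0) :=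
    (integrable_cexp_neg_mul_sq hb).integrableOn
  have i2 : IntegrableOn (fun x : ℝ => (x : ℂ) ^ 2 * Complex.exp (-b * (x : ℂ) ^ 2)) (Ioi 0) := by
    refine Integrable.mono' (integrableOn_rpow_mul_exp_neg_mul_sq (s := 2) hb (by norm_num))
      (Continuous.aestronglyMeasurable (by fun_prop)) (Eventually.of_forall fun z => le_of_eq ?_)
    rw [norm_mul, norm_cexp_neg_mul_sq]
    simp
  have h1 : ∫ x : ℝ in Ioi 0, (Complex.exp (-b * (x : ℂ) ^ 2) -
      2 * b * ((x : ℂ) ^ 2 * Complex.exp (-b * (x : ℂ) ^ 2))) = 0 - ((0 : ℝ) : ℂ) *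
        Complex.exp (-b * ((0 : ℝ) : ℂ) ^ 2) := by
    refine integral_Ioi_of_hasDerivAt_of_tendsto'
      (f := fun x : ℝ => (x : ℂ) * Complex.exp (-b * (x : ℂ) ^ 2)) (fun x _ => ?_)
      (i1.sub (i2.const_mul _)) ?_
    · have A : HasDerivAt (fun x : ℂ => x * Complex.exp (-b * x ^ 2))
          (1 * Complex.exp (-b * (x : ℂ) ^ 2) + x * (Complex.exp (-b * (x : ℂ) ^ 2) *
            (-b * ((2 : ℕ) * (x : ℂ) ^ (2 - 1))))) (x : ℂ) :=
        (hasDerivAt_id _).mul ((hasDerivAt_pow 2 _).const_mul (-b)).cexp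
      refine HasDerivAt.congr_deriv A.comp_ofReal ?_
      push_cast
      ring
    · rw [tendsto_zero_iff_norm_tendsto_zero]
      have := (rpow_mul_exp_neg_mul_sq_isLittleO_exp_neg hb 1).trans_tendsto
        (tendsto_exp_atBot.comp (tendsto_id.const_mul_atTop_of_neg (by norm_num)))
      refine this.congr' ?_
      filter_upwards [eventually_ge_atTop 0] with x hx
      rw [norm_mul, norm_cexp_neg_mul_sq, Complex.norm_real, norm_of_nonneg hx, rpow_one]
  rw [integral_sub i1 (i2.const_mul _), MeasureTheory.integral_const_mul,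
    integral_gaussian_complex_Ioi hb] at h1
  rw [← integral_comp_rpow_Ioi_of_pos (p := 2) two_pos]
  have h2 : ∫ x : ℝ in Ioi 0, (2 * x ^ ((2 : ℝ) - 1)) • (((√(x ^ (2 : ℝ)) : ℝ) : ℂ) *
      Complex.exp (-(b * (x ^ (2 : ℝ) : ℝ)))) =
      2 * ∫ x : ℝ in Ioi 0, (x : ℂ) ^ 2 * Complex.exp (-b * (x : ℂ) ^ 2) := by
    rw [← MeasureTheory.integral_const_mul]
    refine setIntegral_congr_fun measurableSet_Ioi fun x hx => ?_
    simp only [rpow_two, sqrt_sq (le_of_lt hx), show (2 : ℝ) - 1 = 1 by norm_num, rpow_one,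
      Complex.real_smul]
    push_cast
    ring_nf
  have h3 : ((π : ℂ) / b) ^ (1 / 2 : ℂ) = (√π : ℝ) * Complex.exp (-(1 / 2 * Complex.log b)) := by
    have harg : b.arg ≠ π := fun h => by
      have := Complex.abs_arg_lt_pi_div_two_iff.2 (Or.inl hb)
      rw [h, abs_of_pos pi_pos] at this
      linarith [pi_pos]
    rw [Complex.cpow_def_of_ne_zero (by simp [hb0]), div_eq_mul_inv,
      Complex.log_ofReal_mul pi_pos (inv_ne_zero hb0), Complex.log_inv _ harg, add_mul,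
      Complex.exp_add, sqrt_eq_rpow, rpow_def_of_pos pi_pos]
    push_cast
    ring_nf
  have h4 : Complex.exp (-(1 / 2 * Complex.log b)) = b * Complex.exp (-(3 / 2 * Complex.log b)) := by
    conv_rhs => lhs; rw [← Complex.exp_log hb0]
    rw [← Complex.exp_add]
    ring_nf
  rw [h2]
  rw [h3, h4] at h1
  apply mul_left_cancel₀ hb0
  simp only [Complex.ofReal_zero, zero_mul, sub_zero] at h1
  linear_combination -h1

theorem gamma_seven_half : Gamma (7 / 2) = 15 / 8 * √π := by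
  rw [show (7 / 2 : ℝ) = 5 / 2 + 1 by norm_num, Gamma_add_one (by norm_num),
    show (5 / 2 : ℝ) = 3 / 2 + 1 by norm_num, Gamma_add_one (by norm_num),
    show (3 / 2 : ℝ) = 1 / 2 + 1 by norm_num, Gamma_add_one (by norm_num), Gamma_one_half_eq]
  ring

theorem weight_bound {z k : ℝ} (h0 : 0 ≤ z) (h1 : z ≤ 3 / 2) (hk : 0 ≤ k) :
    |2 * √(4 - z) / ((2 - z) ^ 2 + k) - exp (7 / 8 * z)| ≤ z ^ 2 * exp (2 * z) / 4 + 64 * k := by
  have hq : 1 / 4 ≤ (2 - z) ^ 2 := by nlinarith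
  have hr := sq_sqrt (show 0 ≤ 4 - z by linarith)
  have hr0 := sqrt_nonneg (4 - z)
  set r := √(4 - z)
  have hr1 : r ≤ 2 - z / 4 := by nlinarith
  have hr2 : 2 - z / 4 - z ^ 2 / 16 ≤ r := by
    refine le_sqrt_of_sq_le ?_
    nlinarith [mul_nonneg (sq_nonneg z) h0, mul_nonneg (sq_nonneg z) (sub_nonneg.2 h1),
      mul_nonneg (mul_nonneg (sq_nonneg z) h0) (sub_nonneg.2 h1)]
  have a1 : 2 * r / ((2 - z) ^ 2 + k) ≤ 2 * r / (2 - z) ^ 2 := by gcongr; linarith
  have a2 : 2 * r / (2 - z) ^ 2 - 64 * k ≤ 2 * r / ((2 - z) ^ 2 + k) := by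
    rw [sub_le_iff_le_add, div_add' _ _ _ (by positivity), div_le_div_iff₀ (by positivity)
      (by positivity)]
    have : 1 / 16 ≤ ((2 - z) ^ 2 + k) * (2 - z) ^ 2 := by nlinarith
    nlinarith
  rw [abs_le]
  constructor
  · have b1 : 2 - z ≤ 2 * exp (-(z / 2)) := by linarith [add_one_le_exp (-(z / 2))]
    have b2 : (2 - z) ^ 2 * exp z ≤ 4 := by
      calc _ ≤ (2 * exp (-(z / 2))) ^ 2 * exp z := by gcongr; linarith
        _ = 4 := by
          rw [mul_pow, ← exp_nat_mul, mul_assoc, ← exp_add, show ((2 : ℕ) : ℝ) * -(z / 2) + z = 0 by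
            push_cast; ring]
          norm_num
    have b3 : r / 2 * exp z ≤ 2 * r / (2 - z) ^ 2 := by
      rw [le_div_iff₀ (by positivity)]
      nlinarith
    have b4 : exp (-(z / 8)) ≤ 1 - z / 8 + z ^ 2 / 64 := by
      have := abs_le.1 (abs_exp_sub_one_sub_id_le (x := -(z / 8))
        (by rw [abs_neg, abs_of_nonneg (by linarith)]; linarith))
      linarith [this.2]
    have b5 : exp (7 / 8 * z) = exp (-(z / 8)) * exp z := by rw [← exp_add]; ring_nf
    have b6 : exp z ≤ exp (2 * z) := exp_le_exp.2 (by linarith)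
    have b7 : (exp (-(z / 8)) - 3 / 64 * z ^ 2) * exp z ≤ r / 2 * exp z := by
      gcongr; linarith
    nlinarith [mul_le_mul_of_nonneg_left b6 (sq_nonneg z), mul_nonneg (sq_nonneg z) (exp_pos z).le]
  · have b1 := sum_le_exp_of_nonneg (x := 7 / 8 * z) (by linarith) 4
    have b2 := sum_le_exp_of_nonneg (x := 2 * z) (by linarith) 6
    simp only [Finset.sum_range_succ, Finset.range_zero, Finset.sum_empty, Nat.factorial] at b1 b2
    push_cast at b1 b2
    have b3 : 2 * r / (2 - z) ^ 2 ≤ (1 + 7 / 8 * z + (7 / 8 * z) ^ 2 / 2 + (7 / 8 * z) ^ 3 / 6) +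
        z ^ 2 * (1 + 2 * z + (2 * z) ^ 2 / 2 + (2 * z) ^ 3 / 6 + (2 * z) ^ 4 / 24 +
          (2 * z) ^ 5 / 120) / 4 := by
      rw [div_le_iff₀ (by positivity)]
      have hw : 0 ≤ 3 / 2 - z := by linarith
      have : 0 ≤ z ^ 2 * (4 / 2187 * (3 / 2 - z) ^ 7 + 719 / 8748 * z * (3 / 2 - z) ^ 6 +
          2795 / 5832 * z ^ 2 * (3 / 2 - z) ^ 5 + 170279 / 139968 * z ^ 3 * (3 / 2 - z) ^ 4 +
          56131 / 34992 * z ^ 4 * (3 / 2 - z) ^ 3 + 126139 / 116640 * z ^ 5 * (3 / 2 - z) ^ 2 +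
          40973 / 174960 * z ^ 6 * (3 / 2 - z) + 4099 / 699840 * z ^ 7) := by positivity
      linarith
    have b4 := mul_le_mul_of_nonneg_left b2 (sq_nonneg z)
    linarith

theorem cosh_sub_one_le (a : ℝ) : cosh a - 1 ≤ a ^ 2 / 2 * cosh a := by
  have h1 := (hasSum_nat_add_iff' 1).2 (hasSum_cosh a)
  simp only [Finset.sum_range_one, mul_zero, pow_zero, Nat.factorial_zero, Nat.cast_one,
    div_one] at h1
  refine hasSum_le (fun n => ?_) h1 ((hasSum_cosh a).mul_left _)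
  rw [show 2 * (n + 1) = 2 * n + 1 + 1 by ring, Nat.factorial_succ, Nat.factorial_succ,
    div_mul_div_comm, ← pow_add, show 2 + 2 * n = 2 * n + 1 + 1 by ring, ← mul_assoc]
  have h0 : 0 ≤ a ^ (2 * n + 1 + 1) := by
    rw [show 2 * n + 1 + 1 = 2 * (n + 1) by ring, pow_mul]; positivity
  push_cast
  gcongr
  nlinarith [(Nat.cast_nonneg n : (0 : ℝ) ≤ n)]

variable {y : ℝ}

theorem dens_mul_sq_le (hy : 0 < y) (s : ℝ) : s ^ 2 * dens y s ≤ 2 * y / π := by
  have hk := kap_pos hy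
  have h1 : √(4 - s ^ 2) ≤ 2 := by
    rw [sqrt_le_left (by norm_num)]; nlinarith [sq_nonneg s]
  rw [dens, ← mul_div_assoc, div_le_div_iff₀ (by positivity) pi_pos]
  have h2 : s ^ 2 * √(4 - s ^ 2) ≤ (s ^ 2 + kap y) * 2 := by gcongr; linarith
  nlinarith [mul_pos hy pi_pos]

theorem norm_main_sub (hy : 0 < y) {v : ℂ} (hx : 2 < v.re) :
    ‖(∫ s in (1 / 2 : ℝ)..2, Complex.exp (v * s) / 2 * dens y s) - y * aa v‖ ≤
      y * exp (2 * v.re) / (4 * π) * (15 / 32 * √π * (1 / (v.re - 2)) ^ (7 / 2 : ℝ) +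
        120 * kap y) := by
  have hk := kap_pos hy
  have hb : 0 < (v - 7 / 8).re := by simp; linarith
  set c : ℂ := y * Complex.exp (2 * v) / (4 * π) with hc
  set f : ℝ → ℂ := fun z => ((√z * (2 * √(4 - z) / ((2 - z) ^ 2 + kap y)) : ℝ) : ℂ) *
    Complex.exp (-(v * z)) with hf
  set g : ℝ → ℂ := fun z => ((√z : ℝ) : ℂ) * Complex.exp (-((v - 7 / 8) * z)) with hg
  set B : ℝ → ℝ := fun z => z ^ ((7 / 2 : ℝ) - 1) * exp (-((v.re - 2) * z)) / 4 with hB
  have cf : Continuous f := by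
    refine Continuous.mul (Complex.continuous_ofReal.comp (Continuous.mul (by fun_prop)
      (Continuous.div (by fun_prop) (by fun_prop) fun s => by positivity))) (by fun_prop)
  have cg : Continuous g := by fun_prop
  have ig : IntegrableOn g (Ioi 0) := integrableOn_root_exp hb
  have iB : IntegrableOn B (Ioi 0) := by
    have := integrableOn_rpow_mul_exp_neg_mul_rpow (s := 7 / 2 - 1) (p := 1) (b := v.re - 2)
      (by norm_num) one_pos (by linarith)
    simp only [rpow_one, neg_mul] at this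
    exact this.div_const 4
  have cB : Continuous B := by
    refine ((continuous_rpow_const (by norm_num)).mul (by fun_prop)).div_const _
  have eB : ∀ z, 0 ≤ z → B z = √z * exp (-(v.re * z)) * (z ^ 2 * exp (2 * z) / 4) := by
    intro z hz
    simp only [hB]
    rw [show (7 / 2 : ℝ) - 1 = 1 / 2 + (2 : ℕ) by norm_num, rpow_add' hz (by norm_num),
      rpow_natCast, ← sqrt_eq_rpow, show -((v.re - 2) * z) = -(v.re * z) + 2 * z by ring, exp_add]
    ring
  have eg : ∀ z : ℝ, g z = ((√z * exp (7 / 8 * z) : ℝ) : ℂ) * Complex.exp (-(v * z)) := by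
    intro z
    simp only [hg]
    push_cast
    rw [mul_assoc, ← Complex.exp_add]
    ring_nf
  have e1 : ∫ s in (1 / 2 : ℝ)..2, Complex.exp (v * s) / 2 * dens y s =
      c * ∫ z in (0 : ℝ)..3 / 2, f z := by
    have := integral_comp_sub_left (fun s : ℝ => Complex.exp (v * s) / 2 * dens y s)
      (a := 0) (b := 3 / 2) 2
    rw [show (2 : ℝ) - 3 / 2 = 1 / 2 by norm_num, sub_zero] at this
    rw [← this, ← intervalIntegral.integral_const_mul]
    refine integral_congr fun z hz => ?_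
    rw [uIcc_of_le (by norm_num)] at hz
    simp only [hc, hf, dens]
    rw [show 4 - (2 - z) ^ 2 = z * (4 - z) by ring, sqrt_mul hz.1]
    have : (((2 - z) ^ 2 + kap y : ℝ) : ℂ) ≠ 0 := by exact_mod_cast (by positivity)
    push_cast at this ⊢
    rw [mul_sub v, sub_eq_add_neg (v * 2), Complex.exp_add, mul_comm v 2]
    field_simp
    ring
  have e2 : y * aa v = c * ∫ z in Ioi 0, g z := by
    rw [integral_root_exp hb, aa, sub_eq_add_neg (2 * v), Complex.exp_add, hc]
    have h1 : ((√π : ℝ) : ℂ) ≠ 0 := by exact_mod_cast (sqrt_pos.2 pi_pos).ne'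
    have h2 : (π : ℂ) = ((√π : ℝ) : ℂ) ^ 2 := by exact_mod_cast (sq_sqrt pi_pos.le).symm
    push_cast
    rw [h2]
    field_simp
    ring
  have e3 := integral_interval_add_Ioi ig (ig.mono_set (Ioi_subset_Ioi (by norm_num : (0 : ℝ) ≤ 3 / 2)))
  have e4 := integral_interval_add_Ioi iB (iB.mono_set (Ioi_subset_Ioi (by norm_num : (0 : ℝ) ≤ 3 / 2)))
  have e5 : ∫ z in Ioi 0, B z = 15 / 32 * √π * (1 / (v.re - 2)) ^ (7 / 2 : ℝ) := by
    simp only [hB]
    rw [MeasureTheory.integral_div, integral_rpow_mul_exp_neg_mul_Ioi (by norm_num) (by linarith),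
      gamma_seven_half]
    ring
  have n1 : ‖∫ z in (0 : ℝ)..3 / 2, (f z - g z)‖ ≤ ∫ z in (0 : ℝ)..3 / 2, (B z + 80 * kap y) := by
    refine norm_integral_le_of_norm_le (by norm_num) (Eventually.of_forall fun z hz => ?_)
      (Continuous.intervalIntegrable (by fun_prop) _ _)
    rw [eg, eB z hz.1.le]
    simp only [hf]
    rw [← sub_mul, ← Complex.ofReal_sub, ← mul_sub, norm_mul, Complex.norm_real, Complex.norm_exp,
      norm_eq_abs, abs_mul, abs_of_nonneg (sqrt_nonneg z)]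
    simp only [Complex.neg_re, Complex.mul_re, Complex.ofReal_re, Complex.ofReal_im, mul_zero,
      sub_zero]
    have w1 := weight_bound hz.1.le hz.2 hk.le
    have w2 : √z ≤ 5 / 4 := by rw [sqrt_le_left (by norm_num)]; linarith [hz.2]
    have w3 : exp (-(v.re * z)) ≤ 1 := exp_le_one_iff.2 (by nlinarith [hz.1])
    have w4 : √z * exp (-(v.re * z)) ≤ 5 / 4 * 1 := by gcongr
    have w5 := mul_le_mul_of_nonneg_left w1
      (mul_nonneg (sqrt_nonneg z) (exp_pos (-(v.re * z))).le)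
    nlinarith
  have n2 : ‖∫ z in Ioi (3 / 2 : ℝ), g z‖ ≤ ∫ z in Ioi (3 / 2 : ℝ), B z := by
    refine MeasureTheory.norm_integral_le_of_norm_le
      (iB.mono_set (Ioi_subset_Ioi (by norm_num : (0 : ℝ) ≤ 3 / 2))) ?_
    filter_upwards [ae_restrict_mem measurableSet_Ioi] with z hz
    have hz' : 3 / 2 < z := hz
    rw [eg, eB z (by linarith), norm_mul, Complex.norm_real, Complex.norm_exp,
      norm_of_nonneg (by positivity)]
    simp only [Complex.neg_re, Complex.mul_re, Complex.ofReal_re, Complex.ofReal_im, mul_zero,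
      sub_zero]
    have w1 : exp (7 / 8 * z) ≤ z ^ 2 * exp (2 * z) / 4 := by
      rw [show 2 * z = 9 / 8 * z + 7 / 8 * z by ring, exp_add]
      have := add_one_le_exp (9 / 8 * z)
      have h2 : 4 ≤ z ^ 2 * exp (9 / 8 * z) := by nlinarith
      nlinarith [exp_pos (7 / 8 * z)]
    rw [mul_right_comm]
    gcongr
  rw [integral_add (cB.intervalIntegrable _ _) (by simp), intervalIntegral.integral_const] at n1
  rw [integral_sub (cf.intervalIntegrable _ _) (cg.intervalIntegrable _ _)] at n1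
  rw [e1, e2, ← mul_sub, norm_mul, ← e3, ← sub_sub]
  have n3 : ‖c‖ = y * exp (2 * v.re) / (4 * π) := by
    rw [hc, norm_div, norm_mul, norm_mul, Complex.norm_exp, Complex.norm_real, Complex.norm_real,
      norm_of_nonneg hy.le, norm_of_nonneg pi_pos.le]
    simp
  rw [n3]
  gcongr
  refine (norm_sub_le _ _).trans ?_
  simp only [smul_eq_mul] at n1
  linarith

theorem norm_rest (hy : 0 < y) {v : ℂ} (hx : 0 ≤ v.re) :
    ‖Psi y v - 1 - ∫ s in (1 / 2 : ℝ)..2, Complex.exp (v * s) / 2 * dens y s‖ ≤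
      y * (‖v‖ ^ 2 * exp (v.re / 2) / 2 + 18) / π := by
  have hc := continuous_dens hy
  have e1 : (1 : ℂ) = ∫ s in (0 : ℝ)..2, (dens y s : ℂ) := by
    rw [intervalIntegral.integral_ofReal, mass hy]; simp
  have e2 : Psi y v - 1 - ∫ s in (1 / 2 : ℝ)..2, Complex.exp (v * s) / 2 * dens y s =
      (∫ s in (0 : ℝ)..1 / 2, (Complex.cosh (v * s) - 1) * dens y s) +
      ∫ s in (1 / 2 : ℝ)..2, (Complex.exp (-(v * s)) / 2 - 1) * dens y s := by
    rw [e1, Psi, ← integral_sub (Continuous.intervalIntegrable (by fun_prop) _ _)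
      (Continuous.intervalIntegrable (by fun_prop) _ _), ← e1,
      ← integral_add_adjacent_intervals (b := 1 / 2) (Continuous.intervalIntegrable (by fun_prop) _ _)
      (Continuous.intervalIntegrable (by fun_prop) _ _), add_sub_assoc,
      ← integral_sub (Continuous.intervalIntegrable (by fun_prop) _ _)
      (Continuous.intervalIntegrable (by fun_prop) _ _)]
    congr 2
    · ext s; ring
    · ext s; rw [Complex.cosh]; ring
  have n1 := norm_integral_le_of_norm_le_const (a := 0) (b := 1 / 2)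
    (f := fun s : ℝ => (Complex.cosh (v * s) - 1) * dens y s)
    (C := y * (‖v‖ ^ 2 * exp (v.re / 2)) / π) fun s hs => by
      rw [uIoc_of_le (by norm_num)] at hs
      rw [norm_mul, Complex.norm_real, norm_of_nonneg (dens_nonneg hy s)]
      have h1 := norm_cosh_sub_one (v * s)
      simp only [Complex.mul_re, Complex.mul_im, Complex.ofReal_re, Complex.ofReal_im, mul_zero,
        sub_zero, zero_add] at h1
      have h2 := cosh_sub_one_le (v.re * s)
      have h3 : cosh (v.re * s) ≤ exp (v.re / 2) := by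
        have a1 : exp (v.re * s) ≤ exp (v.re / 2) := exp_le_exp.2 (by nlinarith [hs.1, hs.2])
        have a2 : exp (-(v.re * s)) ≤ exp (v.re / 2) := exp_le_exp.2 (by nlinarith [hs.1, hs.2])
        rw [cosh_eq]; linarith
      have h4 : 1 ≤ exp (v.re / 2) := one_le_exp (by linarith)
      have h5 : ‖Complex.cosh (v * s) - 1‖ ≤ ‖v‖ ^ 2 * exp (v.re / 2) / 2 * s ^ 2 := by
        rw [Complex.sq_norm, Complex.normSq_apply]
        nlinarith [mul_le_mul_of_nonneg_left h3 (sq_nonneg (v.re * s)),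
          mul_le_mul_of_nonneg_left h4 (sq_nonneg (v.im * s))]
      calc _ ≤ ‖v‖ ^ 2 * exp (v.re / 2) / 2 * s ^ 2 * dens y s :=
            mul_le_mul_of_nonneg_right h5 (dens_nonneg hy s)
        _ = ‖v‖ ^ 2 * exp (v.re / 2) / 2 * (s ^ 2 * dens y s) := by ring
        _ ≤ ‖v‖ ^ 2 * exp (v.re / 2) / 2 * (2 * y / π) := by gcongr; exact dens_mul_sq_le hy s
        _ = _ := by ring
  have n2 := norm_integral_le_of_norm_le_const (a := 1 / 2) (b := 2)
    (f := fun s : ℝ => (Complex.exp (-(v * s)) / 2 - 1) * dens y s) (C := 12 * y / π) fun s hs => by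
      rw [uIoc_of_le (by norm_num)] at hs
      rw [norm_mul, Complex.norm_real, norm_of_nonneg (dens_nonneg hy s)]
      have h1 : ‖Complex.exp (-(v * s)) / 2 - 1‖ ≤ 3 / 2 := by
        refine (norm_sub_le _ _).trans ?_
        rw [norm_div, Complex.norm_exp]
        have : exp (-(v * s)).re ≤ 1 := exp_le_one_iff.2 (by simp; nlinarith [hs.1])
        simp only [Complex.norm_ofNat, norm_one]
        linarith
      have h2 := dens_mul_sq_le hy s
      have h3 := dens_nonneg hy s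
      have h4 : dens y s ≤ 4 * (2 * y / π) := by
        have : 1 / 4 ≤ s ^ 2 := by nlinarith [hs.1]
        nlinarith
      calc _ ≤ 3 / 2 * (4 * (2 * y / π)) := by gcongr
        _ = _ := by ring
  rw [e2]
  refine (norm_add_le _ _).trans ((add_le_add n1 n2).trans (le_of_eq ?_))
  norm_num
  ring

theorem norm_aa {v : ℂ} (h : v - 7 / 8 ≠ 0) :
    ‖aa v‖ = exp (2 * v.re) / (8 * √π * (‖v - 7 / 8‖ * √‖v - 7 / 8‖)) := by
  have h0 := norm_pos_iff.2 h
  rw [aa, norm_div, Complex.norm_exp, Complex.norm_real, norm_of_nonneg (by positivity)]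
  have e : (2 * v - 3 / 2 * Complex.log (v - 7 / 8)).re =
      2 * v.re - (log ‖v - 7 / 8‖ + log ‖v - 7 / 8‖ * (1 / 2)) := by
    simp [Complex.log_re]
    ring
  rw [e, exp_sub, exp_add, exp_log h0, ← rpow_def_of_pos h0, ← sqrt_eq_rpow]
  field_simp

theorem pow_six_le {x : ℝ} (hx : 11.4 ≤ x) : x ^ 6 * exp (x / 2) ≤ 0.0865 * exp (2 * x) := by
  have b5 : x ≤ 0.665 * exp (x / 4) := by
    have c1 := sum_le_exp_of_nonneg (x := 2.85) (by norm_num) 10
    simp only [Finset.sum_range_succ, Finset.range_zero, Finset.sum_empty, Nat.factorial] at c1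
    norm_num at c1
    have c2 := add_one_le_exp (x / 4 - 2.85)
    rw [show x / 4 = 2.85 + (x / 4 - 2.85) by ring, exp_add]
    norm_num at c2 ⊢
    nlinarith
  have : 0 ≤ x := by linarith
  calc _ ≤ (0.665 * exp (x / 4)) ^ 6 * exp (x / 2) := by gcongr
    _ = 0.665 ^ 6 * exp (2 * x) := by
      rw [mul_pow, ← exp_nat_mul, mul_assoc, ← exp_add]; ring_nf
    _ ≤ _ := by gcongr; norm_num

theorem asym_real {q s k E F : ℝ} (hy : 0 < y) (hq : 3.376 ≤ q) (hs : 1.772 ≤ s) (hE : 0 < E)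
    (hk : k * (q ^ 2) ^ 4 ≤ 1 / 10 ^ 5) (hF : (q ^ 2) ^ 6 * F ≤ 0.0865 * E) :
    y * (0.69 * ((q ^ 2) ^ 2 * F)) / s ^ 2 + y * E / (4 * s ^ 2) *
      (15 / 32 * s * (1 / (0.908 * q) ^ 7) + 120 * k) ≤
        2.42 / (q ^ 2) ^ 2 * (y * (E / (10 * s * q ^ 3))) := by
  have hq0 : 0 < q := by linarith
  have hs0 : 0 < s := by linarith
  have h0 : 5.98 ≤ s * q := by nlinarith
  have hU : 0 < y * E / (10 * s * q ^ 7) := by positivity
  have e : y * (0.69 * ((q ^ 2) ^ 2 * F)) / s ^ 2 + y * E / (4 * s ^ 2) *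
      (15 / 32 * s * (1 / (0.908 * q) ^ 7) + 120 * k) = (6.9 * ((q ^ 2) ^ 6 * F / E) / (s * q) +
        150 / 128 / 0.908 ^ 7 + 300 * (k * (q ^ 2) ^ 4) / (s * q)) * (y * E / (10 * s * q ^ 7)) := by
    field_simp
    ring
  have e' : 2.42 / (q ^ 2) ^ 2 * (y * (E / (10 * s * q ^ 3))) =
      2.42 * (y * E / (10 * s * q ^ 7)) := by field_simp
  rw [e, e']
  refine mul_le_mul_of_nonneg_right ?_ hU.le
  have t1 : (150 / 128 / 0.908 ^ 7 : ℝ) ≤ 2.304 := by norm_num
  have t2 : 300 * (k * (q ^ 2) ^ 4) / (s * q) ≤ 0.001 := by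
    rw [div_le_iff₀ (by positivity)]; linarith
  have t3 : 6.9 * ((q ^ 2) ^ 6 * F / E) / (s * q) ≤ 0.11 := by
    have : (q ^ 2) ^ 6 * F / E ≤ 0.0865 := by rwa [div_le_iff₀ hE]
    rw [div_le_iff₀ (by positivity)]; linarith
  linarith

theorem asym (hy : 0 < y) {v : ℂ} (hx : 11.4 ≤ v.re) (hv : ‖v‖ ≤ 1.16 * v.re)
    (hk : kap y * v.re ^ 4 ≤ 1 / 10 ^ 5) :
    ‖Psi y v - 1 - y * aa v‖ ≤ 2.42 / v.re ^ 2 * (y * ‖aa v‖) := by
  have h1 := norm_main_sub hy (v := v) (by linarith)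
  have h2 := norm_rest hy (v := v) (by linarith)
  have hb : v - 7 / 8 ≠ 0 := fun h => by
    have := congrArg Complex.re h
    simp at this
    linarith
  have b0 : ‖v - 7 / 8‖ ≤ ‖v‖ := by
    rw [← sq_le_sq₀ (norm_nonneg _) (norm_nonneg _), Complex.sq_norm, Complex.sq_norm,
      Complex.normSq_apply, Complex.normSq_apply]
    simp
    nlinarith
  have hn := norm_aa hb
  have hb0 := norm_pos_iff.2 hb
  generalize v.re = x at *
  have hx0 : 0 < x := by linarith
  have hk0 := kap_pos hy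
  have b6 := pow_six_le hx
  have hq : 3.376 ≤ √x := le_sqrt_of_sq_le (by linarith)
  obtain ⟨q, hq2, hq⟩ : ∃ q, q ^ 2 = x ∧ 3.376 ≤ q := ⟨√x, sq_sqrt hx0.le, hq⟩
  have hs2 := sq_sqrt pi_pos.le
  have hs' : 1.772 ≤ √π := le_sqrt_of_sq_le (by linarith [pi_gt_d4])
  have hq0 : 0 < q := by linarith
  have b1 : ‖v - 7 / 8‖ ≤ 1.16 * q ^ 2 := by rw [hq2]; exact b0.trans hv
  have b2 : √‖v - 7 / 8‖ ≤ 1.0771 * q := by
    rw [sqrt_le_left (by positivity)]; nlinarith
  have b3 : exp (2 * x) / (10 * √π * q ^ 3) ≤ ‖aa v‖ := by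
    rw [hn]
    refine div_le_div_of_nonneg_left (exp_pos _).le (by positivity) ?_
    calc _ ≤ 8 * √π * (1.16 * q ^ 2 * (1.0771 * q)) := by gcongr
      _ = (8 * 1.16 * 1.0771) * (√π * q ^ 3) := by ring
      _ ≤ 10 * (√π * q ^ 3) := by gcongr; norm_num
      _ = _ := by ring
  have b4 : (1 / (x - 2)) ^ (7 / 2 : ℝ) ≤ 1 / (0.908 * q) ^ 7 := by
    have c1 : 1 / (x - 2) ≤ (1 / (0.908 * q)) ^ 2 := by
      rw [div_pow, one_pow, mul_pow, hq2]
      exact one_div_le_one_div_of_le (by positivity) (by linarith)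
    calc _ ≤ ((1 / (0.908 * q)) ^ 2) ^ (7 / 2 : ℝ) :=
          rpow_le_rpow (one_div_nonneg.2 (by linarith)) c1 (by norm_num)
      _ = _ := by
        rw [← rpow_natCast, ← rpow_mul (by positivity), show ((2 : ℕ) : ℝ) * (7 / 2) = (7 : ℕ) by
          norm_num, rpow_natCast, div_pow, one_pow]
  have b7 : ‖v‖ ^ 2 * exp (x / 2) / 2 + 18 ≤ 0.69 * (x ^ 2 * exp (x / 2)) := by
    have c1 : ‖v‖ ^ 2 ≤ (1.16 * x) ^ 2 := by gcongr
    have c2 := quadratic_le_exp_of_nonneg (x := x / 2) (by linarith)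
    have c4 : 129 ≤ x ^ 2 := by nlinarith
    have c3 : 20 ≤ exp (x / 2) := by linarith
    have c5 : 129 * 20 ≤ x ^ 2 * exp (x / 2) := by gcongr
    have c6 := mul_le_mul_of_nonneg_right c1 (exp_pos (x / 2)).le
    linarith
  have key := asym_real (k := kap y) (F := exp (x / 2)) hy hq hs' (exp_pos (2 * x))
    (by rwa [hq2]) (by rwa [hq2])
  rw [hq2, hs2] at key
  have h3 := norm_add_le_of_le h2 h1
  rw [sub_add_sub_cancel] at h3
  calc _ ≤ _ := h3
    _ ≤ y * (0.69 * (x ^ 2 * exp (x / 2))) / π + y * exp (2 * x) / (4 * π) *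
        (15 / 32 * √π * (1 / (0.908 * q) ^ 7) + 120 * kap y) := by gcongr
    _ ≤ _ := key
    _ ≤ _ := by gcongr

end Pool.Agent.P.MP_ee6314_co
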