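import Mathlib

/-! Roots of complex polynomials inside a circle: continuity, counting and power sums. -/

namespace Pool.Agent.P.MP_ee6314_co

open Polynomial Complex Metric Set

/-- The roots inside the circle of radius `R`. -/
noncomputable def ins (p : ℂ[X]) (R : ℝ) : Multiset ℂ := p.roots.filter fun z => ‖z‖ < R

/-- Power sums of the roots inside the circle. -/
noncomputable def psum (p : ℂ[X]) (R : ℝ) (j : ℕ) : ℂ := ((ins p R).map (· ^ j)).sum

theorem circ_multiset {R : ℝ} (hR : 0 < R) (j : ℕ) (s : Multiset ℂ) (hs : ∀ w ∈ s, ‖w‖ ≠ R) :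
    ContinuousOn (fun z => z ^ j * (s.map fun w => 1 / (z - w)).sum) (sphere 0 R) ∧
    (∮ z in C(0, R), z ^ j * (s.map fun w => 1 / (z - w)).sum) =
      2 * Real.pi * I * ((s.filter fun z => ‖z‖ < R).map (· ^ j)).sum := by
  induction s using Multiset.induction_on with
  | empty => simp [continuousOn_const, circleIntegral]
  | cons w s ih =>
    obtain ⟨h1, h2⟩ := ih fun u hu => hs u (Multiset.mem_cons_of_mem hu)
    have hw := hs w (Multiset.mem_cons_self _ _)
    have h3 : ContinuousOn (fun z : ℂ => (z - w)⁻¹ • z ^ j) (sphere 0 R) := by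
      refine ContinuousOn.smul (f := fun z : ℂ => (z - w)⁻¹) (g := fun z : ℂ => z ^ j)
        (ContinuousOn.inv₀ (f := fun z : ℂ => z - w) (by fun_prop) fun z hz h => hw ?_)
        (by fun_prop)
      rw [← sub_eq_zero.1 h]
      simpa using hz
    have e : (fun z : ℂ => z ^ j * ((w ::ₘ s).map fun w => 1 / (z - w)).sum) =
        fun z => (z - w)⁻¹ • z ^ j + z ^ j * (s.map fun w => 1 / (z - w)).sum := by
      ext z
      simp only [Multiset.map_cons, Multiset.sum_cons, smul_eq_mul]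
      ring
    rw [e]
    refine ⟨h3.add h1, ?_⟩
    rw [circleIntegral.integral_add (h3.circleIntegrable hR.le) (h1.circleIntegrable hR.le), h2]
    rcases hw.lt_or_gt with h | h
    · rw [DifferentiableOn.circleIntegral_sub_inv_smul (f := fun z => z ^ j) (by fun_prop)
        (by simpa using h), Multiset.filter_cons_of_pos (p := fun z : ℂ => ‖z‖ < R) _ h]
      simp only [Multiset.map_cons, Multiset.sum_cons, smul_eq_mul]
      ring
    · rw [Multiset.filter_cons_of_neg (p := fun z : ℂ => ‖z‖ < R) _ (not_lt.2 h.le),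
        DiffContOnCl.circleIntegral_eq_zero hR.le, zero_add]
      refine DifferentiableOn.diffContOnCl ?_
      rw [closure_ball _ hR.ne']
      refine DifferentiableOn.smul (c := fun z : ℂ => (z - w)⁻¹) (f := fun z : ℂ => z ^ j)
        (DifferentiableOn.inv (h := fun z : ℂ => z - w) (by fun_prop) fun z hz h' => ?_)
        (by fun_prop)
      rw [← sub_eq_zero.1 h'] at h
      exact absurd (mem_closedBall_zero_iff.1 hz) (not_le.2 h)

theorem circ_eq {p : ℂ[X]} {R : ℝ} (hR : 0 < R) (h : ∀ z, ‖z‖ = R → p.eval z ≠ 0) (j : ℕ) :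
    (∮ z in C(0, R), z ^ j * (p.derivative.eval z / p.eval z)) = 2 * Real.pi * I * psum p R j := by
  rw [psum, ins, ← (circ_multiset hR j p.roots fun w hw e => h w e (isRoot_of_mem_roots hw)).2]
  refine circleIntegral.integral_congr hR.le fun z hz => ?_
  rw [(IsAlgClosed.splits p).eval_derivative_div_eval_of_ne_zero (h z (by simpa using hz))]

theorem continuousOn_psum {p : ℝ → ℂ[X]} {R : ℝ → ℝ} {S : Set ℝ}
    (h0 : ContinuousOn (fun x : ℝ × ℂ => (p x.1).eval x.2) (S ×ˢ univ))
    (h1 : ContinuousOn (fun x : ℝ × ℂ => (p x.1).derivative.eval x.2) (S ×ˢ univ))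
    (hR : ContinuousOn R S) (hpos : ∀ s ∈ S, 0 < R s)
    (hf : ∀ s ∈ S, ∀ z, ‖z‖ = R s → (p s).eval z ≠ 0) (j : ℕ) :
    ContinuousOn (fun s => psum (p s) (R s) j) S := by
  have hne : (2 * Real.pi * I : ℂ) ≠ 0 := two_pi_I_ne_zero
  refine ContinuousOn.congr (f := fun s => (2 * Real.pi * I)⁻¹ *
    ∮ z in C(0, R s), z ^ j * ((p s).derivative.eval z / (p s).eval z)) ?_ fun s hs => ?_
  · refine continuousOn_const.mul ?_
    rw [continuousOn_iff_continuous_domRestrict]
    simp only [circleIntegral, deriv_circleMap]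
    apply intervalIntegral.continuous_parametric_intervalIntegral_of_continuous'
      (f := fun (s : S) θ => (circleMap 0 (R s) θ * I) • (circleMap 0 (R s) θ ^ j *
        ((p s).derivative.eval (circleMap 0 (R s) θ) / (p s).eval (circleMap 0 (R s) θ))))
    have c0 : Continuous fun s : S => R s := continuousOn_iff_continuous_domRestrict.1 hR
    have c1 : Continuous fun x : S × ℝ => circleMap 0 (R x.1) x.2 := by
      have := c0.comp (continuous_fst (X := S) (Y := ℝ))
      unfold circleMap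
      exact continuous_const.add ((continuous_ofReal.comp this).mul (by fun_prop))
    have c2 : Continuous fun x : S × ℝ => ((x.1 : ℝ), circleMap 0 (R x.1) x.2) := by fun_prop
    have c3 := h0.comp_continuous c2 fun x => ⟨x.1.2, trivial⟩
    have c4 := h1.comp_continuous c2 fun x => ⟨x.1.2, trivial⟩
    refine (c1.mul continuous_const).smul ((c1.pow j).mul (c4.div c3 fun x => hf _ x.1.2 _ ?_))
    simp [abs_of_pos (hpos _ x.1.2)]
  · simp only
    rw [circ_eq (hpos s hs) (hf s hs), inv_mul_cancel_left₀ hne]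

theorem psum_zero (p : ℂ[X]) (R : ℝ) : psum p R 0 = (ins p R).card := by simp [psum]

theorem card_ins_eq {p : ℝ → ℂ[X]} {R : ℝ → ℝ} {S : Set ℝ} (hS : IsPreconnected S)
    (h : ContinuousOn (fun s => psum (p s) (R s) 0) S) {a b : ℝ} (ha : a ∈ S) (hb : b ∈ S) :
    (ins (p a) (R a)).card = (ins (p b) (R b)).card := by
  refine hS.constant (f := fun s => (ins (p s) (R s)).card) ?_ ha hb
  rw [(isometry_ofReal.isEmbedding.comp
    Nat.isClosedEmbedding_coe_real.isEmbedding).continuousOn_iff]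
  simpa [psum_zero, Function.comp_def] using h

theorem rouche {p q : ℂ[X]} {R : ℝ} (hR : 0 < R)
    (h : ∀ z, ‖z‖ = R → ‖p.eval z - q.eval z‖ < ‖q.eval z‖) :
    (ins p R).card = (ins q R).card := by
  have key := card_ins_eq (p := fun s : ℝ => q + C (s : ℂ) * (p - q)) (R := fun _ => R)
    (S := Icc 0 1) isPreconnected_Icc (continuousOn_psum ?_ ?_ continuousOn_const
      (fun _ _ => hR) ?_ 0) (a := 1) (b := 0) (by simp) (by simp)
  · simpa using key
  · simp only [eval_add, eval_mul, eval_C]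
    fun_prop
  · simp only [derivative_add, derivative_C_mul, eval_add, eval_mul, eval_C]
    fun_prop
  · intro s hs z hz h0
    simp only [eval_add, eval_mul, eval_C, eval_sub] at h0
    have h1 := h z hz
    rw [eq_neg_of_add_eq_zero_left h0, norm_neg, norm_mul, norm_real,
      Real.norm_of_nonneg hs.1] at h1
    rw [← eq_neg_of_add_eq_zero_left h0] at h1
    nlinarith [norm_nonneg (p.eval z - q.eval z), hs.2]

theorem root_ne_zero {p : ℂ[X]} (h : p.eval 0 = 1) {z : ℂ} (hz : z ∈ p.roots) : z ≠ 0 := by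
  rintro rfl
  have := isRoot_of_mem_roots hz
  rw [IsRoot, h] at this
  exact one_ne_zero this

theorem eq_prod_one_sub {p : ℂ[X]} (h : p.eval 0 = 1) :
    p = (p.roots.map fun z => 1 - C z⁻¹ * X).prod := by
  have h1 := (IsAlgClosed.splits p).eq_prod_roots
  have h2 := (IsAlgClosed.splits p).eval_eq_prod_roots 0
  have h3 : (p.roots.map fun z => X - C z) =
      p.roots.map fun z => C (0 - z) * (1 - C z⁻¹ * X) := by
    refine Multiset.map_congr rfl fun z hz => ?_
    rw [mul_sub, ← mul_assoc, ← C_mul, zero_sub, neg_mul, mul_inv_cancel₀ (root_ne_zero h hz)]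
    simp only [map_neg, map_one]
    ring
  rw [h3, Multiset.prod_map_mul, ← mul_assoc] at h1
  have h4 : (p.roots.map fun z => (C (0 - z) : ℂ[X])).prod = C (p.roots.map (0 - ·)).prod := by
    rw [map_multiset_prod, Multiset.map_map]
    rfl
  rw [h4, ← C_mul, ← h2, h, C_1, one_mul] at h1
  exact h1

theorem newton_series (s : Multiset ℂ) :
    PowerSeries.derivative ℂ (s.map fun a => 1 - PowerSeries.C a * PowerSeries.X).prod =
      -((s.map fun a => 1 - PowerSeries.C a * PowerSeries.X).prod *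
        PowerSeries.mk fun j => (s.map (· ^ (j + 1))).sum) := by
  induction s using Multiset.induction_on with
  | empty => ext n; simp
  | cons a s ih =>
    have e1 : (PowerSeries.mk fun j => ((a ::ₘ s).map (· ^ (j + 1))).sum) =
        (PowerSeries.mk fun j => a ^ (j + 1)) + PowerSeries.mk fun j => (s.map (· ^ (j + 1))).sum := by
      ext n; simp
    have e2 : (1 - PowerSeries.C a * PowerSeries.X) * (PowerSeries.mk fun j => a ^ (j + 1)) =
        PowerSeries.C a := by
      ext n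
      rw [sub_mul, one_mul, mul_assoc, map_sub, PowerSeries.coeff_C_mul]
      cases n with
      | zero => simp
      | succ n => simp [PowerSeries.coeff_succ_X_mul, pow_succ']
    have e3 : PowerSeries.derivative ℂ (1 - PowerSeries.C a * PowerSeries.X) = -PowerSeries.C a := by
      simp
    rw [Multiset.map_cons, Multiset.prod_cons, Derivation.leibniz, ih, e1, e3, smul_eq_mul,
      smul_eq_mul]
    linear_combination (s.map fun a => 1 - PowerSeries.C a * PowerSeries.X).prod * e2

theorem newton {p : ℂ[X]} (h : p.eval 0 = 1) (n : ℕ) : p.coeff (n + 1) * (n + 1) =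
    -∑ j ∈ Finset.range (n + 1), (p.roots.map fun z => z⁻¹ ^ (j + 1)).sum * p.coeff (n - j) := by
  have h1 := newton_series (p.roots.map (·⁻¹))
  have h2 : ((p.roots.map (·⁻¹)).map fun a => 1 - PowerSeries.C a * PowerSeries.X).prod =
      (p : PowerSeries ℂ) := by
    conv_rhs => rw [eq_prod_one_sub h]
    rw [← coeToPowerSeries.ringHom_apply, map_multiset_prod, Multiset.map_map, Multiset.map_map]
    refine congrArg _ (Multiset.map_congr rfl fun z _ => ?_)
    simp
  rw [h2, mul_comm] at h1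
  have h3 := congrArg (PowerSeries.coeff n) h1
  rw [PowerSeries.coeff_derivative, map_neg, PowerSeries.coeff_mul,
    Finset.Nat.sum_antidiagonal_eq_sum_range_succ_mk] at h3
  simpa [Multiset.map_map] using h3

/-- A polynomial with real coefficients. -/
noncomputable def poly (c : ℕ → ℝ) (D : ℕ) : ℂ[X] :=
  ∑ n ∈ Finset.range (D + 1), C (c n : ℂ) * X ^ n

theorem eval_poly (c : ℕ → ℝ) (D : ℕ) (z : ℂ) :
    (poly c D).eval z = ∑ n ∈ Finset.range (D + 1), c n * z ^ n := by
  simp [poly, eval_finsetSum]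

theorem coeff_poly (c : ℕ → ℝ) (D n : ℕ) : (poly c D).coeff n = if n ≤ D then (c n : ℂ) else 0 := by
  simp [poly, coeff_X_pow]

theorem eval_zero_poly {c : ℕ → ℝ} (h : c 0 = 1) (D : ℕ) : (poly c D).eval 0 = 1 := by
  rw [← coeff_zero_eq_eval_zero, coeff_poly, h]
  simp

theorem mahler {c : ℕ → ℝ} (h : c 0 = 1) (hc : ∀ n, 0 ≤ c n) (D : ℕ) {r : ℝ} (hr : 0 < r) :
    ((poly c D).roots.map fun z => max 1 (r / ‖z‖)).prod ≤
      ∑ n ∈ Finset.range (D + 1), c n * r ^ n := by
  have h0 := eval_zero_poly h D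
  have h1 := mahlerMeasure_le_sum_norm_coeff ((poly c D).comp (C (r : ℂ) * X))
  have h2 : (poly c D).comp (C (r : ℂ) * X) = poly (fun n => c n * r ^ n) D := by
    simp [poly, Polynomial.sum_comp, mul_pow, mul_assoc]
  refine le_trans (le_of_eq ?_) (h1.trans ?_)
  · conv_rhs => rw [eq_prod_one_sub h0]
    rw [multiset_prod_comp, prod_mahlerMeasure_eq_mahlerMeasure_prod, Multiset.map_map,
      Multiset.map_map]
    refine congrArg _ (Multiset.map_congr rfl fun z hz => ?_)
    have hz0 := root_ne_zero h0 hz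
    have e : (1 - C z⁻¹ * X : ℂ[X]).comp (C (r : ℂ) * X) = C (-(z⁻¹ * r)) * X + C 1 := by
      simp only [sub_comp, one_comp, mul_comp, C_comp, X_comp, map_neg, map_mul, map_one]
      ring
    simp only [Function.comp]
    rw [e, mahlerMeasure_C_mul_X_add_C (by simp [hz0, hr.ne']), max_comm]
    simp [div_eq_inv_mul, abs_of_pos hr]
  · rw [h2, Polynomial.sum_def]
    refine (Finset.sum_le_sum_of_subset_of_nonneg (t := Finset.range (D + 1)) ?_
      fun _ _ _ => norm_nonneg _).trans (le_of_eq (Finset.sum_congr rfl fun n hn => ?_))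
    · intro n hn
      rw [mem_support_iff, coeff_poly] at hn
      by_contra h
      exact hn (if_neg fun h' => h (Finset.mem_range.2 (by omega)))
    · rw [coeff_poly, if_pos (Nat.lt_succ_iff.1 (Finset.mem_range.1 hn)), norm_real,
        Real.norm_of_nonneg (mul_nonneg (hc n) (by positivity))]

theorem pow_card_le {s : Multiset ℂ} (hs : ∀ z ∈ s, z ≠ 0) {a r : ℝ} (hr : 0 ≤ r) :
    (r / a) ^ (s.filter fun z => ‖z‖ ≤ a).card ≤ (s.map fun z => max 1 (r / ‖z‖)).prod := by
  induction s using Multiset.induction_on with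
  | empty => simp
  | cons w s ih =>
    have h1 := ih fun u hu => hs u (Multiset.mem_cons_of_mem hu)
    have hw := norm_pos_iff.2 (hs w (Multiset.mem_cons_self _ _))
    have h2 : 0 ≤ (s.map fun z => max 1 (r / ‖z‖)).prod :=
      Multiset.prod_nonneg fun x hx => by
        obtain ⟨z, -, rfl⟩ := Multiset.mem_map.1 hx
        positivity
    rw [Multiset.map_cons, Multiset.prod_cons]
    by_cases h : ‖w‖ ≤ a
    · have ha := hw.trans_le h
      rw [Multiset.filter_cons_of_pos (p := fun z : ℂ => ‖z‖ ≤ a) _ h, Multiset.card_cons,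
        pow_succ']
      exact mul_le_mul (le_max_of_le_right (by gcongr)) h1 (by positivity) (by positivity)
    · rw [Multiset.filter_cons_of_neg (p := fun z : ℂ => ‖z‖ ≤ a) _ h]
      exact h1.trans (le_mul_of_one_le_left h2 (le_max_left _ _))

theorem sum_filter_eq (s : Multiset ℂ) (p : ℂ → Prop) [DecidablePred p] (f : ℂ → ℝ) :
    ((s.filter p).map f).sum = (s.map fun z => if p z then f z else 0).sum := by
  induction s using Multiset.induction_on with
  | empty => simp
  | cons w s ih => by_cases h : p w <;> simp [h, ih]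

theorem card_filter_eq (s : Multiset ℂ) (p : ℂ → Prop) [DecidablePred p] :
    ((s.filter p).card : ℝ) = (s.map fun z => if p z then (1 : ℝ) else 0).sum := by
  rw [← sum_filter_eq]
  simp

/-- Growth of order one half, expressed through the zeros. -/
def Growth (s : Multiset ℂ) : Prop :=
  (∀ z ∈ s, z ≠ 0) ∧ ∀ ρ : ℝ, 0 < ρ → (s.map fun z => max 1 (ρ ^ 2 / ‖z‖)).prod ≤ Real.exp (2 * ρ)

theorem Growth.card_le {s : Multiset ℂ} (h : Growth s) {ρ : ℝ} (hρ : 0 < ρ) :
    ((s.filter fun z => ‖z‖ ≤ ρ ^ 2).card : ℝ) ≤ 2.75 * ρ := by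
  have h1 := (pow_card_le h.1 (a := ρ ^ 2) (sq_nonneg (3 * ρ))).trans (h.2 (3 * ρ) (by positivity))
  rw [show (3 * ρ) ^ 2 / ρ ^ 2 = 9 by field_simp; norm_num] at h1
  have h2 : Real.exp (24 / 11) ≤ 9 := by
    have h3 : Real.exp (24 / 11) ^ 11 ≤ 9 ^ 11 := by
      rw [← Real.exp_nat_mul, show ((11 : ℕ) : ℝ) * (24 / 11) = (24 : ℕ) * 1 by norm_num,
        Real.exp_nat_mul]
      exact (pow_le_pow_left₀ (Real.exp_pos 1).le Real.exp_one_lt_d9.le 24).trans (by norm_num)
    exact le_of_pow_le_pow_left₀ (by norm_num) (by norm_num) h3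
  have h4 := (pow_le_pow_left₀ (Real.exp_pos _).le h2 _).trans h1
  rw [← Real.exp_nat_mul, Real.exp_le_exp] at h4
  linarith

theorem Growth.tail {s : Multiset ℂ} (h : Growth s) {ρ : ℝ} (hρ : 0 < ρ) :
    ((s.filter fun z => ¬ ‖z‖ ≤ ρ ^ 2).map fun z => ρ ^ 2 / ‖z‖).sum ≤ 11 * ρ := by
  obtain ⟨I, hI⟩ : ∃ I : ℕ, ∀ z ∈ s, ‖z‖ ≤ (2 ^ I * ρ) ^ 2 := by
    obtain ⟨I, hI⟩ := pow_unbounded_of_one_lt ((s.map fun z => ‖z‖).sum / ρ ^ 2)
      (show (1 : ℝ) < 4 by norm_num)
    refine ⟨I, fun z hz => ?_⟩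
    have h1 : ‖z‖ ≤ (s.map fun z => ‖z‖).sum := Multiset.single_le_sum (fun x hx => by
      obtain ⟨z, -, rfl⟩ := Multiset.mem_map.1 hx
      positivity) _ (Multiset.mem_map_of_mem _ hz)
    rw [div_lt_iff₀ (by positivity)] at hI
    rw [mul_pow, ← pow_mul, mul_comm I, pow_mul]
    norm_num
    linarith
  induction I generalizing ρ with
  | zero =>
    rw [Multiset.filter_eq_nil.2 fun z hz => by simpa using hI z hz]
    simp
    positivity
  | succ I ih =>
    have h1 := ih (ρ := 2 * ρ) (by positivity) fun z hz => by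
      rw [← mul_assoc, ← pow_succ]; exact hI z hz
    have h2 := h.card_le (ρ := 2 * ρ) (by positivity)
    have h3 : ((s.filter fun z => ¬ ‖z‖ ≤ ρ ^ 2).map fun z => ρ ^ 2 / ‖z‖).sum ≤
        (s.filter fun z => ‖z‖ ≤ (2 * ρ) ^ 2).card + 1 / 4 *
        ((s.filter fun z => ¬ ‖z‖ ≤ (2 * ρ) ^ 2).map fun z => (2 * ρ) ^ 2 / ‖z‖).sum := by
      rw [sum_filter_eq, sum_filter_eq, card_filter_eq, ← Multiset.sum_map_mul_left,
        ← Multiset.sum_map_add]
      refine Multiset.sum_map_le_sum_map _ _ fun w _ => ?_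
      by_cases a1 : ‖w‖ ≤ ρ ^ 2
      · have a2 : ‖w‖ ≤ (2 * ρ) ^ 2 := by nlinarith
        simp [a1, a2]
      · by_cases a2 : ‖w‖ ≤ (2 * ρ) ^ 2
        · simpa [a1, a2] using div_le_one_of_le₀ (not_le.1 a1).le (norm_nonneg _)
        · rw [if_pos a1, if_neg a2, if_pos a2]
          exact le_of_eq (by ring)
    linarith

/-- The dominant pair decides the sign. -/
theorem Growth.dom {s : Multiset ℂ} (h : Growth s) {k : ℕ} {R r ρ w : ℝ} (f : ℂ → ℝ)
    (hr : 0 < r) (hρ : 0 < ρ) (hw : 0 ≤ w) (hf : ∀ z ∈ s, -(r / ‖z‖) ^ (k + 1) ≤ f z)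
    (hin : ((s.filter fun z => ‖z‖ < R).map f).sum = 2)
    (hmid : ∀ z ∈ s, ¬ ‖z‖ < R → ‖z‖ ≤ ρ ^ 2 → -w ≤ f z)
    (hN : (s.filter fun z => ‖z‖ ≤ ρ ^ 2).card * w ≤ 1.9)
    (hfar : (r / ρ ^ 2) ^ (k + 1) * (11 * ρ) < 0.1) : 0 < (s.map f).sum := by
  have h1 := h.tail hρ
  have h2 : ((s.filter fun z => ‖z‖ < R).map f).sum ≤ (s.map f).sum +
      (s.filter fun z => ‖z‖ ≤ ρ ^ 2).card * w + (r / ρ ^ 2) ^ (k + 1) *
      ((s.filter fun z => ¬ ‖z‖ ≤ ρ ^ 2).map fun z => ρ ^ 2 / ‖z‖).sum := by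
    rw [sum_filter_eq, sum_filter_eq, card_filter_eq, ← Multiset.sum_map_mul_left,
      ← Multiset.sum_map_mul_right, ← Multiset.sum_map_add, ← Multiset.sum_map_add]
    refine Multiset.sum_map_le_sum_map _ _ fun z hz => ?_
    have hz0 := norm_pos_iff.2 (h.1 z hz)
    by_cases a1 : ‖z‖ ≤ ρ ^ 2
    · rw [if_pos a1, if_neg (not_not.2 a1)]
      split_ifs with a2
      · linarith
      · linarith [hmid z hz a2 a1]
    · rw [if_neg a1, if_pos a1]
      have a3 : (r / ‖z‖) ^ (k + 1) ≤ (r / ρ ^ 2) ^ (k + 1) * (ρ ^ 2 / ‖z‖) := by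
        calc _ = (r / ‖z‖) ^ k * (r / ‖z‖) := pow_succ _ _
          _ ≤ (r / ρ ^ 2) ^ k * (r / ‖z‖) := by
            gcongr
            exact (not_le.1 a1).le
          _ = _ := by rw [pow_succ (r / ρ ^ 2)]; field_simp
      have a4 : 0 ≤ (r / ρ ^ 2) ^ (k + 1) * (ρ ^ 2 / ‖z‖) := by positivity
      split_ifs with a2
      · linarith
      · linarith [hf z hz]
  have h4 := mul_le_mul_of_nonneg_left h1 (show 0 ≤ (r / ρ ^ 2) ^ (k + 1) by positivity)
  linarith

end Pool.Agent.P.MP_ee6314_co
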