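import Pool.Agent.P.MP_ee6314_co.Mom
import Pool.Agent.P.MP_ee6314_co.Roots

/-! The base case: two roots inside the circle at the parameter five halves. -/

namespace Pool.Agent.P.MP_ee6314_co
open Polynomial

namespace Base

/-- Value of a list of rational coefficients. -/
noncomputable def ev : List ℚ → ℂ → ℂ
  | [], _ => 0
  | a :: l, z => a + z * ev l z

/-- Majorant. -/
def maj : List ℚ → ℚ → ℚ
  | [], _ => 0
  | a :: l, R => |a| + R * maj l R

/-- Rational value. -/
def evQ : List ℚ → ℚ → ℚ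
  | [], _ => 0
  | a :: l, x => a + x * evQ l x

def addL : List ℚ → List ℚ → List ℚ
  | [], m => m
  | a :: l, [] => a :: l
  | a :: l, b :: m => (a + b) :: addL l m

def mulL : List ℚ → List ℚ → List ℚ
  | [], _ => []
  | a :: l, m => addL (m.map (a * ·)) (0 :: mulL l m)

theorem ev_addL (l m : List ℚ) (z : ℂ) : ev (addL l m) z = ev l z + ev m z := by
  induction l generalizing m with
  | nil => simp [addL, ev]
  | cons a l ih =>
    cases m with
    | nil => simp [addL, ev]
    | cons b m => simp only [addL, ev, ih]; push_cast; ring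

theorem ev_map (a : ℚ) (m : List ℚ) (z : ℂ) : ev (m.map (a * ·)) z = a * ev m z := by
  induction m with
  | nil => simp [ev]
  | cons b m ih => simp only [List.map_cons, ev, ih]; push_cast; ring

theorem ev_mulL (l m : List ℚ) (z : ℂ) : ev (mulL l m) z = ev l z * ev m z := by
  induction l with
  | nil => simp [mulL, ev]
  | cons a l ih => simp only [mulL, ev_addL, ev_map, ev, ih]; push_cast; ring

theorem norm_ev_le (l : List ℚ) {z : ℂ} {R : ℚ} (h : ‖z‖ ≤ R) : ‖ev l z‖ ≤ maj l R := by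
  induction l with
  | nil => simp [ev, maj]
  | cons a l ih =>
    simp only [ev, maj]
    refine (norm_add_le _ _).trans ?_
    rw [norm_mul, Complex.norm_ratCast]
    push_cast
    gcongr
    exact (norm_nonneg _).trans h

theorem ev_ratCast (l : List ℚ) (x : ℚ) : ev l x = (evQ l x : ℚ) := by
  induction l with
  | nil => simp [ev, evQ]
  | cons a l ih => simp only [ev, evQ, ih]; push_cast; ring

theorem ev_range (f : ℕ → ℚ) (n : ℕ) (z : ℂ) :
    ev ((List.range n).map f) z = ∑ i ∈ Finset.range n, (f i : ℂ) * z ^ i := by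
  induction n generalizing f with
  | zero => simp [ev]
  | succ n ih =>
    rw [List.range_succ_eq_map, List.map_cons, List.map_map, ev, ih, Finset.sum_range_succ',
      Finset.mul_sum]
    simp only [Function.comp, Nat.succ_eq_add_one, pow_zero, mul_one]
    rw [add_comm]
    congr 1
    exact Finset.sum_congr rfl fun i _ => by ring

/-- Catalan numbers and moments. -/
def st : ℕ → ℚ × ℚ
  | 0 => (1, 1)
  | n + 1 => (2 * (2 * n + 1) / (n + 2) * (st n).1, 5 / 2 * (st n).1 - 25 / 14 * (st n).2)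

theorem st_eq (n : ℕ) : ((st n).1 : ℝ) = catalan n ∧ ((st n).2 : ℝ) = mu (5 / 2) n := by
  induction n with
  | zero => simp [st, mu_zero]
  | succ n ih =>
    have h1 : ((n : ℝ) + 2) * catalan (n + 1) = 2 * (2 * n + 1) * catalan n := by
      exact_mod_cast catalan_rec n
    constructor
    · simp only [st]
      push_cast
      rw [ih.1]
      field_simp
      linarith
    · simp only [st]
      push_cast
      rw [ih.1, ih.2, mu_succ (by norm_num), kap]
      norm_num

def cfQ (n : ℕ) : ℚ := (st n).2 / (2 * n).factorial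

theorem cfQ_eq (n : ℕ) : (cfQ n : ℝ) = cf (5 / 2) n := by
  rw [cfQ, cf, ← (st_eq n).2]
  push_cast
  rfl

/-- Comparison polynomial as a list. -/
def qL : List ℚ → List ℚ
  | [] => [1]
  | r :: l => mulL [1, 1 / r] (qL l)

/-- Comparison polynomial. -/
noncomputable def qP : List ℚ → ℂ[X]
  | [] => 1
  | r :: l => C (1 / r : ℂ) * (X - C (-r : ℂ)) * qP l

/-- Lower bound on the circle. -/
def low (R : ℚ) : List ℚ → ℚ
  | [] => 1
  | r :: l => |1 - R / r| * low R l

theorem qP_spec {R : ℚ} (l : List ℚ) (h : ∀ r ∈ l, 0 < r) :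
    qP l ≠ 0 ∧ (ins (qP l) R).card = (l.filter (· < R)).length ∧
      (∀ z, (qP l).eval z = ev (qL l) z) ∧ ∀ z : ℂ, ‖z‖ = R → (low R l : ℝ) ≤ ‖(qP l).eval z‖ := by
  induction l with
  | nil => simp [qP, qL, ev, low, ins]
  | cons r l ih =>
    obtain ⟨h1, h2, h3, h4⟩ := ih fun s hs => h s (List.mem_cons_of_mem _ hs)
    have hr : 0 < r := h r List.mem_cons_self
    have hr' : (r : ℂ) ≠ 0 := by exact_mod_cast hr.ne'
    have hrr : (0 : ℝ) < r := by exact_mod_cast hr
    have hc : (1 / r : ℂ) ≠ 0 := one_div_ne_zero hr'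
    have h0 : qP (r :: l) ≠ 0 :=
      mul_ne_zero (mul_ne_zero (C_ne_zero.2 hc) (X_sub_C_ne_zero _)) h1
    have he : ∀ z, (qP (r :: l)).eval z = (1 + z / r) * (qP l).eval z := by
      intro z
      simp only [qP, eval_mul, eval_C, eval_sub, eval_X]
      field_simp
      ring
    refine ⟨h0, ?_, fun z => ?_, fun z hz => ?_⟩
    · unfold ins at h2 ⊢
      have h0' := h0
      unfold qP at h0' ⊢
      rw [roots_mul h0', roots_C_mul _ hc, roots_X_sub_C, Multiset.filter_add, Multiset.card_add,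
        h2, List.filter_cons, Multiset.filter_singleton]
      have : ‖(-r : ℂ)‖ < R ↔ r < R := by
        rw [norm_neg, Complex.norm_ratCast, abs_of_pos hrr]
        exact_mod_cast Iff.rfl
      by_cases hh : r < R
      · rw [if_pos (this.2 hh)]; simp [hh, add_comm]
      · rw [if_neg (fun h => hh (this.1 h))]; simp [hh]
    · rw [he, h3, qL, ev_mulL]
      simp only [ev]
      push_cast
      ring
    · rw [he, norm_mul, low]
      push_cast
      refine le_trans (mul_le_mul_of_nonneg_left (h4 z hz) ?_)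
        (mul_le_mul_of_nonneg_right ?_ (norm_nonneg _))
      swap
      · have := abs_norm_sub_norm_le (1 : ℂ) (-(z / r))
        rwa [norm_one, norm_neg, norm_div, hz, Complex.norm_ratCast, abs_of_pos hrr,
          sub_neg_eq_add] at this
      · exact abs_nonneg _

/-- Approximate zeros. -/
def rs : List ℚ := [8381565501480, 10560393585582, 27424457791762, 45273401106231,
  68879868550961, 97223363994580, 130540566345099, 168784807086573, 211964949845807,
  260079550132093, 313128906911342, 371113005203700].map (· / 10 ^ 12)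

/-- Approximate cofactor minus one. -/
def tl : List ℚ := [0, 317484466642 / 10 ^ 13, 490847506820 / 10 ^ 15, 492956283899 / 10 ^ 17,
  361956079197 / 10 ^ 19, 207353214537 / 10 ^ 21, 96581098794 / 10 ^ 23, 37637720744 / 10 ^ 25,
  12531019714 / 10 ^ 27]

def p0 : List ℚ := (List.range 22).map cfQ

def rem : List ℚ := addL p0 (mulL [-1] (mulL (qL rs) (addL [1] tl)))

theorem num1 : 2 * (441 / 25) ^ 22 * cfQ 22 ≤ 1 / 10 ^ 6 := by decide +kernel

theorem num2 : maj rem (441 / 25) ≤ 1 / 10 ^ 6 := by decide +kernel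

theorem num3 : maj tl (441 / 25) ≤ 3 / 4 := by decide +kernel

theorem num4 : 1 / 20 ≤ low (441 / 25) rs := by decide +kernel

theorem num5 : evQ p0 (-19 / 2) ≤ -1 / 1000 := by decide +kernel

theorem num6 : (rs.filter (· < 441 / 25)).length = 2 := by decide +kernel

theorem num7 : ∀ r ∈ rs, 0 < r := by decide +kernel

theorem close {D : ℕ}
    (hD : ∀ v : ℂ, ‖v‖ ≤ 5 → ‖Psi (5 / 2) v - (poly (cf (5 / 2)) D).eval (v ^ 2)‖ ≤ 1 / 10 ^ 6)
    {z : ℂ} (hz : ‖z‖ ≤ 441 / 25) : ‖(poly (cf (5 / 2)) D).eval z - ev p0 z‖ ≤ 2 / 10 ^ 6 := by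
  obtain ⟨v, rfl⟩ := IsAlgClosed.exists_pow_nat_eq z (show 0 < 2 by norm_num)
  rw [norm_pow] at hz
  have hv : ‖v‖ ≤ 5 := by nlinarith [norm_nonneg v]
  have h1 := hD v hv
  have h2 := norm_Psi_sub_le (y := 5 / 2) (by norm_num) (v := v) (D := 21) (by norm_num; linarith)
  have h3 : ev p0 (v ^ 2) = ∑ n ∈ Finset.range (21 + 1), cf (5 / 2) n * (v ^ 2) ^ n := by
    rw [p0, ev_range]
    refine Finset.sum_congr rfl fun n _ => ?_
    rw [← cfQ_eq]
    push_cast
    rfl
  have h4 : 2 * ‖v‖ ^ (2 * (21 + 1)) * cf (5 / 2) (21 + 1) ≤ 1 / 10 ^ 6 := by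
    have h5 : ((2 * (441 / 25) ^ 22 * cfQ 22 : ℚ) : ℝ) ≤ ((1 / 10 ^ 6 : ℚ) : ℝ) :=
      Rat.cast_le.2 num1
    rw [Rat.cast_mul, cfQ_eq] at h5
    push_cast at h5
    refine le_trans ?_ h5
    have := cf_nonneg (y := 5 / 2) (by norm_num) 22
    rw [pow_mul]
    gcongr
  rw [h3]
  have := norm_sub_le_norm_sub_add_norm_sub ((poly (cf (5 / 2)) D).eval (v ^ 2)) (Psi (5 / 2) v)
    (∑ n ∈ Finset.range (21 + 1), cf (5 / 2) n * (v ^ 2) ^ n)
  rw [norm_sub_rev] at h1
  linarith

end Base

open Base in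
theorem base (D : ℕ)
    (hD : ∀ v : ℂ, ‖v‖ ≤ 5 → ‖Psi (5 / 2) v - (poly (cf (5 / 2)) D).eval (v ^ 2)‖ ≤ 1 / 10 ^ 6) :
    (ins (poly (cf (5 / 2)) D) ((21 / 5) ^ 2)).card = 2 ∧
      ((poly (cf (5 / 2)) D).eval (-19 / 2)).re < 0 := by
  have hR : (((441 / 25 : ℚ) : ℝ)) = 441 / 25 := by push_cast; rfl
  obtain ⟨-, h2, h3, h4⟩ := qP_spec (R := 441 / 25) rs num7
  constructor
  · rw [show ((21 / 5 : ℝ)) ^ 2 = ((441 / 25 : ℚ) : ℝ) by rw [hR]; norm_num, ← num6, ← h2]
    refine rouche (by rw [hR]; norm_num) fun z hz => ?_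
    have a1 := close hD (z := z) (by rw [hz, hR])
    have a2 := (norm_ev_le rem hz.le).trans (Rat.cast_le.2 num2)
    have a3 := (norm_ev_le tl hz.le).trans (Rat.cast_le.2 num3)
    have a4 := (Rat.cast_le.2 num4).trans (h4 z hz)
    push_cast at a2 a3 a4
    have e : (poly (cf (5 / 2)) D).eval z - (qP rs).eval z =
        ((poly (cf (5 / 2)) D).eval z - ev p0 z) + (ev rem z + (qP rs).eval z * ev tl z) := by
      rw [rem, ev_addL, ev_mulL, ev_mulL, ev_addL, ← h3]
      simp only [ev]
      push_cast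
      ring
    rw [e]
    have b1 := norm_add_le ((poly (cf (5 / 2)) D).eval z - ev p0 z)
      (ev rem z + (qP rs).eval z * ev tl z)
    have b2 := norm_add_le (ev rem z) ((qP rs).eval z * ev tl z)
    rw [norm_mul] at b2
    have b3 := mul_le_mul_of_nonneg_left a3 (norm_nonneg ((qP rs).eval z))
    linarith
  · have a1 := close hD (z := -19 / 2) (by rw [norm_div, norm_neg]; norm_num)
    have a2 : ev p0 (-19 / 2) = ((evQ p0 (-19 / 2) : ℚ) : ℝ) := by
      have := ev_ratCast p0 (-19 / 2)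
      push_cast at this ⊢
      exact this
    have a3 : ((evQ p0 (-19 / 2) : ℚ) : ℝ) ≤ ((-1 / 1000 : ℚ) : ℝ) := Rat.cast_le.2 num5
    have a4 := (Complex.re_le_norm _).trans a1
    rw [Complex.sub_re, a2, Complex.ofReal_re] at a4
    push_cast at a3
    linarith

end Pool.Agent.P.MP_ee6314_co
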