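import Pool.Agent.P.MP_ee6314_co.Mom

/-! Zero free annuli of the entire function, by a covering with small squares. -/

namespace Pool.Agent.P.MP_ee6314_co

open Finset Real

/-- The function stays away from zero on the annulus. -/
def Ann (y a b : ℝ) : Prop := ∀ v : ℂ, a ≤ ‖v‖ → ‖v‖ ≤ b → 1 / 10 ^ 6 < ‖Psi y v‖

namespace Cells

/-- Evaluate `n` before passing it on. -/
noncomputable def force (n : ℕ) (k : ℕ → Bool) : Bool :=
  Nat.rec (k Nat.zero) (fun m _ => k (Nat.succ m)) n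

theorem force_eq (n : ℕ) (k : ℕ → Bool) : force n k = k n := by
  cases n <;> rfl

/-- Lazy conjunction. -/
noncomputable def an (a b : Bool) : Bool := @Bool.rec (fun _ => Bool) false b a

/-- Lazy disjunction. -/
noncomputable def orr (a b : Bool) : Bool := @Bool.rec (fun _ => Bool) b true a

theorem an_iff (a b : Bool) : an a b = true ↔ a = true ∧ b = true := by
  cases a <;> cases b <;> simp [an]

theorem orr_iff (a b : Bool) : orr a b = true ↔ a = true ∨ b = true := by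
  cases a <;> cases b <;> simp [orr]

/-- Catalan numbers. -/
noncomputable def cat (n : ℕ) : ℕ :=
  Nat.rec 1 (fun n c => Nat.div (Nat.mul (Nat.mul 2 (Nat.succ (Nat.mul 2 n))) c) (Nat.add n 2)) n

/-- Factorials of even numbers. -/
noncomputable def fac (n : ℕ) : ℕ :=
  Nat.rec 1 (fun n c => Nat.mul (Nat.mul (Nat.add (Nat.mul 2 n) 2) (Nat.succ (Nat.mul 2 n))) c) n

/-- Integer moments. -/
noncomputable def mm (p q n : ℕ) : ℕ :=
  Nat.rec 1 (fun n M => Nat.sub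
    (Nat.mul (Nat.mul (Nat.mul p (Nat.add p q)) (Nat.pow (Nat.mul q (Nat.add p q)) n)) (cat n))
    (Nat.mul (Nat.mul p p) M)) n

/-- Rounded coefficients. -/
noncomputable def kc (S p q n : ℕ) : ℕ :=
  Nat.div (Nat.mul (mm p q n) S)
    (Nat.mul (Nat.mul (Nat.pow (Nat.mul q (Nat.add p q)) n) (fac n)) (Nat.pow 1048576 n))

/-- Polynomial values. -/
noncomputable def sm (f : ℕ → ℕ) (x k : ℕ) : ℕ :=
  Nat.rec 0 (fun n s => Nat.add s (Nat.mul (f n) (Nat.pow x n))) k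

/-- Absolute difference. -/
noncomputable def ad (a b : ℕ) : ℕ := Nat.add (Nat.sub a b) (Nat.sub b a)

/-- The relative error allowed on a square. -/
noncomputable def gf (rn h : ℕ) : ℕ :=
  Nat.sub (Nat.succ (Nat.div (Nat.mul rn 70368744177664)
    (Nat.pow (Nat.sub 1048576 (Nat.mul 1449 h)) 2))) 65536

/-- The test at the centre of a square. -/
noncomputable def tst (K KH H B BB E E2 rn h x y : ℕ) : Bool :=
  an (Nat.ble h 256) <| force (gf rn h) fun g => an (Nat.ble g 65536) <|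
  force (Nat.mul x x) fun x2 => force (Nat.mul y y) fun y2 => force (Nat.add x2 y2) fun s =>
  an (Nat.ble s 177209344) <|
  force (Nat.mod KH (Nat.sub (Nat.add (Nat.add BB (Nat.mul s s)) (Nat.mul (Nat.mul 2 y2) B))
    (Nat.mul (Nat.mul 2 x2) B))) fun N =>
  force (Nat.div N B) fun A =>
  force (Nat.add (Nat.add (Nat.mul A x2) (Nat.mul H y2)) (Nat.mod N B)) fun P1 =>
  force (Nat.add (Nat.add (Nat.mul A y2) (Nat.mul H x2)) H) fun P2 =>
  Nat.ble (Nat.succ (Nat.pow (Nat.add (Nat.div (Nat.mul g (Nat.add (Nat.mod K (Nat.sub B x2)) E))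
    65536) E2) 2))
    (Nat.add (Nat.pow (ad P1 P2) 2) (Nat.pow (Nat.mul (ad A H) (Nat.mul (Nat.mul 2 x) y)) 2))

/-- The recursive covering of a square. -/
noncomputable def chk (t : ℕ → ℕ → ℕ → Bool) (a2 b2 j : ℕ) : ℕ → ℕ → Bool :=
  Nat.rec (fun _ _ => false) (fun j ih X Y => force (Nat.pow 2 j) fun h =>
    force (Nat.add X h) fun x => force (Nat.add Y h) fun y =>
    orr (Nat.ble (Nat.succ (Nat.add (Nat.pow (Nat.add x h) 2) (Nat.pow (Nat.add y h) 2))) a2) <|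
    orr (Nat.ble (Nat.succ b2) (Nat.add (Nat.mul X X) (Nat.mul Y Y))) <|
    orr (t h x y) <| an (ih X Y) <| an (ih x Y) <| an (ih X y) (ih x y)) j

/-- The check of one annulus. -/
noncomputable def cov (S B p rn A A' : ℕ) : Bool :=
  force (sm (kc S p 1000000000000) B 43) fun K =>
  force (sm (kc S p 1000000000000) 531628032 43) fun H =>
  an (Nat.ble (Nat.add (Nat.mul 2 H) 400000000) B) <|
  force (Nat.add (Nat.add K (Nat.mul H B)) H) fun KH => force (Nat.mul B B) fun BB =>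
  force (Nat.mul (Nat.pow 177209344 43) (Nat.add (Nat.mul 2 (kc S p 1000000000000 43)) 3)) fun E =>
  force (Nat.add (Nat.add E 2) (Nat.div S 1000000)) fun E2 =>
  force (Nat.mul A A) fun a2 => force (Nat.mul A' A') fun b2 =>
  chk (tst K KH H B BB E E2 rn) a2 b2 14 0 0

/-- The check of one step of the path. -/
noncomputable def stp (yl p yu rn a b A A' : ℕ) : Bool :=
  an (decide (0 < yl ∧ yl < yu ∧ yu ≤ 2500000000000 ∧ 1024 ≤ rn ∧ 0 < p ∧ 1024 * yu ≤ rn * p ∧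
    1024 * p ≤ rn * yl ∧ 0 < A ∧ 41 * A ≤ 40 * A' ∧ A' ≤ 13107 ∧ a ≤ b ∧ a ≤ A' ∧ A ≤ b)) <|
  force (Nat.pow 2 1220) fun S => an (Nat.ble 1 S) <| force (Nat.pow 3 815) fun B =>
  cov S B p rn A A'

theorem cat_eq (n : ℕ) : cat n = catalan n := by
  induction n with
  | zero => simp [cat]
  | succ n ih =>
    have : cat (n + 1) = 2 * (2 * n + 1) * cat n / (n + 2) := rfl
    rw [this, ih, ← catalan_rec, Nat.mul_div_cancel_left _ (by omega)]

theorem fac_eq (n : ℕ) : fac n = (2 * n).factorial := by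
  induction n with
  | zero => simp [fac]
  | succ n ih =>
    have : fac (n + 1) = (2 * n + 2) * (2 * n + 1) * fac n := rfl
    rw [this, ih, show 2 * (n + 1) = 2 * n + 1 + 1 by ring, Nat.factorial_succ, Nat.factorial_succ]
    ring

theorem mm_eq {p q : ℕ} (hp : 0 < p) (hq : 0 < q) (n : ℕ) :
    (mm p q n : ℝ) = mu (p / q) n * (q * (p + q)) ^ n := by
  have hy : (0 : ℝ) < p / q := by positivity
  induction n with
  | zero => simp [mm, mu_zero]
  | succ n ih =>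
    have e0 : mm p q (n + 1) = p * (p + q) * (q * (p + q)) ^ n * cat n - p * p * mm p q n := rfl
    have e : ((p * (p + q) * (q * (p + q)) ^ n * cat n : ℕ) : ℝ) - ((p * p * mm p q n : ℕ) : ℝ) =
        mu (p / q) (n + 1) * (q * (p + q)) ^ (n + 1) := by
      push_cast
      rw [ih, mu_succ hy, cat_eq, kap, pow_succ]
      field_simp
      ring
    have h0 : 0 ≤ mu (p / q) (n + 1) * ((q : ℝ) * (p + q)) ^ (n + 1) :=
      mul_nonneg (mu_nonneg hy _) (by positivity)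
    rw [e0, Nat.cast_sub (by rw [← e, sub_nonneg] at h0; exact_mod_cast h0), e]

theorem kc_spec (S : ℕ) {p q : ℕ} (hp : 0 < p) (hq : 0 < q) (n : ℕ) :
    (kc S p q n : ℝ) ≤ cf (p / q) n * S / 1048576 ^ n ∧
      cf (p / q) n * S / 1048576 ^ n ≤ kc S p q n + 1 := by
  have e0 : kc S p q n = mm p q n * S / ((q * (p + q)) ^ n * fac n * 1048576 ^ n) := rfl
  have e : cf (p / q) n * S / 1048576 ^ n = ((mm p q n * S : ℕ) : ℝ) /
      (((q * (p + q)) ^ n * fac n * 1048576 ^ n : ℕ) : ℝ) := by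
    rw [Nat.cast_mul, mm_eq hp hq, fac_eq, cf]
    push_cast
    field_simp
  rw [e, e0, ← Nat.floor_div_eq_div (K := ℝ)]
  exact ⟨Nat.floor_le (by positivity), (Nat.lt_floor_add_one _).le⟩

theorem sm_eq (f : ℕ → ℕ) (x k : ℕ) : sm f x k = ∑ n ∈ range k, f n * x ^ n := by
  induction k with
  | zero => rfl
  | succ k ih => rw [sum_range_succ, ← ih]; rfl

theorem ad_sq (a b : ℕ) : ((ad a b : ℕ) : ℤ) ^ 2 = ((a : ℤ) - b) ^ 2 := by
  have : ad a b = a - b + (b - a) := rfl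
  rw [this]
  rcases le_total a b with h | h
  · rw [Nat.sub_eq_zero_of_le h, zero_add, Nat.cast_sub h]; ring
  · rw [Nat.sub_eq_zero_of_le h, add_zero, Nat.cast_sub h]

theorem pow_rem {p r ρ : ℤ} (hp : |p| ≤ 2 * ρ) (hr : |r| ≤ ρ ^ 2) (hρ : 0 ≤ ρ) (B : ℤ) {w : ℂ}
    (hw : w ^ 2 = p * w - r) (n : ℕ) : ∃ α β : ℤ, ρ * |α| + |β| ≤ (3 * ρ) ^ n ∧
      (B ^ 2 - p * B + r) ∣ B ^ n - (α * B + β) ∧ w ^ n = α * w + β := by
  induction n with
  | zero => exact ⟨0, 1, by simp, by simp, by simp⟩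
  | succ n ih =>
    obtain ⟨α, β, h1, ⟨c, h2⟩, h3⟩ := ih
    refine ⟨p * α + β, -(r * α), ?_, ⟨B * c + α, by linear_combination B * h2⟩, ?_⟩
    · have a1 := abs_add_le (p * α) β
      rw [abs_mul] at a1
      rw [abs_neg, abs_mul, pow_succ]
      have a2 := mul_le_mul_of_nonneg_right hp (abs_nonneg α)
      have a3 := mul_le_mul_of_nonneg_right hr (abs_nonneg α)
      have a4 := mul_le_mul_of_nonneg_left (a1.trans (add_le_add_left a2 _)) hρ
      have a5 := mul_le_mul_of_nonneg_left h1 hρ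
      have a6 := mul_nonneg hρ (abs_nonneg β)
      nlinarith
    · push_cast
      linear_combination w * h3 + α * hw

theorem sum_rem {p r ρ : ℤ} (hp : |p| ≤ 2 * ρ) (hr : |r| ≤ ρ ^ 2) (hρ : 0 ≤ ρ) (B : ℤ) {w : ℂ}
    (hw : w ^ 2 = p * w - r) (f : ℕ → ℕ) (k : ℕ) : ∃ α β : ℤ,
      ρ * |α| + |β| ≤ ∑ n ∈ range k, f n * (3 * ρ) ^ n ∧
      (B ^ 2 - p * B + r) ∣ ∑ n ∈ range k, f n * B ^ n - (α * B + β) ∧
      ∑ n ∈ range k, f n * w ^ n = α * w + β := by
  induction k with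
  | zero => exact ⟨0, 0, by simp, by simp, by simp⟩
  | succ k ih =>
    obtain ⟨α, β, h1, ⟨c, h2⟩, h3⟩ := ih
    obtain ⟨a, b, g1, ⟨d, g2⟩, g3⟩ := pow_rem hp hr hρ B hw k
    have hf : (0 : ℤ) ≤ f k := Nat.cast_nonneg _
    refine ⟨α + f k * a, β + f k * b, ?_, ⟨c + f k * d, ?_⟩, ?_⟩
    · have a1 := abs_add_le α (f k * a)
      have a2 := abs_add_le β (f k * b)
      rw [abs_mul, abs_of_nonneg hf] at a1 a2
      have a3 := mul_le_mul_of_nonneg_left a1 hρ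
      have a4 := mul_le_mul_of_nonneg_left g1 hf
      rw [sum_range_succ]
      linarith
    · rw [sum_range_succ]
      linear_combination h2 + f k * g2
    · rw [sum_range_succ]
      push_cast
      linear_combination h3 + f k * g3

/-- The value at a complex point from one remainder. -/
theorem complex_val (f : ℕ → ℕ) (k : ℕ) {ρ B H x y : ℕ} (hρ : 1 ≤ ρ) (hs : x * x + y * y ≤ ρ)
    (hH : H = sm f (3 * ρ) k) (hB : 2 * H + 2 * ρ + 1 ≤ B) {N : ℕ}
    (hN : N = (sm f B k + H * B + H) %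
      (B * B + (x * x + y * y) * (x * x + y * y) + 2 * (y * y) * B - 2 * (x * x) * B)) :
    ‖∑ n ∈ range k, (f n : ℂ) * ((x + y * Complex.I) ^ 2) ^ n‖ ^ 2 =
      ((ad (N / B * (x * x) + H * (y * y) + N % B) (N / B * (y * y) + H * (x * x) + H) ^ 2 +
        (ad (N / B) H * (2 * x * y)) ^ 2 : ℕ) : ℝ) := by
  have hs' : (x : ℤ) * x + y * y ≤ ρ := by exact_mod_cast hs
  have hρ' : (1 : ℤ) ≤ ρ := by exact_mod_cast hρ
  have hB' : 2 * (H : ℤ) + 2 * ρ + 1 ≤ B := by exact_mod_cast hB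
  have hx : (0 : ℤ) ≤ x * x := by positivity
  have hy : (0 : ℤ) ≤ y * y := by positivity
  have hp : |2 * ((x : ℤ) * x - y * y)| ≤ 2 * ρ := abs_le.2 ⟨by linarith, by linarith⟩
  obtain ⟨α, β, h1, h2, h3⟩ := sum_rem (r := ((x : ℤ) * x + y * y) ^ 2) hp
    (by rw [abs_of_nonneg (by positivity)]; gcongr) (by linarith) (B : ℤ)
    (w := (x + y * Complex.I) ^ 2) (by
      push_cast
      linear_combination (y ^ 4 * Complex.I ^ 2 + 4 * x * y ^ 3 * Complex.I + y ^ 4 +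
        4 * x ^ 2 * y ^ 2) * Complex.I_sq) f k
  have eH : (H : ℤ) = ∑ n ∈ range k, f n * (3 * (ρ : ℤ)) ^ n := by rw [hH, sm_eq]; push_cast; rfl
  rw [← eH] at h1
  have ha : |α| ≤ H := by nlinarith [abs_nonneg α, abs_nonneg β]
  have hb : |β| ≤ H := by nlinarith [abs_nonneg α, abs_nonneg β]
  rw [abs_le] at ha hb
  have hB0 : (0 : ℤ) < B := by linarith
  have hle : 2 * (x * x) * B ≤ B * B + (x * x + y * y) * (x * x + y * y) + 2 * (y * y) * B := by
    have : 2 * (x * x) * B ≤ B * B := Nat.mul_le_mul_right _ (by omega)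
    omega
  have eN : (N : ℤ) = β + H + B * (α + H) := by
    rw [hN, Int.natCast_mod, Nat.cast_sub hle, sm_eq]
    push_cast
    obtain ⟨c, h2⟩ := h2
    have m1 : β + H + B * (α + H) < (B : ℤ) * B + (x * x + y * y) * (x * x + y * y) +
        2 * (y * y) * B - 2 * (x * x) * B := by
      have b1 : (B : ℤ) * (α + H) ≤ B * (2 * H) := by gcongr; linarith
      have b2 : (B : ℤ) * (2 * H + 2 * ρ + 1) ≤ B * B := by gcongr
      have b3 : (B : ℤ) * (x * x) ≤ B * ρ := by gcongr; linarith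
      nlinarith [mul_nonneg hB0.le hy, mul_self_nonneg ((x : ℤ) * x + y * y)]
    rw [← Int.emod_eq_of_lt (add_nonneg (by linarith) (mul_nonneg hB0.le (by linarith))) m1]
    refine (Int.emod_emod_of_dvd _ dvd_rfl).symm.trans ?_
    rw [Int.emod_emod_of_dvd _ dvd_rfl]
    exact Int.modEq_iff_dvd.2 ⟨-c, by linear_combination -h2⟩
  have e1 : ((N / B : ℕ) : ℤ) = α + H := by
    rw [Int.natCast_div, eN, Int.add_mul_ediv_left _ _ hB0.ne',
      Int.ediv_eq_zero_of_lt (by linarith) (by linarith), zero_add]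
  have e2 : ((N % B : ℕ) : ℤ) = β + H := by
    rw [Int.natCast_mod, eN, Int.add_mul_emod_self_left, Int.emod_eq_of_lt (by linarith) (by linarith)]
  have e3 : ((ad (N / B * (x * x) + H * (y * y) + N % B) (N / B * (y * y) + H * (x * x) + H) ^ 2 +
      (ad (N / B) H * (2 * x * y)) ^ 2 : ℕ) : ℤ) =
      (α * (x * x - y * y) + β) ^ 2 + (α * (2 * x * y)) ^ 2 := by
    rw [Nat.cast_add, Nat.cast_pow, Nat.cast_pow, Nat.cast_mul, mul_pow, ad_sq, ad_sq]
    simp only [Nat.cast_add, Nat.cast_mul, e1, e2, Nat.cast_ofNat]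
    ring
  rw [h3, ← Int.cast_natCast (R := ℝ), e3, Complex.sq_norm, Complex.normSq_apply]
  simp [pow_two]
  ring

/-- The value at a real point from one remainder. -/
theorem real_val (f : ℕ → ℕ) (k : ℕ) {ρ B H c : ℕ} (hs : c ≤ ρ)
    (hH : H = sm f (3 * ρ) k) (hB : 2 * H + 2 * ρ + 1 ≤ B) :
    sm f B k % (B - c) = sm f c k := by
  have h1 : sm f c k ≤ H := by
    rw [hH, sm_eq, sm_eq]
    gcongr
    omega
  rw [← Nat.mod_eq_of_lt (show sm f c k < B - c by omega), sm_eq, sm_eq]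
  have h2 : c ≡ B [MOD B - c] := (Nat.modEq_iff_dvd' (by omega)).2 dvd_rfl
  exact Nat.ModEq.sum fun n _ => (h2.symm.pow n).mul_left _

/-- Distance between the function and the rounded polynomial. -/
theorem approx (S : ℕ) {p q : ℕ} (hp : 0 < p) (hq : 0 < q) {ρ : ℕ} (hρ : ρ = 177209344) {z : ℂ}
    (hz : ‖z‖ ^ 2 ≤ ρ) :
    ‖S * Psi (p / q) (z / 1024) - ∑ n ∈ range 43, (kc S p q n : ℂ) * (z ^ 2) ^ n‖ ≤
      ((ρ ^ 43 * (2 * kc S p q 43 + 3) : ℕ) : ℝ) := by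
  have hy : (0 : ℝ) < p / q := by positivity
  have hz1 : ‖z‖ ≤ 13312 := by
    rw [hρ] at hz
    exact abs_le_of_sq_le_sq' (b := 13312) (by push_cast at hz; linarith) (by norm_num) |>.2
  have hn : ‖z / 1024‖ = ‖z‖ / 1024 := by simp
  have h1 := norm_Psi_sub_le hy (v := z / 1024) (D := 42) (by rw [hn]; push_cast; linarith)
  have hk := fun n => kc_spec S hp hq n
  have hS : (0 : ℝ) ≤ S := Nat.cast_nonneg _
  have hw : ∀ n : ℕ, ‖z‖ ^ (2 * n) ≤ (ρ : ℝ) ^ n := fun n => by rw [pow_mul]; gcongr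
  have h2 : ‖S * ∑ n ∈ range (42 + 1), (cf (p / q) n : ℂ) * ((z / 1024) ^ 2) ^ n -
      ∑ n ∈ range 43, (kc S p q n : ℂ) * (z ^ 2) ^ n‖ ≤ (ρ : ℝ) ^ 43 := by
    rw [mul_sum, ← sum_sub_distrib]
    refine (norm_sum_le _ _).trans ?_
    have : ∀ n ∈ range 43, ‖S * ((cf (p / q) n : ℂ) * ((z / 1024) ^ 2) ^ n) -
        (kc S p q n : ℂ) * (z ^ 2) ^ n‖ ≤ (ρ : ℝ) ^ n := fun n _ => by
      have e : S * ((cf (p / q) n : ℂ) * ((z / 1024) ^ 2) ^ n) - (kc S p q n : ℂ) * (z ^ 2) ^ n =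
          ((cf (p / q) n * S / 1048576 ^ n - kc S p q n : ℝ) : ℂ) * z ^ (2 * n) := by
        push_cast
        rw [div_pow, div_pow, pow_mul]
        norm_num
        ring
      rw [e, norm_mul, norm_pow, Complex.norm_real, Real.norm_eq_abs]
      have : |cf (p / q) n * S / 1048576 ^ n - kc S p q n| ≤ 1 :=
        abs_le.2 ⟨by linarith [(hk n).1], by linarith [(hk n).2]⟩
      calc _ ≤ 1 * (ρ : ℝ) ^ n := mul_le_mul this (hw n) (by positivity) zero_le_one
        _ = _ := one_mul _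
    refine (sum_le_sum this).trans ?_
    exact_mod_cast (Nat.geomSum_lt (by omega) fun k hk => mem_range.1 hk).le
  have h3 : S * (2 * ‖z / 1024‖ ^ (2 * (42 + 1)) * cf (p / q) (42 + 1)) ≤
      2 * (ρ : ℝ) ^ 43 * (kc S p q 43 + 1) := by
    have e : S * (2 * ‖z / 1024‖ ^ (2 * (42 + 1)) * cf (p / q) (42 + 1)) =
        2 * ‖z‖ ^ (2 * 43) * (cf (p / q) 43 * S / 1048576 ^ 43) := by
      rw [hn, div_pow, pow_mul (1024 : ℝ), show (1024 : ℝ) ^ 2 = 1048576 by norm_num]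
      generalize (1048576 : ℝ) ^ (42 + 1) = U
      ring
    rw [e]
    exact mul_le_mul (by linarith [hw 43]) (hk 43).2
      ((Nat.cast_nonneg _).trans (hk 43).1) (by positivity)
  have h4 := norm_add_le (S * (Psi (p / q) (z / 1024) -
    ∑ n ∈ range (42 + 1), (cf (p / q) n : ℂ) * ((z / 1024) ^ 2) ^ n))
    (S * ∑ n ∈ range (42 + 1), (cf (p / q) n : ℂ) * ((z / 1024) ^ 2) ^ n -
      ∑ n ∈ range 43, (kc S p q n : ℂ) * (z ^ 2) ^ n)
  rw [mul_sub, sub_add_sub_cancel, ← mul_sub, norm_mul, Complex.norm_natCast] at h4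
  have h5 := mul_le_mul_of_nonneg_left h1 hS
  push_cast
  linarith

theorem gf_spec {rn h : ℕ} (hh : h ≤ 256) :
    (rn / 1024 : ℝ) * exp (2 * (1449 * h / 1048576)) - 1 ≤ gf rn h / 65536 := by
  have e0 : gf rn h = rn * 70368744177664 / (1048576 - 1449 * h) ^ 2 + 1 - 65536 := rfl
  have hh' : (h : ℝ) ≤ 256 := by exact_mod_cast hh
  have h0 : (0 : ℝ) ≤ h := Nat.cast_nonneg _
  set d : ℝ := 1449 * h / 1048576 with hd
  have h1 : 0 < 1 - d := by rw [hd]; linarith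
  have h2 : exp d ≤ 1 / (1 - d) := by
    rw [le_div_iff₀ h1]
    have := mul_le_mul_of_nonneg_left (add_one_le_exp (-d)) (exp_pos d).le
    rw [← exp_add] at this
    simp at this
    linarith
  have h3 : exp (2 * d) ≤ (1 / (1 - d)) ^ 2 := by
    rw [two_mul, exp_add, sq]
    exact mul_le_mul h2 h2 (exp_pos _).le (by positivity)
  have h4 := Nat.lt_floor_add_one (((rn * 70368744177664 : ℕ) : ℝ) /
    (((1048576 - 1449 * h) ^ 2 : ℕ) : ℝ))
  rw [Nat.floor_div_eq_div] at h4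
  have e : ((rn * 70368744177664 : ℕ) : ℝ) / (((1048576 - 1449 * h) ^ 2 : ℕ) : ℝ) =
      65536 * (rn / 1024 * (1 / (1 - d)) ^ 2) := by
    rw [Nat.cast_pow, Nat.cast_sub (by omega)]
    have : (((1048576 : ℕ) : ℝ) - ((1449 * h : ℕ) : ℝ)) = 1048576 * (1 - d) := by
      rw [hd]; push_cast; ring
    rw [this]
    push_cast
    field_simp
    ring
  have h5 : ((rn * 70368744177664 / (1048576 - 1449 * h) ^ 2 : ℕ) : ℝ) + 1 ≤ gf rn h + 65536 := by
    generalize rn * 70368744177664 / (1048576 - 1449 * h) ^ 2 = a at e0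
    have : a + 1 ≤ gf rn h + 65536 := by omega
    exact_mod_cast this
  have h6 := mul_le_mul_of_nonneg_left h3
    (show (0 : ℝ) ≤ rn / 1024 from div_nonneg (Nat.cast_nonneg _) (by norm_num))
  linarith

theorem tst_sound {S B p q rn H E h x y ρ : ℕ} (hS : 0 < S) (hp : 0 < p) (hq : 0 < q)
    (hrn : 1024 ≤ rn) (hH : H = sm (kc S p q) 531628032 43) (hB : 2 * H + 400000000 ≤ B)
    (hρ : ρ = 177209344) (hE : E = ρ ^ 43 * (2 * kc S p q 43 + 3))
    (ht : tst (sm (kc S p q) B 43) (sm (kc S p q) B 43 + H * B + H) H B (B * B) E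
      (E + 2 + S / 1000000) rn h x y = true) {t : ℝ} (ht0 : 0 < t) (h1 : t ≤ rn / 1024 * (p / q))
    (h2 : (p / q : ℝ) ≤ rn / 1024 * t) {u w : ℝ} (hu : |u - x| ≤ h) (hw : |w - y| ≤ h) :
    1 / 10 ^ 6 < ‖Psi t ((u + w * Complex.I) / 1024)‖ := by
  simp only [tst, force_eq, an_iff, Nat.ble_eq, Nat.add_eq, Nat.mul_eq, Nat.pow_eq, Nat.sub_eq,
    Nat.succ_eq_add_one] at ht
  obtain ⟨a1, -, a3, a4⟩ := ht
  rw [← hρ] at a3
  rw [show 531628032 = 3 * ρ by rw [hρ]] at hH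
  have hB' : 2 * H + 2 * ρ + 1 ≤ B := le_trans (by rw [hρ]; linarith) hB
  have c1 := complex_val (kc S p q) 43 (by rw [hρ]; norm_num) a3 hH hB' rfl
  have c2 := real_val (kc S p q) 43 (c := x * x) ((Nat.le_add_right _ _).trans a3) hH hB'
  have a3' : (x : ℝ) * x + y * y ≤ ρ := by exact_mod_cast a3
  have c3 := approx S hp hq hρ (z := x + y * Complex.I) (by
    rw [Complex.sq_norm, Complex.normSq_apply]; simpa using a3')
  have c4 := approx S hp hq hρ (z := x) (by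
    rw [Complex.norm_natCast]; nlinarith [mul_self_nonneg (y : ℝ)])
  rw [← hE] at c3 c4
  have hy : (0 : ℝ) < p / q := by positivity
  have hrn' : (1 : ℝ) ≤ rn / 1024 := by
    rw [le_div_iff₀ (by norm_num), one_mul]; exact_mod_cast hrn
  have h0 : (0 : ℝ) ≤ h := Nat.cast_nonneg _
  have c5 := norm_Psi_sub_Psi (v := (u + w * Complex.I) / 1024) (v' := (x + y * Complex.I) / 1024)
    (δ := 1449 * h / 1048576) ht0 hy hrn' h1 h2 (by
      have e : (u + w * Complex.I) / 1024 - (x + y * Complex.I) / 1024 =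
          (((u - x : ℝ) : ℂ) + (w - y : ℝ) * Complex.I) / 1024 := by push_cast; ring
      rw [e, norm_div, Complex.norm_add_mul_I, Complex.norm_ofNat, div_le_iff₀ (by norm_num)]
      refine sqrt_le_iff.2 ⟨by positivity, ?_⟩
      nlinarith [sq_le_sq' (abs_le.1 hu).1 (abs_le.1 hu).2, sq_le_sq' (abs_le.1 hw).1 (abs_le.1 hw).2])
  have e1 : (((x : ℂ) + y * Complex.I) / 1024).re = x / 1024 := by simp
  have e2 : (x : ℂ) / 1024 = ((x / 1024 : ℝ) : ℂ) := by push_cast; rfl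
  have e3 : ∑ n ∈ range 43, (kc S p q n : ℂ) * ((x : ℂ) ^ 2) ^ n =
      ((sm (kc S p q) (x * x) 43 : ℝ) : ℂ) := by rw [sm_eq]; push_cast; simp only [sq]
  rw [e2, Psi_ofReal, e3, ← Complex.ofReal_natCast, ← Complex.ofReal_mul, ← Complex.ofReal_sub,
    Complex.norm_real, Real.norm_eq_abs, abs_le] at c4
  rw [e1] at c5
  have hP : 0 ≤ PsiR (p / q) (x / 1024) :=
    (by simp : (0 : ℝ) ≤ ∑ n ∈ range 0, _).trans (sum_le_PsiR hy _ 0)
  have c6 := mul_le_mul_of_nonneg_right (gf_spec (rn := rn) a1) hP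
  change (gf rn h * (sm (kc S p q) B 43 % (B - x * x) + E) / 65536 + (E + 2 + S / 1000000)) ^ 2 + 1 ≤
    _ at a4
  rw [c2] at a4
  generalize sm (kc S p q) (x * x) 43 = F at a4 c4
  generalize gf rn h = g at a4 c6
  have c7 : ((g * (F + E) / 65536 + (E + 2 + S / 1000000) : ℕ) : ℝ) <
      ‖∑ n ∈ range 43, (kc S p q n : ℂ) * ((x + y * Complex.I) ^ 2) ^ n‖ := by
    refine lt_of_pow_lt_pow_left₀ 2 (norm_nonneg _) ?_
    rw [c1]
    exact_mod_cast a4
  have d1 := Nat.lt_floor_add_one (((g * (F + E) : ℕ) : ℝ) / ((65536 : ℕ) : ℝ))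
  have d2 := Nat.lt_floor_add_one ((S : ℝ) / ((1000000 : ℕ) : ℝ))
  rw [Nat.floor_div_eq_div] at d1 d2
  have hS' : (0 : ℝ) < S := by exact_mod_cast hS
  have d3 := norm_sub_norm_le (∑ n ∈ range 43, (kc S p q n : ℂ) * ((x + y * Complex.I) ^ 2) ^ n)
    (S * Psi (p / q) ((x + y * Complex.I) / 1024))
  rw [norm_sub_rev, norm_mul, Complex.norm_natCast] at d3
  have d4 := norm_sub_norm_le (Psi (p / q) ((x + y * Complex.I) / 1024))
    (Psi t ((u + w * Complex.I) / 1024))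
  rw [norm_sub_rev] at d4
  have d5 := mul_le_mul_of_nonneg_left (d4.trans (c5.trans c6)) hS'.le
  have d6 := mul_le_mul_of_nonneg_left (show S * PsiR (p / q) (x / 1024) ≤ F + E by linarith [c4.2])
    (show (0 : ℝ) ≤ g / 65536 by positivity)
  refine lt_of_mul_lt_mul_left ?_ hS'.le
  rw [Nat.cast_add, Nat.cast_add, Nat.cast_add] at c7
  rw [Nat.cast_mul, Nat.cast_add] at d1
  simp only [Nat.cast_ofNat] at c7 d1 d2
  linarith

theorem chk_succ (t : ℕ → ℕ → ℕ → Bool) (a2 b2 j X Y : ℕ) : chk t a2 b2 (j + 1) X Y =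
    (orr (Nat.ble ((X + 2 ^ j + 2 ^ j) ^ 2 + (Y + 2 ^ j + 2 ^ j) ^ 2 + 1) a2) <|
    orr (Nat.ble (b2 + 1) (X * X + Y * Y)) <| orr (t (2 ^ j) (X + 2 ^ j) (Y + 2 ^ j)) <|
    an (chk t a2 b2 j X Y) <| an (chk t a2 b2 j (X + 2 ^ j) Y) <|
    an (chk t a2 b2 j X (Y + 2 ^ j)) (chk t a2 b2 j (X + 2 ^ j) (Y + 2 ^ j))) := by
  simp only [chk, force_eq]
  rfl

theorem chk_sound {t : ℕ → ℕ → ℕ → Bool} {P : ℝ → ℝ → Prop} {a2 b2 : ℕ}
    (ht : ∀ h x y, t h x y = true → ∀ u w : ℝ, |u - x| ≤ h → |w - y| ≤ h → P u w) (j : ℕ) :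
    ∀ X Y : ℕ, chk t a2 b2 j X Y = true → ∀ u w : ℝ, X ≤ u → u ≤ X + 2 ^ j → Y ≤ w →
      w ≤ Y + 2 ^ j → a2 ≤ u ^ 2 + w ^ 2 → u ^ 2 + w ^ 2 ≤ b2 → P u w := by
  induction j with
  | zero => intro X Y h; exact absurd h (by simp [chk])
  | succ j ih =>
    intro X Y h u w h1 h2 h3 h4 h5 h6
    have hX : (0 : ℝ) ≤ X := Nat.cast_nonneg _
    have hY : (0 : ℝ) ≤ Y := Nat.cast_nonneg _
    rw [pow_succ] at h2 h4
    rw [chk_succ] at h
    simp only [an_iff, orr_iff, Nat.ble_eq] at h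
    rcases h with h | h | h | ⟨g1, g2, g3, g4⟩
    · have : ((X : ℝ) + 2 ^ j + 2 ^ j) ^ 2 + (Y + 2 ^ j + 2 ^ j) ^ 2 + 1 ≤ a2 := by exact_mod_cast h
      have b1 : u ^ 2 ≤ ((X : ℝ) + 2 ^ j + 2 ^ j) ^ 2 := by gcongr <;> linarith
      have b2 : w ^ 2 ≤ ((Y : ℝ) + 2 ^ j + 2 ^ j) ^ 2 := by gcongr <;> linarith
      linarith
    · have : (b2 : ℝ) + 1 ≤ X * X + Y * Y := by exact_mod_cast h
      nlinarith
    · refine ht _ _ _ h u w ?_ ?_ <;> push_cast <;> exact abs_le.2 ⟨by linarith, by linarith⟩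
    · rcases le_total u (X + 2 ^ j) with k1 | k1 <;> rcases le_total w (Y + 2 ^ j) with k2 | k2
      · exact ih _ _ g1 u w h1 k1 h3 k2 h5 h6
      · exact ih _ _ g3 u w h1 k1 (by push_cast; linarith) (by push_cast; linarith) h5 h6
      · exact ih _ _ g2 u w (by push_cast; linarith) (by push_cast; linarith) h3 k2 h5 h6
      · exact ih _ _ g4 u w (by push_cast; linarith) (by push_cast; linarith)
          (by push_cast; linarith) (by push_cast; linarith) h5 h6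

theorem Psi_neg (y : ℝ) (v : ℂ) : Psi y (-v) = Psi y v := by
  simp only [Psi, neg_mul, Complex.cosh_neg]

theorem norm_Psi_abs (y : ℝ) (v : ℂ) :
    ‖Psi y v‖ = ‖Psi y ((|v.re| : ℝ) + (|v.im| : ℝ) * Complex.I)‖ := by
  rcases le_total 0 v.re with h1 | h1 <;> rcases le_total 0 v.im with h2 | h2
  · rw [abs_of_nonneg h1, abs_of_nonneg h2, Complex.re_add_im]
  · rw [abs_of_nonneg h1, abs_of_nonpos h2, ← norm_Psi_conj]
    congr 2
    apply Complex.ext <;> simp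
  · rw [abs_of_nonpos h1, abs_of_nonneg h2, ← norm_Psi_conj, ← Psi_neg]
    congr 2
    apply Complex.ext <;> simp
  · rw [abs_of_nonpos h1, abs_of_nonpos h2, ← Psi_neg]
    congr 2
    apply Complex.ext <;> simp

theorem cov_sound {S B p rn A A' : ℕ} (hS : 0 < S) (hp : 0 < p) (hrn : 1024 ≤ rn)
    (hA : A' ≤ 13107) (h : cov S B p rn A A' = true) {t : ℝ} (ht0 : 0 < t)
    (h1 : t ≤ rn / 1024 * (p / 1000000000000)) (h2 : (p / 1000000000000 : ℝ) ≤ rn / 1024 * t) :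
    Ann t (A / 1024) (A' / 1024) := by
  simp only [cov, force_eq, an_iff, Nat.ble_eq] at h
  intro v k1 k2
  have hA' : (A' : ℝ) ≤ 13107 := by exact_mod_cast hA
  have e : (1024 * |v.re|) ^ 2 + (1024 * |v.im|) ^ 2 = (1024 * ‖v‖) ^ 2 := by
    rw [mul_pow, mul_pow, mul_pow, sq_abs, sq_abs, Complex.sq_norm, Complex.normSq_apply]; ring
  have := chk_sound (P := fun u w => 1 / 10 ^ 6 < ‖Psi t ((u + w * Complex.I) / 1024)‖)
    (fun _ x y ht u w hu hw => tst_sound (q := 1000000000000) hS hp (by norm_num) hrn rfl h.1 rfl rfl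
      ht ht0 (by exact_mod_cast h1) (by exact_mod_cast h2) hu hw) 14 0 0 h.2
    (1024 * |v.re|) (1024 * |v.im|) (by simp)
    (by have := Complex.abs_re_le_norm v; norm_num; linarith) (by simp)
    (by have := Complex.abs_im_le_norm v; norm_num; linarith)
    (by rw [e, Nat.mul_eq, Nat.cast_mul, ← sq]; gcongr; linarith)
    (by rw [e, Nat.mul_eq, Nat.cast_mul, ← sq]; gcongr; linarith)
  rw [norm_Psi_abs]
  convert this using 3
  push_cast
  ring

/-- A path of radii from `(y0, r0)` to `(5 / 2, 21 / 5)`, checked on the set `s`. -/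
def Good (s : Set ℝ) (y0 r0 : ℝ) : Prop :=
  ∃ R : ℝ → ℝ, Continuous R ∧ R y0 = r0 ∧ R (5 / 2) = 21 / 5 ∧ ∀ y ∈ s,
    ∃ a b, 0 < a ∧ a ≤ R y ∧ R y ≤ b ∧ b ≤ 12.8 ∧ 1.025 * a ≤ b ∧ Ann y a b

theorem glue {y0 y1 r0 r1 a b : ℝ} (h : Good (Set.Ioc y1 (5 / 2)) y1 r1) (h01 : y0 < y1)
    (h1 : y1 ≤ 5 / 2) (ha : 0 < a) (hb : b ≤ 12.8) (hab : 1.025 * a ≤ b) (k0 : r0 ∈ Set.Icc a b)
    (k1 : r1 ∈ Set.Icc a b) (hc : ∀ y ∈ Set.Icc y0 y1, Ann y a b) :
    Good (Set.Icc y0 (5 / 2)) y0 r0 := by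
  obtain ⟨R, c1, c2, c3, c4⟩ := h
  have hd : 0 < y1 - y0 := by linarith
  refine ⟨fun y => if y ≤ y1 then r0 + (y - y0) / (y1 - y0) * (r1 - r0) else R y,
    Continuous.if_le (by fun_prop) c1 continuous_id continuous_const ?_, by simp [h01.le], ?_, ?_⟩
  · rintro y rfl
    rw [div_self hd.ne', c2]; ring
  · rcases h1.eq_or_lt with h | h
    · subst h
      simp only [le_refl, if_true]
      rw [div_self hd.ne', ← c3, c2]; ring
    · simp only [h.not_ge, if_false, c3]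
  · intro y hy
    by_cases h : y ≤ y1
    · have l0 : 0 ≤ (y - y0) / (y1 - y0) := div_nonneg (by linarith [hy.1]) hd.le
      have l1 : (y - y0) / (y1 - y0) ≤ 1 := by rw [div_le_one hd]; linarith
      simp only [h, if_true]
      refine ⟨a, b, ha, ?_, ?_, hb, hab, hc y ⟨hy.1, h⟩⟩ <;> nlinarith [k0.1, k0.2, k1.1, k1.2]
    · simp only [h, if_false]
      exact c4 y ⟨not_le.1 h, hy.2⟩

/-- A path starts at a radius of the given range. -/
def St (y a b : ℕ) : Prop := ∃ r ∈ Set.Icc (a / 1024 : ℝ) (b / 1024),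
  Good (Set.Ioc (y / 1000000000000) (5 / 2)) (y / 1000000000000) r

theorem last : St 2500000000000 4234 4340 :=
  ⟨21 / 5, ⟨by norm_num, by norm_num⟩, fun _ => 21 / 5, continuous_const, rfl, rfl,
    fun y hy => absurd (hy.1.trans_le hy.2) (by norm_num)⟩

theorem first {yl p yu rn a b A A' : ℕ} (h : stp yl p yu rn a b A A' = true) (hn : St yu A A')
    {y0 r0 : ℝ} (h0 : (yl / 1000000000000 : ℝ) ≤ y0) (h1 : y0 < yu / 1000000000000)
    (hr : r0 ∈ Set.Icc (A / 1024 : ℝ) (A' / 1024)) : Good (Set.Icc y0 (5 / 2)) y0 r0 := by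
  simp only [stp, force_eq, an_iff, Nat.ble_eq, decide_eq_true_eq] at h
  obtain ⟨⟨a1, a2, a3, a4, a5, a6, a7, a8, a9, a10, -⟩, hS, h⟩ := h
  obtain ⟨r, k1, k2⟩ := hn
  have b1 : (0 : ℝ) < yl := by exact_mod_cast a1
  have b3 : (yu : ℝ) ≤ 2500000000000 := by exact_mod_cast a3
  have b6 : (1024 : ℝ) * yu ≤ rn * p := by exact_mod_cast a6
  have b7 : (1024 : ℝ) * p ≤ rn * yl := by exact_mod_cast a7
  have b9 : (41 : ℝ) * A ≤ 40 * A' := by exact_mod_cast a9
  have b10 : (A' : ℝ) ≤ 13107 := by exact_mod_cast a10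
  refine glue k2 h1 (by linarith) (by positivity) (by linarith) (by linarith) hr k1 fun y hy => ?_
  have b11 := mul_le_mul_of_nonneg_left (h0.trans hy.1) (Nat.cast_nonneg (α := ℝ) rn)
  exact cov_sound hS a5 a4 a10 h (by linarith [hy.1]) (by linarith [hy.2]) (by linarith)

theorem step {yl p yu rn a b A A' : ℕ} (h : stp yl p yu rn a b A A' = true) (hn : St yu A A') :
    St yl a b := by
  have h' := h
  simp only [stp, an_iff, decide_eq_true_eq] at h'
  obtain ⟨⟨-, a2, -, -, -, -, -, -, a9, -, a11, a12, a13⟩, -⟩ := h'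
  have b2 : (yl : ℝ) < yu := by exact_mod_cast a2
  obtain ⟨R, c1, c2, c3, c4⟩ := first h hn (r0 := (max a A : ℕ) / 1024) le_rfl (by linarith)
    ⟨by gcongr; omega, by gcongr; omega⟩
  exact ⟨_, ⟨by gcongr; omega, by gcongr; omega⟩, R, c1, c2, c3, fun y hy => c4 y ⟨hy.1.le, hy.2⟩⟩

end Cells

end Pool.Agent.P.MP_ee6314_co
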