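import Pool.Agent.P.MP_ee6314_co.Cells

/-! The chain of zero free annuli. -/

namespace Pool.Agent.P.MP_ee6314_co

namespace Cells

theorem s82 : St 2495860218741 4234 4340 :=
  step (p := 2505609672720) (rn := 1028) (by decide +kernel) last

theorem s81 : St 2447817834561 4234 4340 :=
  step (p := 2471722305601) (rn := 1034) (by decide +kernel) s82

theorem s80 : St 2400700209972 4234 4340 :=
  step (p := 2424144547960) (rn := 1034) (by decide +kernel) s81

theorem s79 : St 2354489544437 4234 4340 :=
  step (p := 2377482606394) (rn := 1034) (by decide +kernel) s80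

theorem s78 : St 2309168380057 4234 4340 :=
  step (p := 2331718852518) (rn := 1034) (by decide +kernel) s79

theorem s77 : St 2264719594978 4234 4340 :=
  step (p := 2286835997272) (rn := 1034) (by decide +kernel) s78

theorem s76 : St 2212558897103 4199 4304 :=
  step (p := 2238487321678) (rn := 1036) (by decide +kernel) s77

theorem s75 : St 2161599556962 4199 4304 :=
  step (p := 2186930801770) (rn := 1036) (by decide +kernel) s76

theorem s74 : St 2111813905057 4199 4304 :=
  step (p := 2136561724256) (rn := 1036) (by decide +kernel) s75

theorem s73 : St 2063174909168 4199 4304 :=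
  step (p := 2087352740134) (rn := 1036) (by decide +kernel) s74

theorem s72 : St 2007896181664 4114 4217 :=
  step (p := 2035347887272) (rn := 1038) (by decide +kernel) s73

theorem s71 : St 1954098539307 4114 4217 :=
  step (p := 1980814730274) (rn := 1038) (by decide +kernel) s72

theorem s70 : St 1901742299325 4046 4148 :=
  step (p := 1927742682323) (rn := 1038) (by decide +kernel) s71

theorem s69 : St 1843677268175 3996 4096 :=
  step (p := 1872484725490) (rn := 1040) (by decide +kernel) s70

theorem s68 : St 1787385110165 3996 4096 :=
  step (p := 1815313002511) (rn := 1040) (by decide +kernel) s69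

theorem s67 : St 1732811694968 3996 4096 :=
  step (p := 1759886877701) (rn := 1040) (by decide +kernel) s68

theorem s66 : St 1667056373827 3996 4096 :=
  step (p := 1699616068628) (rn := 1044) (by decide +kernel) s67

theorem s65 : St 1603796281840 3996 4096 :=
  step (p := 1635120427969) (rn := 1044) (by decide +kernel) s66

theorem s64 : St 1531181066469 3996 4096 :=
  step (p := 1567068122714) (rn := 1048) (by decide +kernel) s65

theorem s63 : St 1450758032821 3996 4096 :=
  step (p := 1490427197780) (rn := 1052) (by decide +kernel) s64

theorem s62 : St 1364165496428 3996 4096 :=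
  step (p := 1406795668191) (rn := 1056) (by decide +kernel) s63

theorem s61 : St 1322514052869 3980 4080 :=
  step (p := 1343178334945) (rn := 1040) (by decide +kernel) s62

theorem s60 : St 1282134333859 4048 4150 :=
  step (p := 1302167682825) (rn := 1040) (by decide +kernel) s61

theorem s59 : St 1233480948663 4099 4202 :=
  step (p := 1257572373441) (rn := 1044) (by decide +kernel) s60

theorem s58 : St 1177632530908 4186 4291 :=
  step (p := 1205233293351) (rn := 1048) (by decide +kernel) s59

theorem s57 : St 1115779114135 4275 4382 :=
  step (p := 1146288699287) (rn := 1052) (by decide +kernel) s58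

theorem s56 : St 1057174457113 4366 4476 :=
  step (p := 1086081571174) (rn := 1052) (by decide +kernel) s57

theorem s55 : St 994074053338 4421 4532 :=
  step (p := 1025138867504) (rn := 1056) (by decide +kernel) s56

theorem s54 : St 934739973021 4515 4628 :=
  step (p := 963950597177) (rn := 1056) (by decide +kernel) s55

theorem s53 : St 865779847249 4611 4727 :=
  step (p := 899599372532) (rn := 1064) (by decide +kernel) s54

theorem s52 : St 789983126383 4709 4827 :=
  step (p := 827013585432) (rn := 1072) (by decide +kernel) s53

theorem s51 : St 710182910435 4709 4827 :=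
  step (p := 749021038349) (rn := 1080) (by decide +kernel) s52

theorem s50 : St 615438640904 4809 4930 :=
  step (p := 661115727533) (rn := 1100) (by decide +kernel) s51

theorem s49 : St 570034863055 4911 5034 :=
  step (p := 592301849893) (rn := 1064) (by decide +kernel) s50

theorem s48 : St 520129828264 4994 5119 :=
  step (p := 544510913963) (rn := 1072) (by decide +kernel) s49

theorem s47 : St 467588867287 5100 5228 :=
  step (p := 493160133466) (rn := 1080) (by decide +kernel) s48

theorem s46 : St 412677774687 5209 5340 :=
  step (p := 439276146883) (rn := 1090) (by decide +kernel) s47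

theorem s45 : St 351208514140 5319 5452 :=
  step (p := 380704541694) (rn := 1110) (by decide +kernel) s46

theorem s44 : St 288408504130 5432 5568 :=
  step (p := 318263290690) (rn := 1130) (by decide +kernel) s45

theorem s43 : St 224746013397 5547 5686 :=
  step (p := 254595093301) (rn := 1160) (by decide +kernel) s44

theorem s42 : St 175136203734 5665 5807 :=
  step (p := 198396480792) (rn := 1160) (by decide +kernel) s43

theorem s41 : St 127530291644 5785 5930 :=
  step (p := 149449560520) (rn := 1200) (by decide +kernel) s42

theorem s40 : St 89844936235 5908 6056 :=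
  step (p := 107041818561) (rn := 1220) (by decide +kernel) s41

theorem s39 : St 61270319887 6033 6184 :=
  step (p := 74194527988) (rn := 1240) (by decide +kernel) s40

theorem s38 : St 46140898410 6162 6317 :=
  step (p := 53170175902) (rn := 1180) (by decide +kernel) s39

theorem s37 : St 33598776870 6293 6451 :=
  step (p := 39373566644) (rn := 1200) (by decide +kernel) s38

theorem s36 : St 23670297673 6427 6588 :=
  step (p := 28200940586) (rn := 1220) (by decide +kernel) s37

theorem s35 : St 17236184760 6564 6729 :=
  step (p := 20198654015) (rn := 1200) (by decide +kernel) s36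

theorem s34 : St 11754324708 6704 6872 :=
  step (p := 14233752576) (rn := 1240) (by decide +kernel) s35

theorem s33 : St 8851840553 6789 6959 :=
  step (p := 10200363137) (rn := 1180) (by decide +kernel) s34

theorem s32 : St 6236110965 6934 7108 :=
  step (p := 7429741579) (rn := 1220) (by decide +kernel) s33

theorem s31 : St 4540997425 7082 7260 :=
  step (p := 5321481357) (rn := 1200) (by decide +kernel) s32

theorem s30 : St 3306653415 7232 7413 :=
  step (p := 3874984470) (rn := 1200) (by decide +kernel) s31

theorem s29 : St 2329533333 7324 7508 :=
  step (p := 2775420572) (rn := 1220) (by decide +kernel) s30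

theorem s28 : St 1588639923 7479 7666 :=
  step (p := 1923743656) (rn := 1240) (by decide +kernel) s29

theorem s27 : St 1156812289 7638 7829 :=
  step (p := 1355639401) (rn := 1200) (by decide +kernel) s28

theorem s26 : St 814972860 7801 7997 :=
  step (p := 970963758) (rn := 1220) (by decide +kernel) s27

theorem s25 : St 555775873 7967 8167 :=
  step (p := 673009846) (rn := 1240) (by decide +kernel) s26

theorem s24 : St 379014856 8137 8341 :=
  step (p := 458963302) (rn := 1240) (by decide +kernel) s25

theorem s23 : St 246404540 8310 8518 :=
  step (p := 305599380) (rn := 1270) (by decide +kernel) s24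

theorem s22 : St 168037128 8487 8700 :=
  step (p := 203482459) (rn := 1240) (by decide +kernel) s23

theorem s21 : St 109244033 8667 8884 :=
  step (p := 135488204) (rn := 1270) (by decide +kernel) s22

theorem s20 : St 71021559 8852 9074 :=
  step (p := 88083378) (rn := 1270) (by decide +kernel) s21

theorem s19 : St 48433600 9041 9268 :=
  step (p := 58650062) (rn := 1240) (by decide +kernel) s20

theorem s18 : St 31487576 9233 9464 :=
  step (p := 39051974) (rn := 1270) (by decide +kernel) s19

theorem s17 : St 20470654 9429 9665 :=
  step (p := 25388408) (rn := 1270) (by decide +kernel) s18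

theorem s16 : St 12701206 9629 9870 :=
  step (p := 16124577) (rn := 1300) (by decide +kernel) s17

theorem s15 : St 8257289 9834 10080 :=
  step (p := 10240973) (rn := 1270) (by decide +kernel) s16

theorem s14 : St 5368216 10044 10296 :=
  step (p := 6657846) (rn := 1270) (by decide +kernel) s15

theorem s13 : St 3489977 10258 10515 :=
  step (p := 4328389) (rn := 1270) (by decide +kernel) s14

theorem s12 : St 2268899 10432 10693 :=
  step (p := 2813966) (rn := 1270) (by decide +kernel) s13

theorem s11 : St 1475054 10654 10921 :=
  step (p := 1829412) (rn := 1270) (by decide +kernel) s12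

theorem s10 : St 958960 10881 11154 :=
  step (p := 1189335) (rn := 1270) (by decide +kernel) s11

theorem s9 : St 623438 11112 11390 :=
  step (p := 773209) (rn := 1270) (by decide +kernel) s10

theorem s8 : St 405309 11300 11583 :=
  step (p := 502678) (rn := 1270) (by decide +kernel) s9

theorem s7 : St 263500 11492 11780 :=
  step (p := 326801) (rn := 1270) (by decide +kernel) s8

theorem s6 : St 171307 11737 12031 :=
  step (p := 212460) (rn := 1270) (by decide +kernel) s7

theorem s5 : St 116825 11936 12235 :=
  step (p := 141467) (rn := 1240) (by decide +kernel) s6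

theorem s4 : St 79670 12138 12442 :=
  step (p := 96475) (rn := 1240) (by decide +kernel) s5

theorem s3 : St 54332 12292 12600 :=
  step (p := 65792) (rn := 1240) (by decide +kernel) s4

theorem s2 : St 38278 12500 12813 :=
  step (p := 45604) (rn := 1220) (by decide +kernel) s3

theorem s1 : St 26968 12658 12975 :=
  step (p := 32129) (rn := 1220) (by decide +kernel) s2

theorem s0 : stp 19000 22636 26968 1220 12658 12975 12658 12975 = true := by decide +kernel

end Cells

theorem cells (y0 r0 : ℝ) (hy : y0 ∈ Set.Icc (19 / 10 ^ 9 : ℝ) (21 / 10 ^ 9))
    (hr : r0 ∈ Set.Icc (12.48 : ℝ) 12.5) :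
    ∃ R : ℝ → ℝ, Continuous R ∧ R y0 = r0 ∧ R (5 / 2) = 21 / 5 ∧ ∀ y ∈ Set.Icc y0 (5 / 2),
      ∃ a b, 0 < a ∧ a ≤ R y ∧ R y ≤ b ∧ b ≤ 12.8 ∧ 1.025 * a ≤ b ∧ Ann y a b :=
  Cells.first Cells.s0 Cells.s1 (by push_cast; linarith [hy.1]) (by push_cast; linarith [hy.2])
    ⟨by push_cast; linarith [hr.1], by push_cast; linarith [hr.2]⟩

end Pool.Agent.P.MP_ee6314_co
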