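import Pool.Agent.P.MP_ee6314_co.Defs

/-! Forests of decreasing full binary trees: removing the largest label. -/

namespace Pool.Agent.P.MP_ee6314_co

open Finset

/-- Concatenated postorder readings of a forest. -/
def wd (F : List BT) : List ℕ := F.flatMap post

/-- A nonempty decreasing full tree. -/
def Ok (T : BT) : Prop := T ≠ .nil ∧ IsFull T ∧ IsDec T

/-- Forests of `c` trees with label set `A`. -/
def Fo (c : ℕ) (A : Finset ℕ) : Set (List BT) :=
  {F | F.length = c ∧ (∀ T ∈ F, Ok T) ∧ (wd F : Multiset ℕ) = A.val}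

@[simp] theorem wd_nil : wd [] = [] := rfl
@[simp] theorem wd_cons (T : BT) (F : List BT) : wd (T :: F) = post T ++ wd F := by simp [wd]
@[simp] theorem wd_append (F G : List BT) : wd (F ++ G) = wd F ++ wd G := by simp [wd]

theorem lt_of_rootLt : ∀ {T : BT} {a : ℕ}, IsDec T → RootLt T a → ∀ b ∈ post T, b < a
  | .nil, _, _, _, b, hb => by simp [post] at hb
  | .node l c r, a, hd, hr, b, hb => by
    simp only [post, List.mem_append, List.mem_singleton] at hb
    have hc : c < a := hr
    rcases hb with (hb | hb) | hb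
    · exact (lt_of_rootLt hd.2.2.1 hd.1 b hb).trans hc
    · exact (lt_of_rootLt hd.2.2.2 hd.2.1 b hb).trans hc
    · exact hb ▸ hc

theorem rootLt_of_forall {T : BT} {a : ℕ} (h : ∀ b ∈ post T, b < a) : RootLt T a := by
  cases T with
  | nil => trivial
  | node l c r => exact h c (by simp [post])

theorem post_ne_nil {T : BT} (h : T ≠ .nil) : post T ≠ [] := by
  cases T with
  | nil => exact absurd rfl h
  | node l c r => simp [post]

theorem wd_eq_nil {F : List BT} (h : ∀ T ∈ F, Ok T) : wd F = [] ↔ F = [] := by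
  cases F with
  | nil => simp
  | cons T F =>
    have := post_ne_nil (h T (by simp)).1
    simp [this]

theorem des_cons_max {M : ℕ} {v : List ℕ} (hv : ∀ b ∈ v, b < M) :
    des (M :: v) = (if v = [] then 0 else 1) + des v := by
  cases v with
  | nil => simp [des]
  | cons b w => simp [des, hv b (by simp)]

theorem des_split {M : ℕ} {v : List ℕ} (hv : ∀ b ∈ v, b < M) :
    ∀ {u : List ℕ}, (∀ b ∈ u, b < M) →
      des (u ++ M :: v) = des u + ((if v = [] then 0 else 1) + des v)
  | [], _ => by simp [des_cons_max hv, des]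
  | [a], hu => by
    have : ¬ M < a := not_lt.2 (hu a (by simp)).le
    simp [des, this, des_cons_max hv]
  | a :: b :: u, hu => by
    have := des_split hv (u := b :: u) fun c hc => hu c (List.mem_cons_of_mem _ hc)
    simp only [List.cons_append, des] at this ⊢
    rw [this]; ring

theorem split_unique {p : BT → Prop} : ∀ {u u' : List BT} {T T' : BT} {v v' : List BT},
    u ++ T :: v = u' ++ T' :: v' → p T → p T' → (∀ t ∈ u, ¬ p t) → (∀ t ∈ u', ¬ p t) →
      u = u' ∧ T = T' ∧ v = v'
  | [], [], _, _, _, _, h, _, _, _, _ => by simpa using h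
  | [], t :: u', _, _, _, _, h, h1, _, _, h4 => by
    simp only [List.nil_append, List.cons_append, List.cons.injEq] at h
    exact absurd (h.1 ▸ h1) (h4 t (by simp))
  | t :: u, [], _, _, _, _, h, _, h2, h3, _ => by
    simp only [List.nil_append, List.cons_append, List.cons.injEq] at h
    exact absurd (h.1 ▸ h2) (h3 t (by simp))
  | t :: u, t' :: u', _, _, _, _, h, h1, h2, h3, h4 => by
    simp only [List.cons_append, List.cons.injEq] at h
    obtain ⟨a, b, c⟩ := split_unique h.2 h1 h2 (fun s hs => h3 s (List.mem_cons_of_mem _ hs))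
      (fun s hs => h4 s (List.mem_cons_of_mem _ hs))
    exact ⟨by rw [h.1, a], b, c⟩

/-- The forest before the new tree, and the two subtrees of the new tree. -/
def cut (b : Bool) (u : List BT) : List BT × BT × BT :=
  if b then (u.dropLast.dropLast, u.dropLast.getLastD .nil, u.getLastD .nil) else (u, .nil, .nil)

theorem cut_true (w : List BT) (l r : BT) : cut true (w ++ [l, r]) = (w, l, r) := by
  have h : w ++ [l, r] = (w ++ [l]) ++ [r] := by simp
  simp only [cut, if_true]
  rw [h, List.dropLast_concat, List.dropLast_concat, List.getLastD_concat, List.getLastD_concat]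

theorem exists_two {u : List BT} {i : ℕ} (h : u.length = i + 2) :
    ∃ w l r, u = w ++ [l, r] ∧ w.length = i := by
  rcases List.eq_nil_or_concat u with rfl | ⟨u1, r, rfl⟩
  · simp at h
  rcases List.eq_nil_or_concat u1 with rfl | ⟨w, l, rfl⟩
  · simp at h
  exact ⟨w, l, r, by simp, by simpa using h⟩

/-- Insert a new tree with root `M`. -/
def glue (M : ℕ) (b : Bool) (u v : List BT) : List BT :=
  (cut b u).1 ++ BT.node (cut b u).2.1 M (cut b u).2.2 :: v

theorem cut_spec {b : Bool} {u : List BT} {i : ℕ} (h : u.length = i + if b then 2 else 0)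
    (hu : ∀ T ∈ u, Ok T) : (cut b u).1.length = i ∧ (∀ T ∈ (cut b u).1, T ∈ u) ∧
      wd u = wd (cut b u).1 ++ post (cut b u).2.1 ++ post (cut b u).2.2 ∧
      IsFull (cut b u).2.1 ∧ IsFull (cut b u).2.2 ∧ IsDec (cut b u).2.1 ∧ IsDec (cut b u).2.2 ∧
      ((cut b u).2.1 = .nil ↔ b = false) ∧ ((cut b u).2.2 = .nil ↔ b = false) ∧
      u = (cut b u).1 ++ if b then [(cut b u).2.1, (cut b u).2.2] else [] := by
  cases b with
  | false =>
    simp only [Bool.false_eq_true, if_false, add_zero] at h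
    simp [cut, h, post, IsFull, IsDec]
  | true =>
    obtain ⟨w, l, r, rfl, hw⟩ := exists_two (by simpa using h)
    rw [cut_true]
    have hl := hu l (by simp)
    have hr := hu r (by simp)
    refine ⟨hw, fun T hT => by simp [show T ∈ w from hT], by simp, hl.2.1, hr.2.1, hl.2.2, hr.2.2,
      by simpa using hl.1, by simpa using hr.1, by simp⟩

theorem mem_of_Fo {c : ℕ} {A : Finset ℕ} {F : List BT} (h : F ∈ Fo c A) {b : ℕ} :
    b ∈ wd F ↔ b ∈ A := by
  rw [← Multiset.mem_coe, h.2.2]; rfl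

variable {R : Type} [CommSemiring R] (x : R)

theorem step_sum {n : ℕ} (G : ℕ → ℕ → R) (fs : ℕ → Finset ℕ → Finset (List BT))
    (hfs : ∀ c B, B.card ≤ n → (∀ F, F ∈ fs c B ↔ F ∈ Fo c B) ∧
      ∑ F ∈ fs c B, x ^ des (wd F) = G B.card c)
    (A : Finset ℕ) (hA : A.card = n + 1) (c : ℕ) :
    ∃ s : Finset (List BT), (∀ F, F ∈ s ↔ F ∈ Fo c A) ∧ ∑ F ∈ s, x ^ des (wd F) =
      ∑ i ∈ range c, ∑ j ∈ range (n + 1), (n.choose j : R) * ((G j i + G j (i + 2)) *
        ((if c - 1 - i = 0 then 1 else x) * G (n - j) (c - 1 - i))) := by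
  classical
  have hne : A.Nonempty := card_pos.1 (by omega)
  set M := A.max' hne with hM
  set A' := A.erase M with hA'
  have hMA : M ∈ A := max'_mem _ _
  have hcard : A'.card = n := by rw [hA', card_erase_of_mem hMA]; omega
  have hlt : ∀ b ∈ A', b < M := fun b hb =>
    lt_of_le_of_ne (le_max' _ _ (mem_of_mem_erase hb)) (ne_of_mem_erase hb)
  have hval : A.val = M ::ₘ A'.val := by
    rw [hA', erase_val, Multiset.cons_erase (show M ∈ A.val from hMA)]
  let P : Finset (Σ _ : ℕ × Finset ℕ × Bool, List BT × List BT) :=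
    (range c ×ˢ A'.powerset ×ˢ univ).sigma fun p =>
      fs (p.1 + if p.2.2 then 2 else 0) p.2.1 ×ˢ fs (c - 1 - p.1) (A' \ p.2.1)
  have hP : ∀ q ∈ P, q.1.1 < c ∧ q.1.2.1 ⊆ A' ∧ q.2.1 ∈ Fo (q.1.1 + if q.1.2.2 then 2 else 0) q.1.2.1
      ∧ q.2.2 ∈ Fo (c - 1 - q.1.1) (A' \ q.1.2.1) := by
    intro q hq
    simp only [P, mem_sigma, mem_product, mem_range, mem_powerset, mem_univ, and_true] at hq
    refine ⟨hq.1.1, hq.1.2, ((hfs _ _ ?_).1 _).1 hq.2.1, ((hfs _ _ ?_).1 _).1 hq.2.2⟩
    · exact hcard ▸ card_le_card hq.1.2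
    · exact hcard ▸ card_le_card sdiff_subset
  have hwd : ∀ q ∈ P, wd (glue M q.1.2.2 q.2.1 q.2.2) = wd q.2.1 ++ M :: wd q.2.2 := by
    intro q hq
    obtain ⟨-, -, h3, -⟩ := hP q hq
    rw [(cut_spec h3.1 h3.2.1).2.2.1]
    simp [glue, post]
  refine ⟨P.image fun q => glue M q.1.2.2 q.2.1 q.2.2, fun F => ⟨fun hF => ?_, fun hF => ?_⟩, ?_⟩
  · obtain ⟨q, hq, rfl⟩ := mem_image.1 hF
    obtain ⟨h1, h2, h3, h4⟩ := hP q hq
    obtain ⟨c1, c2, c3, c4, c5, c6, c7, c8, c9, -⟩ := cut_spec h3.1 h3.2.1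
    refine ⟨?_, ?_, ?_⟩
    · simp only [glue, List.length_append, List.length_cons, c1, h4.1]; omega
    · intro T hT
      simp only [glue, List.mem_append, List.mem_cons] at hT
      rcases hT with hT | rfl | hT
      · exact h3.2.1 T (c2 T hT)
      · refine ⟨by simp, ⟨c8.trans c9.symm, c4, c5⟩, rootLt_of_forall fun b hb => ?_,
          rootLt_of_forall fun b hb => ?_, c6, c7⟩
        · exact hlt b (h2 ((mem_of_Fo h3).1 (by rw [c3]; simp [hb])))
        · exact hlt b (h2 ((mem_of_Fo h3).1 (by rw [c3]; simp [hb])))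
      · exact h4.2.1 T hT
    · rw [hwd q hq, ← Multiset.coe_add, ← Multiset.cons_coe, h3.2.2, h4.2.2, hval,
        Multiset.add_cons, sdiff_val, add_tsub_cancel_of_le (val_le_iff.2 h2)]
  · have hMF : M ∈ wd F := (mem_of_Fo hF).2 hMA
    obtain ⟨T, hT, hMT⟩ := List.mem_flatMap.1 hMF
    obtain ⟨w, v, rfl⟩ := List.append_of_mem hT
    have hOk := hF.2.1 T hT
    cases T with
    | nil => exact absurd rfl hOk.1
    | node l a r =>
      have ha : a = M := by
        have h1 : a ≤ M := le_max' _ _ ((mem_of_Fo hF).1 (by simp [post]))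
        simp only [post, List.mem_append, List.mem_singleton] at hMT
        rcases hMT with (h | h) | h
        · exact absurd (lt_of_rootLt hOk.2.2.2.2.1 hOk.2.2.1 _ h) (not_lt.2 h1)
        · exact absurd (lt_of_rootLt hOk.2.2.2.2.2 hOk.2.2.2.1 _ h) (not_lt.2 h1)
        · exact h.symm
      subst ha
      obtain ⟨b, u, hcut, hlen, hu, hw⟩ : ∃ b u, cut b u = (w, l, r) ∧
          u.length = w.length + (if b then 2 else 0) ∧ (∀ T ∈ u, Ok T) ∧
          wd u = wd w ++ post l ++ post r := by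
        by_cases hl : l = .nil
        · have hr : r = .nil := hOk.2.1.1.1 hl
          subst hl hr
          exact ⟨false, w, rfl, by simp, fun T hT => hF.2.1 T (by simp [hT]), by simp [post]⟩
        · have hr : r ≠ .nil := fun h => hl (hOk.2.1.1.2 h)
          refine ⟨true, w ++ [l, r], cut_true _ _ _, by simp, fun T hT => ?_, by simp⟩
          simp only [List.mem_append, List.mem_cons, List.not_mem_nil, or_false] at hT
          rcases hT with hT | rfl | rfl
          · exact hF.2.1 T (by simp [hT])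
          · exact ⟨hl, hOk.2.1.2.1, hOk.2.2.2.2.1⟩
          · exact ⟨hr, hOk.2.1.2.2, hOk.2.2.2.2.2⟩
      have hsum : (wd u : Multiset ℕ) + (wd v : Multiset ℕ) = A'.val := by
        have h := hF.2.2
        rw [hval, show wd (w ++ BT.node l M r :: v) = wd u ++ M :: wd v by simp [hw, post],
          ← Multiset.coe_add, ← Multiset.cons_coe, Multiset.add_cons] at h
        exact (Multiset.cons_inj_right _).1 h
      have hle : (wd u : Multiset ℕ) ≤ A'.val := hsum ▸ Multiset.le_add_right _ _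
      let B : Finset ℕ := ⟨wd u, Multiset.nodup_of_le hle A'.nodup⟩
      have hB : B ⊆ A' := val_le_iff.1 hle
      have hc : c = w.length + 1 + v.length := by
        rw [← hF.1]; simp; ring
      refine mem_image.2 ⟨⟨(w.length, B, b), (u, v)⟩, ?_, by simp [glue, hcut]⟩
      simp only [P, mem_sigma, mem_product, mem_range, mem_powerset, mem_univ, and_true]
      refine ⟨⟨by omega, hB⟩, ((hfs _ _ (hcard ▸ card_le_card hB)).1 _).2 ⟨hlen, hu, rfl⟩,
        ((hfs _ _ (hcard ▸ card_le_card sdiff_subset)).1 _).2 ⟨by omega,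
          fun T hT => hF.2.1 T (by simp [hT]), ?_⟩⟩
      rw [sdiff_val, ← hsum]
      exact (add_tsub_cancel_left _ _).symm
  · rw [sum_image]
    · have e1 : ∀ q ∈ P, x ^ des (wd (glue M q.1.2.2 q.2.1 q.2.2)) =
          x ^ des (wd q.2.1) * ((if c - 1 - q.1.1 = 0 then 1 else x) * x ^ des (wd q.2.2)) := by
        intro q hq
        obtain ⟨h1, h2, h3, h4⟩ := hP q hq
        rw [hwd q hq, des_split (fun b hb => hlt b (sdiff_subset ((mem_of_Fo h4).1 hb)))
          (fun b hb => hlt b (h2 ((mem_of_Fo h3).1 hb))), pow_add, pow_add]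
        have e : wd q.2.2 = [] ↔ c - 1 - q.1.1 = 0 := by
          rw [wd_eq_nil h4.2.1, ← List.length_eq_zero_iff, h4.1]
        by_cases h0 : c - 1 - q.1.1 = 0
        · simp [h0, e.2 h0]
        · rw [if_neg h0, if_neg (mt e.1 h0), pow_one]
      rw [sum_congr rfl e1, sum_sigma, sum_product]
      refine sum_congr rfl fun i _ => ?_
      rw [sum_product]
      have e2 : ∀ B ∈ A'.powerset, ∑ b : Bool, ∑ q ∈ fs (i + if b then 2 else 0) B ×ˢ
          fs (c - 1 - i) (A' \ B), x ^ des (wd q.1) * ((if c - 1 - i = 0 then 1 else x) *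
            x ^ des (wd q.2)) = (G B.card i + G B.card (i + 2)) *
              ((if c - 1 - i = 0 then 1 else x) * G (n - B.card) (c - 1 - i)) := by
        intro B hB
        have hB' := mem_powerset.1 hB
        have k1 : B.card ≤ n := hcard ▸ card_le_card hB'
        have k2 : (A' \ B).card = n - B.card := by rw [card_sdiff_of_subset hB', hcard]
        simp only [sum_product, ← mul_sum, ← sum_mul, Fintype.sum_bool, if_true,
          Bool.false_eq_true, if_false, add_zero, (hfs _ _ k1).2,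
          (hfs _ (A' \ B) (by omega)).2, k2]
        ring
      rw [sum_congr rfl e2, sum_powerset_apply_card (fun j => (G j i + G j (i + 2)) *
        ((if c - 1 - i = 0 then 1 else x) * G (n - j) (c - 1 - i))), hcard]
      simp only [nsmul_eq_mul]
    · rintro ⟨⟨i, B, b⟩, u, v⟩ hq ⟨⟨i', B', b'⟩, u', v'⟩ hq' h
      obtain ⟨-, h2, h3, -⟩ := hP _ hq
      obtain ⟨-, h2', h3', -⟩ := hP _ hq'
      obtain ⟨c1, c2, -, -, -, -, -, c8, -, c10⟩ := cut_spec h3.1 h3.2.1
      obtain ⟨d1, d2, -, -, -, -, -, d8, -, d10⟩ := cut_spec h3'.1 h3'.2.1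
      simp only at h c1 c2 c8 c10 d1 d2 d8 d10 h2 h3 h2' h3'
      have no : ∀ {u : List BT} {k B}, u ∈ Fo k B → B ⊆ A' → ∀ t ∈ u, ¬ M ∈ post t :=
        fun hu hB t ht hm => lt_irrefl _ (hlt M (hB ((mem_of_Fo hu).1
          (List.mem_flatMap.2 ⟨t, ht, hm⟩))))
      obtain ⟨e1, e2, e3⟩ := split_unique (p := fun t => M ∈ post t) h (by simp [post])
        (by simp [post]) (fun t ht => no h3 h2 t (c2 t ht)) (fun t ht => no h3' h2' t (d2 t ht))
      simp only [BT.node.injEq, true_and] at e2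
      have eb : b = b' := by
        rw [e2.1, d8] at c8
        revert c8
        cases b <;> cases b' <;> simp
      subst eb
      have eu : u = u' := by rw [c10, d10, e1, e2.1, e2.2]
      subst eu e3
      have ei : i = i' := by rw [← c1, ← d1]
      have eB : B = B' := by
        apply val_injective
        exact h3.2.2.symm.trans h3'.2.2
      subst ei eB
      rfl

/-- Descent generating function of the forests of `c` trees on `n` labels. -/
noncomputable def gf (n c : ℕ) : R := ∑ᶠ F ∈ Fo c (range n), x ^ des (wd F)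

theorem sum_eq_finsum {c : ℕ} {A : Finset ℕ} {s : Finset (List BT)} (h : ∀ F, F ∈ s ↔ F ∈ Fo c A) :
    ∑ᶠ F ∈ Fo c A, x ^ des (wd F) = ∑ F ∈ s, x ^ des (wd F) := by
  rw [← finsum_mem_coe_finset]
  congr 1
  ext F
  rw [show Fo c A = (s : Set (List BT)) from Set.ext fun F => (h F).symm]

theorem Fo_empty (c : ℕ) (F : List BT) : F ∈ Fo c ∅ ↔ c = 0 ∧ F = [] := by
  constructor
  · intro h
    have : F = [] := (wd_eq_nil h.2.1).1 (by simpa using h.2.2)
    exact ⟨by rw [← h.1, this]; rfl, this⟩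
  · rintro ⟨rfl, rfl⟩
    exact ⟨rfl, by simp, rfl⟩

theorem exists_fs (n : ℕ) : ∃ fs : ℕ → Finset ℕ → Finset (List BT), ∀ c B, B.card ≤ n →
    (∀ F, F ∈ fs c B ↔ F ∈ Fo c B) ∧ ∑ F ∈ fs c B, x ^ des (wd F) = gf x B.card c := by
  induction n with
  | zero =>
    refine ⟨fun c _ => if c = 0 then {[]} else ∅, fun c B hB => ?_⟩
    obtain rfl : B = ∅ := card_eq_zero.1 (by omega)
    have h : ∀ F, F ∈ (if c = 0 then {[]} else ∅ : Finset (List BT)) ↔ F ∈ Fo c ∅ := by
      intro F
      rw [Fo_empty]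
      split_ifs with hc <;> simp [hc]
    exact ⟨h, (sum_eq_finsum x h).symm⟩
  | succ n ih =>
    obtain ⟨fs, hfs⟩ := ih
    have key : ∀ c (B : Finset ℕ), ∃ s : Finset (List BT), B.card ≤ n + 1 →
        (∀ F, F ∈ s ↔ F ∈ Fo c B) ∧ ∑ F ∈ s, x ^ des (wd F) = gf x B.card c := by
      intro c B
      by_cases hB : B.card = n + 1
      · obtain ⟨s, h1, h2⟩ := step_sum x (gf x) fs hfs B hB c
        obtain ⟨s', h1', h2'⟩ := step_sum x (gf x) fs hfs (range (n + 1)) (card_range _) c
        refine ⟨s, fun _ => ⟨h1, ?_⟩⟩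
        rw [hB, h2, ← h2', gf, sum_eq_finsum x h1']
      · exact ⟨fs c B, fun h => hfs c B (by omega)⟩
    choose fs' h using key
    exact ⟨fs', h⟩

theorem gf_zero (c : ℕ) : gf x 0 c = if c = 0 then 1 else 0 := by
  have h : ∀ F, F ∈ (if c = 0 then {[]} else ∅ : Finset (List BT)) ↔ F ∈ Fo c ∅ := by
    intro F
    rw [Fo_empty]
    split_ifs with hc <;> simp [hc]
  rw [gf, range_zero, sum_eq_finsum x h]
  split_ifs <;> simp [des]

theorem gf_succ (n c : ℕ) : gf x (n + 1) c =
    ∑ i ∈ range c, ∑ j ∈ range (n + 1), (n.choose j : R) * ((gf x j i + gf x j (i + 2)) *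
      ((if c - 1 - i = 0 then 1 else x) * gf x (n - j) (c - 1 - i))) := by
  obtain ⟨fs, hfs⟩ := exists_fs x n
  obtain ⟨s', h1', h2'⟩ := step_sum x (gf x) fs hfs (range (n + 1)) (card_range _) c
  rw [← h2', gf, sum_eq_finsum x h1']

/-- The trees with `m ≥ 1` vertices form a finite set with generating function `gf`. -/
theorem trees_sum {m : ℕ} (hm : 1 ≤ m) : ∃ s : Finset BT, (s : Set BT) = Trees m ∧
    ∀ (R : Type) [CommSemiring R] (x : R), ∑ T ∈ s, x ^ des (post T) = gf x m 1 := by
  classical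
  let A : Finset ℕ := ⟨List.range' 1 m, List.nodup_range'⟩
  have hA : A.card = m := by simp [A, card]
  have hT : ∀ T, T ∈ Trees m ↔ [T] ∈ Fo 1 A := by
    intro T
    simp only [Trees, Fo, Set.mem_ofPred_eq, List.length_singleton, List.mem_singleton, forall_eq,
      Ok, wd_cons, wd_nil, List.append_nil, A, Multiset.coe_eq_coe, true_and]
    refine ⟨fun h => ⟨⟨?_, h.1, h.2.1⟩, h.2.2⟩, fun h => ⟨h.1.2.1, h.1.2.2, h.2⟩⟩
    rintro rfl
    have := h.2.2.length_eq
    simp [post] at this
    omega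
  obtain ⟨fs, hfs⟩ := exists_fs (1 : ℕ) m
  have h1 := (hfs 1 A hA.le).1
  have hinj : Set.InjOn (fun T : BT => [T]) ((fun T : BT => [T]) ⁻¹' (fs 1 A : Set (List BT))) := by
    intro _ _ _ _ h
    simpa using h
  have hmem : ∀ T, T ∈ (fs 1 A).preimage (fun T : BT => [T]) hinj ↔ [T] ∈ fs 1 A :=
    fun T => mem_preimage
  refine ⟨(fs 1 A).preimage (fun T => [T]) hinj, ?_, ?_⟩
  · ext T
    rw [mem_coe, hmem, hT, h1]
  · intro R _ x
    obtain ⟨fs', hfs'⟩ := exists_fs x m
    obtain ⟨h2, h3⟩ := hfs' 1 A hA.le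
    rw [hA] at h3
    rw [← h3]
    refine sum_bij (fun T _ => [T]) (fun T hT => ?_) (fun _ _ _ _ h => by simpa using h)
      (fun F hF => ?_) (fun T _ => by simp)
    · rw [h2, ← h1]
      exact (hmem T).1 hT
    · have hF' := (h2 F).1 hF
      obtain ⟨T, rfl⟩ := List.length_eq_one_iff.1 hF'.1
      exact ⟨T, (hmem T).2 ((h1 _).2 hF'), rfl⟩

end Pool.Agent.P.MP_ee6314_co
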