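import Mathlib

/-! Decreasing full binary plane trees and their postorder descent polynomials. -/

namespace Pool.Agent.P.MP_ee6314_co

/-- Binary plane trees with labelled vertices: empty, or a left subtree, a root label and a right
subtree. -/
inductive BT : Type
  | nil : BT
  | node (l : BT) (a : ℕ) (r : BT) : BT

/-- The postorder reading. -/
def post : BT → List ℕ
  | .nil => []
  | .node l a r => post l ++ post r ++ [a]

/-- Every vertex has no child or two children. -/
def IsFull : BT → Prop
  | .nil => True
  | .node l _ r => (l = .nil ↔ r = .nil) ∧ IsFull l ∧ IsFull r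

/-- The tree is empty or its root label is smaller than `a`. -/
def RootLt : BT → ℕ → Prop
  | .nil, _ => True
  | .node _ b _, a => b < a

/-- Every child has a smaller label than its parent. -/
def IsDec : BT → Prop
  | .nil => True
  | .node l a r => RootLt l a ∧ RootLt r a ∧ IsDec l ∧ IsDec r

/-- The number of descents of a word. -/
def des : List ℕ → ℕ
  | a :: b :: w => (if b < a then 1 else 0) + des (b :: w)
  | _ => 0

/-- Standardized decreasing full binary plane trees with `m` vertices. -/
def Trees (m : ℕ) : Set BT := {T | IsFull T ∧ IsDec T ∧ (post T).Perm (List.range' 1 m)}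

/-- The polynomial `Q_n`. -/
noncomputable def Q (n : ℕ) : Polynomial ℤ :=
  ∑ᶠ T ∈ Trees (n - 1), Polynomial.X ^ (des (post T) + 1)

end Pool.Agent.P.MP_ee6314_co
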