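import Pool.Agent.P.MP_ee6314_co.Poly

/-! The moments as integrals against an explicit density. -/

namespace Pool.Agent.P.MP_ee6314_co

open Finset Real intervalIntegral MeasureTheory

/-- The shift in the denominator of the density. -/
noncomputable def kap (y : ℝ) : ℝ := y ^ 2 / (1 + y)

/-- The density on `[0, 2]`. -/
noncomputable def dens (y s : ℝ) : ℝ := y * √(4 - s ^ 2) / (π * (s ^ 2 + kap y))

/-- Rescaled moments. -/
noncomputable def mu (y : ℝ) (n : ℕ) : ℝ := mo (-y) n / (1 + y) ^ n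

variable {y : ℝ}

theorem kap_pos (hy : 0 < y) : 0 < kap y := by unfold kap; positivity

theorem dens_nonneg (hy : 0 < y) (s : ℝ) : 0 ≤ dens y s := by
  have := kap_pos hy
  unfold dens; positivity

theorem continuous_dens (hy : 0 < y) : Continuous (dens y) := by
  have := kap_pos hy
  unfold dens
  refine Continuous.div (by fun_prop) (by fun_prop) fun s => by positivity

theorem mu_zero (y : ℝ) : mu y 0 = 1 := by simp [mu, mo_zero]

theorem mu_succ (hy : 0 < y) (n : ℕ) : mu y (n + 1) = y * catalan n - kap y * mu y n := by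
  have : (1 + y) ≠ 0 := by positivity
  rw [mu, mu, mo_succ, kap, sub_neg_eq_add]
  field_simp
  ring

theorem catalan_rec (n : ℕ) : (n + 2) * catalan (n + 1) = 2 * (2 * n + 1) * catalan n := by
  have h1 := succ_mul_catalan_eq_centralBinom n
  have h2 := succ_mul_catalan_eq_centralBinom (n + 1)
  have h3 := Nat.succ_mul_centralBinom_succ n
  apply Nat.eq_of_mul_eq_mul_left (Nat.succ_pos n)
  rw [show n + 2 = n + 1 + 1 from rfl, h2, Nat.succ_eq_add_one, h3, ← h1]
  ring

theorem hasDerivAt_root {s : ℝ} (hs : s ∈ Set.Ioo (0 : ℝ) 2) :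
    HasDerivAt (fun s : ℝ => √(4 - s ^ 2)) (-s / √(4 - s ^ 2)) s := by
  have h : 0 < 4 - s ^ 2 := by nlinarith [hs.1, hs.2]
  have h1 : HasDerivAt (fun s : ℝ => 4 - s ^ 2) (-(2 * s)) s := by
    simpa using (hasDerivAt_pow 2 s).const_sub 4
  convert h1.sqrt h.ne' using 1
  have := sqrt_pos.2 h
  field_simp

theorem hasDerivAt_asin {s : ℝ} (hs : s ∈ Set.Ioo (0 : ℝ) 2) :
    HasDerivAt (fun s : ℝ => arcsin (s / 2)) (1 / √(4 - s ^ 2)) s := by
  have h : 0 < 4 - s ^ 2 := by nlinarith [hs.1, hs.2]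
  have h1 := (hasDerivAt_arcsin (x := s / 2) (by linarith [hs.1]) (by linarith [hs.2])).comp s
    ((hasDerivAt_id s).div_const 2)
  refine HasDerivAt.congr_deriv h1 ?_
  have e : √(1 - (s / 2) ^ 2) = √(4 - s ^ 2) / 2 := by
    rw [show 1 - (s / 2) ^ 2 = (4 - s ^ 2) / 2 ^ 2 by ring, sqrt_div h.le, sqrt_sq (by norm_num)]
  have := sqrt_pos.2 h
  rw [e]
  field_simp

theorem semicircle (n : ℕ) : ∫ s in (0 : ℝ)..2, s ^ (2 * n) * √(4 - s ^ 2) = π * catalan n := by
  induction n with
  | zero =>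
    rw [integral_eq_sub_of_hasDerivAt_of_le
      (f := fun s => s * √(4 - s ^ 2) / 2 + 2 * arcsin (s / 2)) (by norm_num)
      (Continuous.continuousOn (by fun_prop)) _ (Continuous.intervalIntegrable (by fun_prop) _ _)]
    · norm_num
      ring
    · intro s hs
      have h : 0 < 4 - s ^ 2 := by nlinarith [hs.1, hs.2]
      refine HasDerivAt.congr_deriv ((((hasDerivAt_id s).mul (hasDerivAt_root hs)).div_const 2).add
        ((hasDerivAt_asin hs).const_mul 2)) ?_
      have h1 := sqrt_pos.2 h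
      have h2 := sq_sqrt h.le
      simp only [id]
      field_simp
      linear_combination -h2
  | succ n ih =>
    have h0 : ∫ s in (0 : ℝ)..2, (4 * (2 * n + 1) * (s ^ (2 * n) * √(4 - s ^ 2)) -
        (2 * n + 4) * (s ^ (2 * (n + 1)) * √(4 - s ^ 2))) = 0 := by
      rw [integral_eq_sub_of_hasDerivAt_of_le
        (f := fun s => s ^ (2 * n + 1) * √(4 - s ^ 2) ^ 3) (by norm_num)
        (Continuous.continuousOn (by fun_prop)) _ (Continuous.intervalIntegrable (by fun_prop) _ _)]
      · norm_num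
      · intro s hs
        have h : 0 < 4 - s ^ 2 := by nlinarith [hs.1, hs.2]
        refine HasDerivAt.congr_deriv
          ((hasDerivAt_pow (2 * n + 1) s).mul ((hasDerivAt_root hs).pow 3)) ?_
        have h1 := sqrt_pos.2 h
        have h2 := sq_sqrt h.le
        simp only [Nat.add_sub_cancel]
        set w := √(4 - s ^ 2)
        push_cast
        field_simp
        linear_combination ((2 * n + 1) * s ^ (2 * n)) * h2
    rw [integral_sub (Continuous.intervalIntegrable (by fun_prop) _ _)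
      (Continuous.intervalIntegrable (by fun_prop) _ _), intervalIntegral.integral_const_mul,
      intervalIntegral.integral_const_mul, ih] at h0
    have h1 : ((n : ℝ) + 2) * catalan (n + 1) = 2 * (2 * n + 1) * catalan n := by
      exact_mod_cast catalan_rec n
    apply mul_left_cancel₀ (show (2 * n + 4 : ℝ) ≠ 0 by positivity)
    linear_combination -h0 - 2 * π * h1

theorem mass (hy : 0 < y) : ∫ s in (0 : ℝ)..2, dens y s = 1 := by
  set g := (y + 2) / y with hg
  have hg1 : 1 < g := by rw [hg, lt_div_iff₀ hy]; linarith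
  have hN : ∀ s : ℝ, 0 < 4 + (g ^ 2 - 1) * s ^ 2 := fun s => by
    have : 0 ≤ g ^ 2 - 1 := by nlinarith
    positivity
  rw [integral_eq_sub_of_hasDerivAt_of_le
    (f := fun s => y / π * (g * arcsin (g * s / √(4 + (g ^ 2 - 1) * s ^ 2)) - arcsin (s / 2)))
    (by norm_num) _ _ ((continuous_dens hy).intervalIntegrable _ _)]
  · have e : √(4 + (g ^ 2 - 1) * 2 ^ 2) = g * 2 := by
      rw [show 4 + (g ^ 2 - 1) * 2 ^ 2 = (g * 2) ^ 2 by ring, sqrt_sq (by linarith)]
    rw [e, div_self (by linarith), div_self (by norm_num), arcsin_one]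
    simp only [mul_zero, zero_div, arcsin_zero, sub_zero]
    rw [hg]
    field_simp
    ring
  · refine Continuous.continuousOn (continuous_const.mul (Continuous.sub (continuous_const.mul
      (continuous_arcsin.comp (Continuous.div (by fun_prop) (by fun_prop) fun s => ?_)))
      (by fun_prop)))
    exact (sqrt_pos.2 (hN s)).ne'
  · intro s hs
    have h : 0 < 4 - s ^ 2 := by nlinarith [hs.1, hs.2]
    have h1 := sqrt_pos.2 h
    have h2 := sq_sqrt h.le
    have h3 := sqrt_pos.2 (hN s)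
    have h4 := sq_sqrt (hN s).le
    have d1 : HasDerivAt (fun s : ℝ => 4 + (g ^ 2 - 1) * s ^ 2) ((g ^ 2 - 1) * (2 * s)) s := by
      simpa using ((hasDerivAt_pow 2 s).const_mul (g ^ 2 - 1)).const_add 4
    have d2 := ((hasDerivAt_id s).const_mul g).div (d1.sqrt (hN s).ne') h3.ne'
    set w := √(4 - s ^ 2) with hw
    set r := √(4 + (g ^ 2 - 1) * s ^ 2) with hr
    have e1 : 1 - (g * s / r) ^ 2 = (w / r) ^ 2 := by
      field_simp
      linear_combination h4 - h2
    have e2 : (g * s / r) ^ 2 < 1 := by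
      have : 0 < (w / r) ^ 2 := by positivity
      linarith
    have d3 := (hasDerivAt_arcsin (x := g * s / r) (fun h => by rw [h] at e2; norm_num at e2)
      (fun h => by rw [h] at e2; norm_num at e2)).comp s d2
    refine HasDerivAt.congr_deriv
      (((d3.const_mul g).sub (hasDerivAt_asin hs)).const_mul (y / π)) ?_
    rw [e1, sqrt_sq (by positivity), ← hw, dens, ← hw]
    have e3 : s ^ 2 + kap y = r ^ 2 / (g ^ 2 - 1) := by
      have : g ^ 2 - 1 = 4 * (1 + y) / y ^ 2 := by rw [hg]; field_simp; ring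
      rw [h4, kap, this]
      field_simp
      ring
    have e4 : g ^ 2 - 1 ≠ 0 := by nlinarith
    rw [e3]
    simp only [id]
    field_simp
    linear_combination (g ^ 2 - 1) * h4 - (g ^ 2 - 1) * h2

theorem mu_eq (hy : 0 < y) (n : ℕ) : mu y n = ∫ s in (0 : ℝ)..2, s ^ (2 * n) * dens y s := by
  have hc := continuous_dens hy
  induction n with
  | zero => simp [mu_zero, mass hy]
  | succ n ih =>
    have h := semicircle n
    have e : ∀ s, s ^ (2 * (n + 1)) * dens y s = y / π * (s ^ (2 * n) * √(4 - s ^ 2)) -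
        kap y * (s ^ (2 * n) * dens y s) := by
      intro s
      have := kap_pos hy
      unfold dens
      field_simp
      ring
    simp only [e]
    rw [integral_sub (Continuous.intervalIntegrable (by fun_prop) _ _)
      (Continuous.intervalIntegrable (by fun_prop) _ _), intervalIntegral.integral_const_mul,
      intervalIntegral.integral_const_mul, h, ← ih, mu_succ hy]
    field_simp

theorem mu_nonneg (hy : 0 < y) (n : ℕ) : 0 ≤ mu y n := by
  rw [mu_eq hy]
  exact integral_nonneg (by norm_num) fun s _ =>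
    mul_nonneg (by rw [pow_mul]; positivity) (dens_nonneg hy s)

theorem mu_le (hy : 0 < y) (n : ℕ) : mu y n ≤ 4 ^ n := by
  have hc := continuous_dens hy
  rw [mu_eq hy, ← mul_one ((4 : ℝ) ^ n), ← mass hy, ← intervalIntegral.integral_const_mul]
  refine integral_mono_on (by norm_num) (Continuous.intervalIntegrable (by fun_prop) _ _)
    (Continuous.intervalIntegrable (by fun_prop) _ _) fun s hs => ?_
  refine mul_le_mul_of_nonneg_right ?_ (dens_nonneg hy s)
  rw [pow_mul]
  exact pow_le_pow_left₀ (by positivity) (by nlinarith [hs.1, hs.2]) _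

/-- The entire function. -/
noncomputable def Psi (y : ℝ) (v : ℂ) : ℂ := ∫ s in (0 : ℝ)..2, Complex.cosh (v * s) * dens y s

/-- The entire function on the real axis. -/
noncomputable def PsiR (y x : ℝ) : ℝ := ∫ s in (0 : ℝ)..2, cosh (x * s) * dens y s

/-- Taylor coefficients in `v ^ 2`. -/
noncomputable def cf (y : ℝ) (n : ℕ) : ℝ := mu y n / (2 * n).factorial

theorem cf_nonneg (hy : 0 < y) (n : ℕ) : 0 ≤ cf y n := div_nonneg (mu_nonneg hy n) (by positivity)

theorem Psi_ofReal (y x : ℝ) : Psi y x = PsiR y x := by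
  rw [Psi, PsiR, ← intervalIntegral.integral_ofReal]
  push_cast
  rfl

theorem norm_Psi_conj (y : ℝ) (v : ℂ) : ‖Psi y (starRingEnd ℂ v)‖ = ‖Psi y v‖ := by
  rw [← Complex.norm_conj (Psi y v), Psi, Psi, ← intervalIntegral_conj]
  simp [← Complex.cosh_conj]

theorem norm_cosh_sub_le {w : ℂ} {D : ℕ} (h : 2 * ‖w‖ ≤ 2 * D + 3) :
    ‖Complex.cosh w - ∑ n ∈ range (D + 1), w ^ (2 * n) / (2 * n).factorial‖ ≤
      ‖w‖ ^ (2 * (D + 1)) / (2 * (D + 1)).factorial * 2 := by
  have h0 : ‖w‖ / (2 * (D + 1)).succ ≤ 1 / 2 := by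
    rw [div_le_iff₀ (by positivity)]
    push_cast
    linarith
  have h1 := Complex.exp_bound' h0
  have h2 := Complex.exp_bound' (x := -w) (n := 2 * (D + 1)) (by rwa [norm_neg])
  rw [norm_neg] at h2
  have e : Complex.cosh w - ∑ n ∈ range (D + 1), w ^ (2 * n) / (2 * n).factorial =
      ((Complex.exp w - ∑ m ∈ range (2 * (D + 1)), w ^ m / m.factorial) +
      (Complex.exp (-w) - ∑ m ∈ range (2 * (D + 1)), (-w) ^ m / m.factorial)) / 2 := by
    rw [sum_range_two_mul, sum_range_two_mul, Complex.cosh]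
    have : ∀ n, (-w) ^ (2 * n) = w ^ (2 * n) := fun n => by rw [pow_mul, neg_sq, ← pow_mul]
    simp only [pow_succ, this, sum_add_distrib, mul_neg, neg_div, sum_neg_distrib]
    ring
  rw [e, norm_div]
  have := norm_add_le (Complex.exp w - ∑ m ∈ range (2 * (D + 1)), w ^ m / m.factorial)
    (Complex.exp (-w) - ∑ m ∈ range (2 * (D + 1)), (-w) ^ m / m.factorial)
  simp only [Complex.norm_ofNat]
  linarith

theorem norm_Psi_sub_le (hy : 0 < y) {v : ℂ} {D : ℕ} (h : 4 * ‖v‖ ≤ 2 * D + 3) :
    ‖Psi y v - ∑ n ∈ range (D + 1), cf y n * (v ^ 2) ^ n‖ ≤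
      2 * ‖v‖ ^ (2 * (D + 1)) * cf y (D + 1) := by
  have hc := continuous_dens hy
  have e : ∑ n ∈ range (D + 1), cf y n * (v ^ 2) ^ n = ∫ s in (0 : ℝ)..2,
      (∑ n ∈ range (D + 1), (v * s) ^ (2 * n) / (2 * n).factorial) * dens y s := by
    simp only [sum_mul]
    rw [intervalIntegral.integral_finsetSum fun n _ =>
      Continuous.intervalIntegrable (by fun_prop) _ _]
    refine sum_congr rfl fun n _ => ?_
    rw [cf, mu_eq hy]
    push_cast
    rw [← intervalIntegral.integral_ofReal, ← intervalIntegral.integral_div,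
      ← intervalIntegral.integral_mul_const]
    congr 1
    ext s
    push_cast
    rw [← pow_mul]
    ring
  rw [e, Psi, ← integral_sub (Continuous.intervalIntegrable (by fun_prop) _ _)
    (Continuous.intervalIntegrable (by fun_prop) _ _), cf, mu_eq hy, ← intervalIntegral.integral_div,
    ← intervalIntegral.integral_const_mul]
  refine norm_integral_le_of_norm_le (by norm_num) (Filter.Eventually.of_forall fun s hs => ?_)
    (Continuous.intervalIntegrable (by fun_prop) _ _)
  have hn : ‖v * s‖ = ‖v‖ * s := by rw [norm_mul, Complex.norm_real, norm_of_nonneg hs.1.le]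
  rw [← sub_mul, norm_mul, Complex.norm_real, norm_of_nonneg (dens_nonneg hy s)]
  refine (mul_le_mul_of_nonneg_right (norm_cosh_sub_le ?_) (dens_nonneg hy s)).trans (le_of_eq ?_)
  · rw [hn]
    nlinarith [norm_nonneg v, hs.1, hs.2]
  · rw [hn, mul_pow]
    ring

theorem sum_le_PsiR (hy : 0 < y) (x : ℝ) (D : ℕ) :
    ∑ n ∈ range D, cf y n * (x ^ 2) ^ n ≤ PsiR y x := by
  have hc := continuous_dens hy
  have e : ∑ n ∈ range D, cf y n * (x ^ 2) ^ n = ∫ s in (0 : ℝ)..2,
      (∑ n ∈ range D, (x * s) ^ (2 * n) / (2 * n).factorial) * dens y s := by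
    simp only [sum_mul]
    rw [intervalIntegral.integral_finsetSum fun n _ =>
      Continuous.intervalIntegrable (by fun_prop) _ _]
    refine sum_congr rfl fun n _ => ?_
    rw [cf, mu_eq hy, ← intervalIntegral.integral_div, ← intervalIntegral.integral_mul_const]
    congr 1
    ext s
    rw [← pow_mul]
    ring
  rw [e, PsiR]
  refine integral_mono_on (by norm_num) (Continuous.intervalIntegrable (by fun_prop) _ _)
    (Continuous.intervalIntegrable (by fun_prop) _ _) fun s _ => ?_
  refine mul_le_mul_of_nonneg_right (sum_le_hasSum _ (fun n _ => ?_) (hasSum_cosh (x * s)))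
    (dens_nonneg hy s)
  rw [pow_mul]
  positivity

theorem PsiR_le_exp (hy : 0 < y) {x : ℝ} (hx : 0 ≤ x) : PsiR y x ≤ exp (2 * x) := by
  have hc := continuous_dens hy
  rw [PsiR, ← mul_one (exp (2 * x)), ← mass hy, ← intervalIntegral.integral_const_mul]
  refine integral_mono_on (by norm_num) (Continuous.intervalIntegrable (by fun_prop) _ _)
    (Continuous.intervalIntegrable (by fun_prop) _ _) fun s hs => ?_
  refine mul_le_mul_of_nonneg_right ?_ (dens_nonneg hy s)
  have h1 : exp (x * s) ≤ exp (2 * x) := exp_le_exp.2 (by nlinarith [hs.1, hs.2])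
  have h2 : exp (-(x * s)) ≤ exp (2 * x) := exp_le_exp.2 (by nlinarith [hs.1, hs.2])
  rw [cosh_eq]
  linarith

theorem norm_exp_sub_one_le' (w : ℂ) : ‖Complex.exp w - 1‖ ≤ exp ‖w‖ - 1 := by
  have h := Complex.norm_exp_sub_sum_le_exp_norm_sub_sum w 1
  simpa using h

theorem norm_mul_exp_sub {a b : ℂ} {d d' ρ η : ℝ} (hd : 0 ≤ d) (hρ : 1 ≤ ρ)
    (h1 : d ≤ ρ * d') (h2 : d' ≤ ρ * d) (h : ‖a - b‖ ≤ η) :
    ‖Complex.exp a * d - Complex.exp b * d'‖ ≤ (ρ * exp η - 1) * (exp b.re * d') := by
  have e : Complex.exp a * d - Complex.exp b * d' =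
      Complex.exp b * ((Complex.exp (a - b) - 1) * d + ((d - d' : ℝ) : ℂ)) := by
    rw [Complex.exp_sub]
    push_cast
    field_simp
    ring
  have h3 : ‖Complex.exp (a - b) - 1‖ ≤ exp η - 1 :=
    (norm_exp_sub_one_le' _).trans (by linarith [exp_le_exp.2 h])
  have h4 : |d - d'| ≤ (ρ - 1) * d' := by
    rw [abs_le]
    constructor
    · rcases le_total d d' with h | h <;> nlinarith
    · linarith
  have h5 : 0 ≤ exp η - 1 := (norm_nonneg _).trans h3
  rw [e, norm_mul, Complex.norm_exp]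
  have h6 := norm_add_le ((Complex.exp (a - b) - 1) * d) ((d - d' : ℝ) : ℂ)
  rw [norm_mul, Complex.norm_real, Complex.norm_real, norm_of_nonneg hd, norm_eq_abs] at h6
  have h7 : ‖Complex.exp (a - b) - 1‖ * d ≤ (exp η - 1) * (ρ * d') :=
    mul_le_mul h3 h1 hd h5
  calc _ ≤ exp b.re * ((exp η - 1) * (ρ * d') + (ρ - 1) * d') := by gcongr; linarith
    _ = _ := by ring

theorem dens_le {y y' ρ : ℝ} (hy : 0 < y) (hy' : 0 < y') (hρ : 1 ≤ ρ) (h1 : y ≤ ρ * y')
    (h2 : y' ≤ ρ * y) (s : ℝ) : dens y s ≤ ρ * dens y' s := by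
  have k1 := kap_pos hy
  have k2 := kap_pos hy'
  have h3 : y * kap y' ≤ ρ * y' * kap y := by
    unfold kap
    rw [mul_div_assoc', mul_div_assoc', div_le_div_iff₀ (by positivity) (by positivity)]
    have : y' * (1 + y) ≤ ρ * y * (1 + y') := by nlinarith [mul_pos hy hy']
    nlinarith [mul_pos hy hy']
  have h4 : y / (s ^ 2 + kap y) ≤ ρ * y' / (s ^ 2 + kap y') := by
    rw [div_le_div_iff₀ (by positivity) (by positivity)]
    nlinarith [sq_nonneg s]
  have e : ∀ z, dens z s = z / (s ^ 2 + kap z) * (√(4 - s ^ 2) / π) := fun z => by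
    rw [dens, div_mul_div_comm, mul_comm π]
  rw [e, e, ← mul_assoc, ← mul_div_assoc ρ]
  exact mul_le_mul_of_nonneg_right h4 (by positivity)

theorem norm_Psi_sub_Psi {y y' ρ δ : ℝ} {v v' : ℂ} (hy : 0 < y) (hy' : 0 < y') (hρ : 1 ≤ ρ)
    (h1 : y ≤ ρ * y') (h2 : y' ≤ ρ * y) (h : ‖v - v'‖ ≤ δ) :
    ‖Psi y v - Psi y' v'‖ ≤ (ρ * exp (2 * δ) - 1) * PsiR y' v'.re := by
  have hc := continuous_dens hy
  have hc' := continuous_dens hy'
  rw [Psi, Psi, PsiR, ← integral_sub (Continuous.intervalIntegrable (by fun_prop) _ _)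
    (Continuous.intervalIntegrable (by fun_prop) _ _), ← intervalIntegral.integral_const_mul]
  refine norm_integral_le_of_norm_le (by norm_num) (Filter.Eventually.of_forall fun s hs => ?_)
    (Continuous.intervalIntegrable (by fun_prop) _ _)
  have h3 : ‖v * s - v' * s‖ ≤ 2 * δ := by
    rw [← sub_mul, norm_mul, Complex.norm_real, norm_of_nonneg hs.1.le]
    nlinarith [norm_nonneg (v - v'), hs.1, hs.2]
  have a1 := norm_mul_exp_sub (dens_nonneg hy s) hρ (dens_le hy hy' hρ h1 h2 s)
    (dens_le hy' hy hρ h2 h1 s) h3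
  have a2 := norm_mul_exp_sub (a := -(v * s)) (b := -(v' * s)) (η := 2 * δ)
    (dens_nonneg hy s) hρ (dens_le hy hy' hρ h1 h2 s) (dens_le hy' hy hρ h2 h1 s)
    (by rwa [neg_sub_neg, norm_sub_rev])
  have e : Complex.cosh (v * s) * dens y s - Complex.cosh (v' * s) * dens y' s =
      ((Complex.exp (v * s) * dens y s - Complex.exp (v' * s) * dens y' s) +
      (Complex.exp (-(v * s)) * dens y s - Complex.exp (-(v' * s)) * dens y' s)) / 2 := by
    rw [Complex.cosh, Complex.cosh]; ring
  rw [e, norm_div, cosh_eq]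
  have := norm_add_le (Complex.exp (v * s) * dens y s - Complex.exp (v' * s) * dens y' s)
    (Complex.exp (-(v * s)) * dens y s - Complex.exp (-(v' * s)) * dens y' s)
  simp only [Complex.norm_ofNat, Complex.neg_re, Complex.mul_re, Complex.ofReal_re,
    Complex.ofReal_im, mul_zero, sub_zero] at a1 a2 ⊢
  linarith

theorem norm_cosh_sub_one (w : ℂ) : ‖Complex.cosh w - 1‖ ≤ cosh w.re - 1 + w.im ^ 2 / 2 := by
  have e : Complex.cosh w - 1 = ((cosh w.re * cos w.im - 1 : ℝ) : ℂ) +
      ((sinh w.re * sin w.im : ℝ) : ℂ) * Complex.I := by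
    conv_lhs => rw [← Complex.re_add_im w, Complex.cosh_add, Complex.cosh_mul_I, Complex.sinh_mul_I]
    push_cast
    ring
  have h1 : ‖Complex.cosh w - 1‖ = cosh w.re - cos w.im := by
    rw [e, Complex.norm_add_mul_I, sqrt_eq_iff_mul_self_eq (by positivity)
      (by linarith [one_le_cosh w.re, cos_le_one w.im])]
    have a := cosh_sq w.re
    have b := sin_sq_add_cos_sq w.im
    linear_combination (cos w.im ^ 2 - 1) * a + sinh w.re ^ 2 * b
  rw [h1]
  linarith [one_sub_sq_div_two_le_cos (x := w.im)]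

theorem sq_le_cosh (a : ℝ) : a ^ 2 / 2 ≤ cosh a - 1 := by
  have := sum_le_hasSum (range 2) (fun n _ => by rw [pow_mul]; positivity) (hasSum_cosh a)
  simp [sum_range_succ] at this
  linarith

theorem norm_Psi_sub_one (hy : 0 < y) {v : ℂ} {a : ℝ} (ha : 0 < a) (h : |v.re| ≤ a) :
    ‖Psi y v - 1‖ ≤ (1 + v.im ^ 2 / a ^ 2) * (PsiR y a - 1) := by
  have hc := continuous_dens hy
  have e1 : (1 : ℂ) = ∫ s in (0 : ℝ)..2, (dens y s : ℂ) := by
    rw [intervalIntegral.integral_ofReal, mass hy]; simp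
  have e2 : PsiR y a - 1 = ∫ s in (0 : ℝ)..2, (cosh (a * s) - 1) * dens y s := by
    simp only [sub_mul, one_mul]
    rw [integral_sub (Continuous.intervalIntegrable (by fun_prop) _ _)
      (Continuous.intervalIntegrable (by fun_prop) _ _), mass hy, PsiR]
  rw [e1, e2, Psi, ← integral_sub (Continuous.intervalIntegrable (by fun_prop) _ _)
    (Continuous.intervalIntegrable (by fun_prop) _ _), ← intervalIntegral.integral_const_mul]
  refine norm_integral_le_of_norm_le (by norm_num) (Filter.Eventually.of_forall fun s hs => ?_)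
    (Continuous.intervalIntegrable (by fun_prop) _ _)
  rw [← sub_one_mul, norm_mul, Complex.norm_real, norm_of_nonneg (dens_nonneg hy s), ← mul_assoc]
  refine mul_le_mul_of_nonneg_right ((norm_cosh_sub_one _).trans ?_) (dens_nonneg hy s)
  simp only [Complex.mul_re, Complex.mul_im, Complex.ofReal_re, Complex.ofReal_im, mul_zero,
    sub_zero, zero_add]
  have h1 : cosh (v.re * s) ≤ cosh (a * s) := by
    rw [cosh_le_cosh, abs_mul, abs_mul, abs_of_pos ha]
    exact mul_le_mul_of_nonneg_right h (abs_nonneg _)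
  have h2 : (v.im * s) ^ 2 / 2 ≤ v.im ^ 2 / a ^ 2 * (cosh (a * s) - 1) := by
    calc _ = v.im ^ 2 / a ^ 2 * ((a * s) ^ 2 / 2) := by field_simp
      _ ≤ _ := mul_le_mul_of_nonneg_left (sq_le_cosh _) (by positivity)
  linarith

end Pool.Agent.P.MP_ee6314_co
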