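import Pool.Agent.P.MP_ee6314_co.Poly
import Pool.Agent.P.MP_ee6314_co.Mom
import Pool.Agent.P.MP_ee6314_co.Roots

/-! Power sums of the zeros of the truncations, the inner pair, and the chain of sign changes. -/

namespace Pool.Agent.P.MP_ee6314_co

open Polynomial Complex Set
open scoped Real

variable {y : ℝ}

theorem cf_zero (y : ℝ) : cf y 0 = 1 := by simp [cf, mu_zero]

theorem cf_rec (hy : 0 < y) (k : ℕ) : cf y (k + 1) * (k + 1) = -∑ j ∈ Finset.range (k + 1),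
    qq (-y) j / (2 * (2 * j + 1).factorial * (1 + y) ^ (j + 1)) * cf y (k - j) := by
  have h1 : (1 + y) ≠ 0 := by positivity
  have h2 : (((2 * (k + 1)).factorial : ℕ) : ℝ) = 2 * (k + 1) * (2 * k + 1).factorial := by
    rw [show 2 * (k + 1) = 2 * k + 1 + 1 by ring, Nat.factorial_succ]
    push_cast
    ring
  have h3 : (((2 * k + 1).factorial : ℕ) : ℝ) ≠ 0 := by positivity
  have h4 : cf y (k + 1) * (k + 1) =
      mo (-y) (k + 1) * (1 / (2 * (2 * k + 1).factorial * (1 + y) ^ (k + 1))) := by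
    rw [cf, mu, h2]
    field_simp
  rw [h4, qq_rec, neg_mul, Finset.sum_mul]
  congr 1
  refine Finset.sum_congr rfl fun j hj => ?_
  obtain ⟨i, rfl⟩ := Nat.exists_eq_add_of_le (Nat.lt_succ_iff.1 (Finset.mem_range.1 hj))
  have h5 := Nat.add_choose_mul_factorial_mul_factorial (2 * i) (2 * j + 1)
  rw [show 2 * i + (2 * j + 1) = 2 * (j + i) + 1 by ring] at h5
  have h6 : (((2 * j + 1).factorial : ℕ) : ℝ) ≠ 0 := by positivity
  have h7 : (((2 * i).factorial : ℕ) : ℝ) ≠ 0 := by positivity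
  have h8 : (((2 * (j + i) + 1).choose (2 * j + 1) : ℕ) : ℝ) ≠ 0 := by
    exact_mod_cast (Nat.choose_pos (by omega)).ne'
  rw [Nat.add_sub_cancel_left, cf, mu, ← h5]
  push_cast
  field_simp
  ring

theorem newton_qq (hy : 0 < y) {D : ℕ} (j : ℕ) (hj : j + 1 ≤ D) :
    ((poly (cf y) D).roots.map fun z => z⁻¹ ^ (j + 1)).sum =
      (qq (-y) j / (2 * (2 * j + 1).factorial * (1 + y) ^ (j + 1)) : ℝ) := by
  induction j using Nat.strong_induction_on with
  | _ k ih =>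
    have h1 := newton (eval_zero_poly (cf_zero y) D) k
    have h2 := congrArg (fun x : ℝ => (x : ℂ)) (cf_rec hy k)
    simp only [ofReal_mul, ofReal_neg, ofReal_sum, ofReal_add, ofReal_natCast, ofReal_one] at h2
    rw [coeff_poly, if_pos hj, h2, Finset.sum_range_succ, Finset.sum_range_succ, neg_inj, eq_comm,
      Finset.sum_congr rfl fun j hj' => by
        rw [ih j (Finset.mem_range.1 hj') (by have := Finset.mem_range.1 hj'; omega), coeff_poly,
          if_pos (by omega)], add_right_inj, coeff_poly, if_pos (by omega), Nat.sub_self,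
      cf_zero] at h1
    simpa using h1

theorem re_sum (s : Multiset ℂ) (f : ℂ → ℂ) : (s.map f).sum.re = (s.map fun z => (f z).re).sum := by
  induction s using Multiset.induction_on with
  | empty => simp
  | cons a s ih => simp [ih]

theorem re_pow (r : ℝ) (z : ℂ) (K : ℕ) :
    ((r : ℂ) ^ K * z⁻¹ ^ K).re = (r / ‖z‖) ^ K * Real.cos (K * |arg z|) := by
  have h1 : (r : ℂ) ^ K * z⁻¹ ^ K = ((r / ‖z‖) ^ K : ℝ) * exp ((-(K * arg z) : ℝ) * I) := by
    conv_lhs => rw [← norm_mul_exp_arg_mul_I z]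
    rw [mul_inv, mul_pow, ← exp_neg, ← exp_nat_mul]
    push_cast
    rw [div_eq_mul_inv, mul_pow, mul_assoc]
    congr 3
    ring
  rw [h1, re_ofReal_mul, exp_ofReal_mul_I_re, Real.cos_neg, ← Real.cos_abs, abs_mul,
    Nat.abs_cast]

/-- The signed contribution of one zero. -/
noncomputable def term (k m : ℕ) (r : ℝ) (z : ℂ) : ℝ :=
  (-1) ^ m * ((r / ‖z‖) ^ (k + 1) * Real.cos ((k + 1 : ℕ) * |arg z|))

theorem term_ge (k m : ℕ) {r : ℝ} (hr : 0 < r) (z : ℂ) : -(r / ‖z‖) ^ (k + 1) ≤ term k m r z := by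
  refine (neg_le_neg ?_).trans (neg_abs_le _)
  rw [term, abs_mul, abs_mul, abs_neg_one_pow, one_mul, abs_of_nonneg (by positivity)]
  exact mul_le_of_le_one_right (by positivity) (Real.abs_cos_le_one _)

theorem sign_of_sum (hy : 0 < y) {D k m : ℕ} (hk : k + 1 ≤ D) {r : ℝ} (hr : 0 < r)
    (h : 0 < ((poly (cf y) D).roots.map (term k m r)).sum) : 0 < (-1) ^ (m + 1) * red k y := by
  have h1 := congrArg (fun w : ℂ => (-1 : ℝ) ^ m * ((r : ℂ) ^ (k + 1) * w).re) (newton_qq hy k hk)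
  rw [← Multiset.sum_map_mul_left, re_sum, ← Multiset.sum_map_mul_left, ← ofReal_pow,
    ← ofReal_mul, ofReal_re] at h1
  simp only [ofReal_pow, re_pow] at h1
  unfold term at h
  rw [h1, qq, ← red] at h
  have h2 : 0 < r ^ (k + 1) * y / (2 * (2 * k + 1).factorial * (1 + y) ^ (k + 1)) := by positivity
  refine pos_of_mul_pos_left (b := _) (h.trans_eq ?_) h2.le
  ring

theorem term_sum {s : Multiset ℂ} (h2 : s.card = 2) {k m : ℕ} {r : ℝ} (hr : 0 < r)
    (h : ∀ z ∈ s, ‖z‖ = r ∧ |arg z| = m * π / (k + 1)) : (s.map (term k m r)).sum = 2 := by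
  rw [Multiset.map_congr rfl (g := fun _ => (1 : ℝ)) fun z hz => ?_]
  · simp [h2]
    norm_num
  · rw [term, (h z hz).1, (h z hz).2, div_self hr.ne', one_pow, one_mul,
      show ((k + 1 : ℕ) : ℝ) * (m * π / (k + 1)) = m * π by push_cast; field_simp,
      Real.cos_nat_mul_pi, ← mul_pow]
    simp

theorem growth (hy : 0 < y) (D : ℕ) : Growth (poly (cf y) D).roots :=
  ⟨fun _ => root_ne_zero (eval_zero_poly (cf_zero y) D), fun ρ hρ =>
    ((mahler (cf_zero y) (cf_nonneg hy) D (by positivity)).trans (sum_le_PsiR hy ρ _)).trans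
      (PsiR_le_exp hy hρ.le)⟩

theorem trunc (K : ℕ) {ε : ℝ} (hε : 0 < ε) : ∃ D, K ≤ D ∧ ∀ y, 0 < y → ∀ v : ℂ, ‖v‖ ≤ K →
    ‖Psi y v - (poly (cf y) D).eval (v ^ 2)‖ ≤ ε := by
  obtain ⟨N, hN⟩ := Filter.eventually_atTop.1
    ((FloorSemiring.tendsto_pow_div_factorial_atTop (2 * K : ℝ)).eventually
      (gt_mem_nhds (half_pos hε)))
  refine ⟨N + 2 * K, by omega, fun y hy v hv => ?_⟩
  have h1 := hN (2 * (N + 2 * K + 1)) (by omega)
  rw [eval_poly]
  refine (norm_Psi_sub_le hy (by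
    push_cast; linarith [(Nat.cast_nonneg N : (0 : ℝ) ≤ N), norm_nonneg v])).trans ?_
  have h2 := mu_le hy (N + 2 * K + 1)
  have h3 := mu_nonneg hy (N + 2 * K + 1)
  rw [cf]
  generalize N + 2 * K + 1 = n at *
  calc _ ≤ 2 * (K : ℝ) ^ (2 * n) * (4 ^ n / (2 * n).factorial) := by gcongr
    _ = 2 * ((2 * K : ℝ) ^ (2 * n) / (2 * n).factorial) := by
      rw [mul_pow, pow_mul (2 : ℝ)]; norm_num; ring
    _ ≤ _ := by linarith

theorem eval_conj (c : ℕ → ℝ) (D : ℕ) (z : ℂ) :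
    (poly c D).eval (starRingEnd ℂ z) = starRingEnd ℂ ((poly c D).eval z) := by
  simp [eval_poly]

/-- A square root in the first quadrant of a zero or of its conjugate. -/
theorem exists_sqrt {c : ℕ → ℝ} {D : ℕ} {z : ℂ} (hz : (poly c D).eval z = 0) : ∃ v : ℂ,
    (poly c D).eval (v ^ 2) = 0 ∧ 0 ≤ v.re ∧ 0 ≤ v.im ∧ ‖v‖ ^ 2 = ‖z‖ ∧
      (z ≠ 0 → |arg z| = 2 * arg v) := by
  have h1 := abs_arg_le_pi z
  have h0 := abs_nonneg (arg z)
  have h2 : ∀ θ : ℝ, ((√‖z‖ : ℝ) * exp ((θ / 2 : ℝ) * I)) ^ 2 = ‖z‖ * exp (θ * I) := fun θ => by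
    rw [mul_pow, ← ofReal_pow, Real.sq_sqrt (norm_nonneg z), ← exp_nat_mul]
    push_cast
    ring_nf
  refine ⟨(√‖z‖ : ℝ) * exp ((|arg z| / 2 : ℝ) * I), ?_, ?_, ?_, ?_, fun hz0 => ?_⟩
  · rw [h2]
    rcases abs_choice (arg z) with h | h <;> rw [h]
    · rwa [norm_mul_exp_arg_mul_I]
    · have : (‖z‖ : ℂ) * exp ((-arg z : ℝ) * I) = starRingEnd ℂ z := by
        conv_rhs => rw [← norm_mul_exp_arg_mul_I z, map_mul, ← exp_conj]
        simp
      rw [this, eval_conj, hz, map_zero]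
  · rw [re_ofReal_mul, exp_ofReal_mul_I_re]
    exact mul_nonneg (Real.sqrt_nonneg _) (Real.cos_nonneg_of_mem_Icc ⟨by linarith, by linarith⟩)
  · rw [im_ofReal_mul, exp_ofReal_mul_I_im]
    exact mul_nonneg (Real.sqrt_nonneg _)
      (Real.sin_nonneg_of_nonneg_of_le_pi (by linarith) (by linarith))
  · rw [norm_mul, norm_exp_ofReal_mul_I, mul_one, norm_real, Real.norm_of_nonneg (Real.sqrt_nonneg _),
      Real.sq_sqrt (norm_nonneg z)]
  · rw [exp_mul_I, arg_mul_cos_add_sin_mul_I (Real.sqrt_pos.2 (norm_pos_iff.2 hz0))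
      ⟨by linarith [Real.pi_pos], by linarith⟩]
    ring

/-- The product of the two inner zeros. -/
noncomputable def e2 (p : ℂ[X]) (R : ℝ) : ℝ := (psum p R 1 ^ 2 - psum p R 2).re / 2

/-- The cosine of the argument of the inner pair. -/
noncomputable def cs (p : ℂ[X]) (R : ℝ) : ℝ := (psum p R 1).re / (2 * √(e2 p R))

theorem mem_ins {c : ℕ → ℝ} (h : c 0 = 1) {D : ℕ} {R : ℝ} {z : ℂ} :
    z ∈ ins (poly c D) R ↔ (poly c D).eval z = 0 ∧ ‖z‖ < R := by
  rw [ins, Multiset.mem_filter, mem_roots, IsRoot]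
  intro h0
  have := eval_zero_poly h D
  simp [h0] at this

theorem pair {c : ℕ → ℝ} (h : c 0 = 1) (hc : ∀ n, 0 ≤ c n) {D : ℕ} {R : ℝ}
    (h2 : (ins (poly c D) R).card = 2) : 0 < e2 (poly c D) R ∧
      ((cs (poly c D) R ≤ -1 ∧ ∀ z ∈ ins (poly c D) R, |arg z| = π) ∨
      ∃ r, 0 < r ∧ ∀ z ∈ ins (poly c D) R, ‖z‖ = r ∧ Real.cos |arg z| = cs (poly c D) R) := by
  obtain ⟨a, b, hab⟩ := Multiset.card_eq_two.1 h2
  have k1 : ∀ z ∈ ins (poly c D) R, starRingEnd ℂ z ∈ ins (poly c D) R := fun z hz => by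
    rw [mem_ins h] at hz ⊢
    rw [eval_conj, hz.1, map_zero, norm_conj]
    exact ⟨rfl, hz.2⟩
  have k2 : ∀ z ∈ ins (poly c D) R, starRingEnd ℂ z = z → z.im = 0 ∧ z.re < 0 := fun z hz e => by
    refine ⟨conj_eq_iff_im.1 e, not_le.1 fun h0 => ?_⟩
    have h1 := ((mem_ins h).1 hz).1
    rw [← conj_eq_iff_re.1 e, eval_poly, Finset.sum_range_succ', h] at h1
    have h3 : 0 ≤ ∑ n ∈ Finset.range D, c (n + 1) * z.re ^ (n + 1) :=
      Finset.sum_nonneg fun n _ => mul_nonneg (hc _) (by positivity)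
    norm_cast at h1
    linarith
  have e1 : psum (poly c D) R 1 = a + b := by simp [psum, hab]
  have e3 : e2 (poly c D) R = (a * b).re := by
    rw [e2, e1, psum, hab, show (a + b) ^ 2 - (Multiset.map (· ^ 2) {a, b}).sum = (2 : ℝ) * (a * b)
      by simp; ring, re_ofReal_mul]
    ring
  have k3 : b = starRingEnd ℂ a → 0 < e2 (poly c D) R ∧ ∃ r, 0 < r ∧ ∀ z ∈ ins (poly c D) R,
      ‖z‖ = r ∧ Real.cos |arg z| = cs (poly c D) R := by
    rintro rfl
    have ha : a ≠ 0 := by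
      rintro rfl
      have := ((mem_ins h).1 (show 0 ∈ ins (poly c D) R by simp [hab])).1
      simp [eval_zero_poly h] at this
    have hn := norm_pos_iff.2 ha
    rw [mul_conj, ofReal_re, normSq_eq_norm_sq] at e3
    refine ⟨by rw [e3]; positivity, ‖a‖, hn, fun z hz => ?_⟩
    rw [cs, e3, e1, Real.sqrt_sq hn.le, Real.cos_abs]
    rw [hab] at hz
    simp only [Multiset.insert_eq_cons, Multiset.mem_cons, Multiset.mem_singleton] at hz
    rcases hz with rfl | rfl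
    · rw [cos_arg ha]
      simp
      field_simp
      ring
    · rw [cos_arg (by simpa using ha)]
      simp
      field_simp
      ring
  rw [hab] at k1 k2
  simp only [Multiset.insert_eq_cons, Multiset.mem_cons, Multiset.mem_singleton, forall_eq_or_imp,
    forall_eq] at k1 k2
  by_cases hb : b = starRingEnd ℂ a
  · exact ⟨(k3 hb).1, Or.inr (k3 hb).2⟩
  obtain ⟨a1, a2⟩ := k2.1 (k1.1.resolve_right fun e => hb e.symm)
  obtain ⟨b1, b2⟩ := k2.2 (k1.2.resolve_left fun e => hb (by rw [← e, conj_conj]))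
  rw [mul_re, a1, zero_mul, sub_zero] at e3
  have h0 : 0 < a.re * b.re := mul_pos_of_neg_of_neg a2 b2
  refine ⟨e3 ▸ h0, Or.inl ⟨?_, ?_⟩⟩
  · rw [cs, e3, e1, add_re, div_le_iff₀ (by positivity)]
    have : √(a.re * b.re) ≤ -(a.re + b.re) / 2 := by
      rw [Real.sqrt_le_left (by linarith)]
      nlinarith [sq_nonneg (a.re - b.re)]
    linarith
  · simp only [hab, Multiset.insert_eq_cons, Multiset.mem_cons, Multiset.mem_singleton,
      forall_eq_or_imp, forall_eq]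
    rw [arg_eq_pi_iff.2 ⟨a2, a1⟩, arg_eq_pi_iff.2 ⟨b2, b1⟩, abs_of_pos Real.pi_pos]
    exact ⟨rfl, rfl⟩

theorem chain {f u Y : ℝ → ℝ} {a b : ℝ} {k : ℕ} (hk : 2 ≤ k) (hf : Continuous f) (h0 : 0 < f 0)
    (hab : a ≤ b) (hu : ContinuousOn u (Icc a b)) (hY : Monotone Y) (hY0 : ∀ s, 0 ≤ Y s)
    (ha : Real.cos ((2 : ℕ) * π / (k + 1)) ≤ u a) (hb : u b ≤ -1)
    (hd : ∀ s ∈ Icc a b, ∀ m : ℕ, 2 ≤ m → m ≤ k → u s = Real.cos (m * π / (k + 1)) →
      0 < (-1) ^ (m + 1) * f (Y s)) : ∃ c, HR f c (k - 1) := by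
  have key : ∀ m : ℕ, 2 ≤ m → m ≤ k →
      ∃ s ∈ Icc a b, u s = Real.cos (m * π / (k + 1)) ∧ HR f (Y s) (m - 1) := by
    intro m hm
    induction m, hm using Nat.le_induction with
    | base =>
      intro _
      obtain ⟨s, hs, e⟩ := intermediate_value_Icc' hab hu ⟨hb.trans (Real.neg_one_le_cos _), ha⟩
      refine ⟨s, hs, e, (HR.zero f 0).step hf (hY0 s) ?_⟩
      have := hd s hs 2 le_rfl hk e
      rw [Odd.neg_one_pow (by decide)] at this
      exact mul_neg_of_pos_of_neg h0 (by linarith)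
    | succ m hm ih =>
      intro hm'
      obtain ⟨s, hs, e, h1⟩ := ih (by omega)
      have h2 : ((m + 1 : ℕ) : ℝ) ≤ k := by exact_mod_cast hm'
      have h3 : Real.cos ((m + 1 : ℕ) * π / (k + 1)) ≤ u s := by
        rw [e]
        refine Real.cos_le_cos_of_nonneg_of_le_pi (by positivity) ?_ (by gcongr; linarith)
        rw [div_le_iff₀ (by positivity)]
        nlinarith [Real.pi_pos]
      obtain ⟨t, ht, e'⟩ := intermediate_value_Icc' hs.2 (hu.mono (Icc_subset_Icc_left hs.1))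
        ⟨hb.trans (Real.neg_one_le_cos _), h3⟩
      have ht' : t ∈ Icc a b := ⟨hs.1.trans ht.1, ht.2⟩
      refine ⟨t, ht', e', ?_⟩
      rw [show m + 1 - 1 = m - 1 + 1 by omega]
      refine h1.step hf (hY ht.1) ?_
      have h4 := mul_pos (hd s hs m hm (by omega) e) (hd t ht' (m + 1) (by omega) hm' e')
      rw [mul_mul_mul_comm, ← pow_add, Odd.neg_one_pow ⟨m + 1, by ring⟩] at h4
      linarith
  obtain ⟨s, -, -, h⟩ := key k hk le_rfl
  exact ⟨_, h⟩

end Pool.Agent.P.MP_ee6314_co
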