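import Pool.Agent.P.MP_ee6314_co.Near
import Pool.Agent.P.MP_ee6314_co.Pair

/-! The inner pair of zeros dominates the power sum. -/

namespace Pool.Agent.P.MP_ee6314_co

open Real

theorem far_small {K : ℕ} (hK : 64 ≤ K) {a b : ℝ} (a0 : 0 ≤ a) (ha : a ≤ 0.85) (b0 : 0 ≤ b)
    (hb : b ≤ 7 * K) : a ^ K * b < 0.1 := by
  have h : (0.85 : ℝ) ^ K * (7 * K) < 0.1 := by
    clear hb
    induction K, hK using Nat.le_induction with
    | base => norm_num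
    | succ n hn ih =>
      have h1 : (64 : ℝ) ≤ n := by exact_mod_cast hn
      have h2 : (0 : ℝ) < 0.85 ^ n := by positivity
      rw [pow_succ]
      push_cast
      nlinarith
  exact lt_of_le_of_lt (by gcongr) h

theorem pw {K : ℕ} (hK : 64 ≤ K) {τ : ℝ} (h : 0.34 ≤ K * τ ^ 3) :
    0.46 * K ≤ (1 + 2 * τ ^ 2) ^ K := by
  have hK' : (64 : ℝ) ≤ K := by exact_mod_cast hK
  have w0 : 0 ≤ 2 * τ ^ 2 := by positivity
  rcases le_total 0.061 (2 * τ ^ 2) with hw | hw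
  · have h1 : 0.46 * K ≤ (1.061 : ℝ) ^ K := by
      clear h hK'
      induction K, hK using Nat.le_induction with
      | base => norm_num
      | succ n hn ih =>
        have h1 : (64 : ℝ) ≤ n := by exact_mod_cast hn
        rw [pow_succ]
        push_cast
        nlinarith
    exact h1.trans (by gcongr; linarith)
  · have h1 := one_sub_inv_le_log_of_pos (show 0 < 1 + 2 * τ ^ 2 by positivity)
    have h2 : 2 * τ ^ 2 / 1.061 ≤ 1 - (1 + 2 * τ ^ 2)⁻¹ := by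
      rw [show 1 - (1 + 2 * τ ^ 2)⁻¹ = 2 * τ ^ 2 / (1 + 2 * τ ^ 2) by field_simp; ring]
      gcongr
      linarith
    set z := K * (2 * τ ^ 2 / 1.061) with hz
    have h3 : exp z ≤ (1 + 2 * τ ^ 2) ^ K := by
      rw [← exp_log (show 0 < (1 + 2 * τ ^ 2) ^ K by positivity), log_pow, exp_le_exp, hz]
      gcongr
      linarith
    have h4 : 0.774 * K ≤ z ^ 3 := by
      have h5 : 0.34 ^ 2 ≤ (K * τ ^ 3) ^ 2 := by gcongr
      rw [show z ^ 3 = K * (8 / 1.061 ^ 3 * (K * τ ^ 3) ^ 2) by rw [hz]; ring, mul_comm]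
      gcongr
      linarith
    have h5 : 3.67 ≤ z := le_of_pow_le_pow_left₀ three_ne_zero (by positivity) (by linarith)
    have h6 : (100 / 367 * z) ^ 3 ≤ exp ((z - 3.67) / 3) ^ 3 := by
      gcongr
      linarith [add_one_le_exp ((z - 3.67) / 3)]
    have h7 : exp z = exp 1 ^ 3 * exp 0.67 * exp ((z - 3.67) / 3) ^ 3 := by
      rw [← exp_nat_mul, ← exp_nat_mul, ← exp_add, ← exp_add]
      congr 1
      push_cast
      ring
    have h8 : 2.718 ^ 3 * 1.67 * (100 / 367 * z) ^ 3 ≤ exp z := by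
      rw [h7]
      gcongr
      · linarith [exp_one_gt_d9]
      · linarith [add_one_le_exp (0.67 : ℝ)]
    rw [mul_pow] at h8
    linarith

variable {ξ y : ℝ} {D : ℕ}

theorem root_loc (h : 12 ≤ ξ) (hD : ∀ v : ℂ, ‖v‖ ≤ 1.1 * ξ →
      ‖Psi (yA ξ) v - (poly (cf (yA ξ)) D).eval (v ^ 2)‖ ≤ 0.008 / ξ ^ 2) {z : ℂ}
    (hz : (poly (cf (yA ξ)) D).eval z = 0) (hn : ‖z‖ ≤ (1.1 * ξ) ^ 2) :
    ∃ x t J, Loc ξ x t J ∧ x ^ 2 + t ^ 2 = ‖z‖ ∧ |z.arg| = 2 * arctan (t / x) := by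
  obtain ⟨v, h1, h2, h3, h4, h5⟩ := exists_sqrt hz
  have h6 : ‖v‖ ≤ 1.1 * ξ := le_of_pow_le_pow_left₀ two_ne_zero (by linarith) (h4 ▸ hn)
  have h7 := hD v h6
  rw [h1, sub_zero] at h7
  obtain ⟨J, L⟩ := loc h h2 h3 h6 h7
  refine ⟨_, _, J, L, by rw [← h4, Complex.sq_norm, Complex.normSq_apply]; ring, ?_⟩
  rw [h5, arg_eq_arctan (by linarith [(L.ratio h).1])]
  rintro rfl
  simp [eval_zero_poly (cf_zero _)] at hz

theorem Loc.lt_iff (h : 12 ≤ ξ) {x t : ℝ} {J : ℕ} (L : Loc ξ x t J) :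
    (J = 1 ∧ x ^ 2 + t ^ 2 ≤ ξ ^ 2 + 3.39) ∨ (J ≠ 1 ∧ ξ ^ 2 + 12 < x ^ 2 + t ^ 2) := by
  by_cases hJ : J = 1
  · subst hJ
    exact Or.inl ⟨rfl, L.norm_one h⟩
  · obtain ⟨h1, h2⟩ := L.norm_three h hJ
    have h3 : (3 : ℝ) ≤ J := by exact_mod_cast h1
    have h4 : ξ ^ 2 * ((J : ℝ) / ξ) ^ 2 = J ^ 2 := by
      have : ξ ≠ 0 := by linarith
      field_simp
    exact Or.inr ⟨hJ, by nlinarith [sq_nonneg ((J : ℝ) / ξ)]⟩

theorem card_A (h : 12 ≤ ξ) : (((poly (cf (yA ξ)) D).roots.filter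
    fun z => ‖z‖ ≤ (1.1 * ξ) ^ 2).card : ℝ) ≤ 1.605 * ξ + 0.04 := by
  have hy := yA_pos h
  have h1 := (pow_card_le (growth hy D).1 (a := (1.1 * ξ) ^ 2) (sq_nonneg (1.65 * ξ))).trans
    (((mahler (cf_zero _) (cf_nonneg hy) D (by positivity)).trans (sum_le_PsiR hy _ _)).trans
      (PsiR_far h))
  rw [show (1.65 * ξ) ^ 2 / (1.1 * ξ) ^ 2 = 9 / 4 by
    have : ξ ≠ 0 := by linarith
    field_simp
    norm_num] at h1
  have h2 : exp (81 / 100) ≤ 9 / 4 := by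
    have h3 : exp (81 / 100) ^ 100 ≤ (9 / 4) ^ 100 := by
      rw [← exp_nat_mul, show ((100 : ℕ) : ℝ) * (81 / 100) = (81 : ℕ) * 1 by norm_num, exp_nat_mul]
      exact (pow_le_pow_left₀ (exp_pos 1).le exp_one_lt_d9.le 81).trans (by norm_num)
    exact le_of_pow_le_pow_left₀ (by norm_num) (by norm_num) h3
  have h4 := (pow_le_pow_left₀ (exp_pos _).le h2 _).trans h1
  rw [← exp_nat_mul, exp_le_exp] at h4
  linarith

theorem first_A (h : 12 ≤ ξ) (hD : ∀ v : ℂ, ‖v‖ ≤ 1.1 * ξ →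
      ‖Psi (yA ξ) v - (poly (cf (yA ξ)) D).eval (v ^ 2)‖ ≤ 0.008 / ξ ^ 2) {z : ℂ}
    (hz : z ∈ ins (poly (cf (yA ξ)) D) (ξ ^ 2 + 12)) : ∃ x t, Loc ξ x t 1 ∧
      ‖z‖ ≤ ξ ^ 2 + 3.39 ∧ |z.arg| = 2 * arctan (t / x) ∧ |z.arg| ≤ 3.408 / ξ := by
  obtain ⟨h1, h2⟩ := (mem_ins (cf_zero _)).1 hz
  obtain ⟨x, t, J, L, h3, h4⟩ := root_loc h hD h1 (by nlinarith)
  obtain ⟨rfl, h5⟩ := (L.lt_iff h).resolve_right fun h => by linarith [h.2]
  obtain ⟨a1, a2, -⟩ := L.ratio h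
  have h6 := arctan_le_self (div_nonneg L.t0 (show 0 ≤ x by linarith))
  refine ⟨x, t, L, h3 ▸ h5, h4, ?_⟩
  rw [h4, show 3.408 / ξ = 2 * (1.704 * ((1 : ℕ) / ξ)) by push_cast; ring]
  linarith

theorem dom_A (h : 12 ≤ ξ) (hD : ∀ v : ℂ, ‖v‖ ≤ 1.1 * ξ →
      ‖Psi (yA ξ) v - (poly (cf (yA ξ)) D).eval (v ^ 2)‖ ≤ 0.008 / ξ ^ 2) {k m : ℕ} {r : ℝ}
    (hk : 63 ≤ k) (hm : 2 ≤ m) (hr : 0 < r)
    (h2 : (ins (poly (cf (yA ξ)) D) (ξ ^ 2 + 12)).card = 2)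
    (hin : ∀ z ∈ ins (poly (cf (yA ξ)) D) (ξ ^ 2 + 12), ‖z‖ = r ∧ |z.arg| = m * π / (k + 1)) :
    0 < ((poly (cf (yA ξ)) D).roots.map (term k m r)).sum := by
  have ξ0 : 0 < ξ := by linarith
  obtain ⟨z₁, hz₁⟩ := Multiset.card_pos_iff_exists_mem.1 (h2 ▸ two_pos)
  obtain ⟨x₁, t₁, L₁, a1, a2, a3⟩ := first_A h hD hz₁
  rw [(hin _ hz₁).1] at a1
  rw [(hin _ hz₁).2] at a2 a3
  have hK : (64 : ℝ) ≤ (k + 1 : ℕ) := by exact_mod_cast Nat.succ_le_succ hk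
  have hm' : (2 : ℝ) ≤ m := by exact_mod_cast hm
  rw [← Nat.cast_succ] at a2 a3
  have a4 : ξ ≤ 0.5425 * (k + 1 : ℕ) := by
    rw [div_le_div_iff₀ (by linarith) ξ0] at a3
    have : 2 * 3.1415 * ξ ≤ m * π * ξ := by gcongr; exact pi_gt_d4.le
    linarith
  refine (growth (yA_pos h) D).dom (R := ξ ^ 2 + 12) (ρ := 1.1 * ξ)
    (w := (0.46 * (k + 1 : ℕ))⁻¹) _ hr (by linarith) (by positivity)
    (fun z _ => term_ge k m hr z) (term_sum h2 hr hin) (fun z hz b1 b2 => ?_) ?_ ?_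
  · obtain ⟨x, t, J, L, b3, b4⟩ := root_loc h hD (Polynomial.isRoot_of_mem_roots hz) b2
    obtain ⟨hJ, -⟩ := (L.lt_iff h).resolve_left fun h => b1 (by linarith [h.2])
    obtain ⟨b5, b6⟩ := L.norm_three h hJ
    have b7 := L.phase h L₁ b5
    rcases le_total ((k + 1 : ℕ) * (J / ξ) ^ 3) 0.34 with c | c
    · refine le_trans (neg_nonpos.2 (by positivity)) ?_
      have c1 : ((k + 1 : ℕ) : ℝ) * (2 * arctan (t / x)) =
          2 * (k + 1 : ℕ) * (arctan (t / x) - J * arctan (t₁ / x₁)) + (J * m : ℕ) * π := by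
        rw [div_eq_iff (by linarith)] at a2
        rw [Nat.cast_mul]
        linear_combination (-J) * a2
      have c2 : |2 * (k + 1 : ℕ) * (arctan (t / x) - J * arctan (t₁ / x₁))| ≤ π / 2 := by
        rw [abs_mul, abs_of_nonneg (by positivity)]
        have := mul_le_mul_of_nonneg_left b7 (show (0 : ℝ) ≤ 2 * (k + 1 : ℕ) by positivity)
        linarith [pi_gt_d2]
      rw [term, b4, c1, cos_add_nat_mul_pi, pow_mul, L.odd.neg_one_pow, mul_left_comm, ← mul_assoc ((-1) ^ m),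
        ← mul_pow]
      have c3 := cos_nonneg_of_mem_Icc (abs_le.1 c2)
      positivity
    · refine le_trans (neg_le_neg ?_) (term_ge k m hr z)
      have c1 := pw (Nat.succ_le_succ hk) c
      have c2 : r / ‖z‖ ≤ (1 + 2 * (J / ξ) ^ 2)⁻¹ := by
        have c3 : r * (1 + 2 * (J / ξ) ^ 2) ≤ ‖z‖ := by
          rw [← b3]
          exact le_trans (by gcongr) b6
        rw [div_le_iff₀ (lt_of_lt_of_le (by positivity) c3), inv_mul_eq_div,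
          le_div_iff₀ (by positivity)]
        exact c3
      calc _ ≤ ((1 + 2 * (J / ξ) ^ 2)⁻¹) ^ (k + 1) := by gcongr
        _ ≤ _ := by
          rw [inv_pow]
          exact inv_anti₀ (by positivity) c1
  · rw [← div_eq_mul_inv, div_le_iff₀ (by positivity)]
    linarith [card_A (D := D) h]
  · refine far_small (Nat.succ_le_succ hk) (by positivity) ?_ (by positivity) (by linarith)
    rw [div_le_iff₀ (by positivity)]
    nlinarith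

theorem root_out {a b : ℝ} (hA : ∀ v : ℂ, a ≤ ‖v‖ → ‖v‖ ≤ b → 1 / 10 ^ 6 < ‖Psi y v‖)
    (hD : ∀ v : ℂ, ‖v‖ ≤ b → ‖Psi y v - (poly (cf y) D).eval (v ^ 2)‖ ≤ 1 / 10 ^ 6)
    (hb : 0 < b) {z : ℂ} (hz : (poly (cf y) D).eval z = 0) : ‖z‖ < a ^ 2 ∨ b ^ 2 < ‖z‖ := by
  obtain ⟨v, h1, -, -, h4, -⟩ := exists_sqrt hz
  by_contra hc
  rw [not_or, not_lt, not_lt, ← h4] at hc
  have h2 := le_of_pow_le_pow_left₀ two_ne_zero hb.le hc.2
  have h3 := hD v h2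
  rw [h1, sub_zero] at h3
  exact absurd (hA v (le_of_pow_le_pow_left₀ two_ne_zero (norm_nonneg _) hc.1) h2) (not_lt.2 h3)

theorem dom_C (hy : 0 < y) {a b R : ℝ} (hA : ∀ v : ℂ, a ≤ ‖v‖ → ‖v‖ ≤ b → 1 / 10 ^ 6 < ‖Psi y v‖)
    (hD : ∀ v : ℂ, ‖v‖ ≤ b → ‖Psi y v - (poly (cf y) D).eval (v ^ 2)‖ ≤ 1 / 10 ^ 6) (ha : 0 < a)
    (h1 : a ≤ R) (h3 : R ≤ b) (h4 : b ≤ 12.8) (h5 : 1.025 * a ≤ b) {k m : ℕ} {r : ℝ}
    (hk : 63 ≤ k) (hr : 0 < r) (h2 : (ins (poly (cf y) D) (R ^ 2)).card = 2)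
    (hin : ∀ z ∈ ins (poly (cf y) D) (R ^ 2), ‖z‖ = r ∧ |z.arg| = m * π / (k + 1)) :
    0 < ((poly (cf y) D).roots.map (term k m r)).sum := by
  have hb : 0 < b := by linarith
  have a1 : a ^ 2 ≤ R ^ 2 := by gcongr
  have a2 : R ^ 2 ≤ b ^ 2 := by gcongr; linarith
  have a3 : (1.025 * a) ^ 2 ≤ b ^ 2 := by gcongr
  obtain ⟨z₁, hz₁⟩ := Multiset.card_pos_iff_exists_mem.1 (h2 ▸ two_pos)
  have a4 := (mem_ins (cf_zero _)).1 hz₁
  have a5 := (root_out hA hD hb a4.1).resolve_right (by linarith [a4.2])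
  rw [(hin _ hz₁).1] at a5
  have hK : (64 : ℝ) ≤ (k + 1 : ℕ) := by exact_mod_cast Nat.succ_le_succ hk
  refine (growth hy D).dom (R := R ^ 2) (ρ := 1.1 * b) (w := 0.045) _ hr (by linarith)
    (by norm_num) (fun z _ => term_ge k m hr z) (term_sum h2 hr hin) (fun z hz b1 _ => ?_) ?_ ?_
  · have b2 := (root_out hA hD hb (Polynomial.isRoot_of_mem_roots hz)).resolve_left
      (by linarith)
    refine le_trans (neg_le_neg ?_) (term_ge k m hr z)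
    have b3 : r / ‖z‖ ≤ 0.952 := by
      rw [div_le_iff₀ (lt_trans (by positivity) b2)]
      linarith
    calc _ ≤ (0.952 : ℝ) ^ (k + 1) := by gcongr
      _ ≤ 0.952 ^ 64 := pow_le_pow_of_le_one (by norm_num) (by norm_num) (by omega)
      _ ≤ _ := by norm_num
  · linarith [(growth hy D).card_le (ρ := 1.1 * b) (by linarith)]
  · refine far_small (Nat.succ_le_succ hk) (by positivity) ?_ (by positivity) (by linarith)
    rw [div_le_iff₀ (by positivity)]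
    nlinarith

end Pool.Agent.P.MP_ee6314_co
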