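import Pool.Agent.P.MP_ee6314_co.Comb

/-! The exponential generating function of the trees is a logarithmic derivative. -/

namespace Pool.Agent.P.MP_ee6314_co

open Finset PowerSeries

section egf
variable {B : Type} [CommRing B] [Algebra ℚ B]

/-- Exponential generating function. -/
noncomputable def egf (v : ℕ → B) : B⟦X⟧ := PowerSeries.mk fun n => ((n.factorial : ℚ)⁻¹) • v n

theorem egf_mul (v w : ℕ → B) : egf v * egf w =
    egf fun n => ∑ j ∈ range (n + 1), (n.choose j : B) * (v j * w (n - j)) := by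
  ext n
  simp only [egf, coeff_mul, coeff_mk, Nat.sum_antidiagonal_eq_sum_range_succ_mk, smul_sum]
  refine sum_congr rfl fun j hj => ?_
  have hj' : j ≤ n := Nat.lt_succ_iff.1 (mem_range.1 hj)
  have h := Nat.choose_mul_factorial_mul_factorial hj'
  have h' : (n.factorial : ℚ) = n.choose j * j.factorial * (n - j).factorial := by
    exact_mod_cast h.symm
  have h1 : (j.factorial : ℚ) ≠ 0 := by exact_mod_cast j.factorial_ne_zero
  have h2 : ((n - j).factorial : ℚ) ≠ 0 := by exact_mod_cast (n - j).factorial_ne_zero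
  have h3 : (n.choose j : ℚ) ≠ 0 := by exact_mod_cast (Nat.choose_pos hj').ne'
  rw [smul_mul_smul_comm, ← nsmul_eq_mul, ← Nat.cast_smul_eq_nsmul ℚ, smul_smul, h']
  congr 1
  field_simp

theorem egf_deriv (v : ℕ → B) : d⁄dX B (egf v) = egf fun n => v (n + 1) := by
  ext n
  simp only [egf, coeff_derivative, coeff_mk]
  have h1 : (n.factorial : ℚ) ≠ 0 := by exact_mod_cast n.factorial_ne_zero
  have : ((n : B) + 1) = ((n + 1 : ℕ) : B) := by push_cast; ring
  rw [this, mul_comm, ← nsmul_eq_mul, ← Nat.cast_smul_eq_nsmul ℚ, smul_smul, Nat.factorial_succ]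
  congr 1
  push_cast
  field_simp

omit [Algebra ℚ B] in
theorem deriv_mul_sub (f g h : B⟦X⟧) :
    d⁄dX B (f * g - h) = f * d⁄dX B g + g * d⁄dX B f - d⁄dX B h := by
  rw [map_sub, Derivation.leibniz, smul_eq_mul, smul_eq_mul]

theorem egf_add (v w : ℕ → B) : egf v + egf w = egf fun n => v n + w n := by
  ext n; simp [egf]

theorem egf_sub (v w : ℕ → B) : egf v - egf w = egf fun n => v n - w n := by
  ext n; simp [egf, smul_sub]

theorem C_mul_egf (a : B) (v : ℕ → B) : C a * egf v = egf fun n => a * v n := by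
  ext n; simp [egf]

theorem egf_one : egf (fun n => if n = 0 then (1 : B) else 0) = 1 := by
  ext n
  cases n <;> simp [egf, coeff_one]

theorem coeff_egf_eq_zero {v : ℕ → B} {n : ℕ} : coeff n (egf v) = 0 ↔ v n = 0 := by
  have h1 : (n.factorial : ℚ) ≠ 0 := by exact_mod_cast n.factorial_ne_zero
  simp only [egf, coeff_mk]
  refine ⟨fun h => ?_, fun h => by simp [h]⟩
  have := congrArg (fun b => (n.factorial : ℚ) • b) h
  simpa [smul_smul, mul_inv_cancel₀ h1] using this

end egf

section paths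
variable {R : Type} [CommRing R] (x : R)

/-- Weighted lattice paths with `n` steps from height `c` to height zero. -/
def pa : ℕ → ℕ → R
  | 0, c => if c = 0 then 1 else 0
  | n + 1, 0 => pa n 1
  | n + 1, 1 => pa n 2 - x * pa n 0
  | n + 1, c + 2 => pa n (c + 3) + (1 - x) * pa n (c + 1)

theorem gf_nil (n : ℕ) : gf x n 0 = if n = 0 then 1 else 0 := by
  cases n with
  | zero => simp [gf_zero]
  | succ n => simp [gf_succ]

/-- The series in the number of trees. -/
noncomputable def uu (n : ℕ) : R⟦X⟧ :=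
  PowerSeries.mk fun c => (if c = 0 then 1 else x) * gf x n c

theorem uu_succ (n : ℕ) : X * uu x (n + 1) = ∑ j ∈ range (n + 1), (n.choose j : R⟦X⟧) *
    ((X ^ 2 * (uu x j - C (1 - x) * if j = 0 then 1 else 0) + (uu x j - if j = 0 then 1 else 0)
      - X * C (x * gf x j 1)) * uu x (n - j)) := by
  have h1 : ∀ j, (X ^ 2 * (uu x j - C (1 - x) * if j = 0 then 1 else 0) +
      (uu x j - if j = 0 then 1 else 0) - X * C (x * gf x j 1) : R⟦X⟧) =
      X * (X * (C x * PowerSeries.mk fun i => gf x j i + gf x j (i + 2))) := by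
    intro j
    ext c
    rw [pow_two, mul_assoc]
    rcases c with _ | _ | _ | c
    · by_cases hj : j = 0 <;> simp [uu, gf_nil, hj]
    · by_cases hj : j = 0 <;> simp [uu, hj, coeff_succ_X_mul, coeff_one]
    · by_cases hj : j = 0 <;> simp [uu, gf_nil, hj, coeff_succ_X_mul, coeff_one, mul_add]
    · by_cases hj : j = 0 <;> simp [uu, hj, coeff_succ_X_mul, coeff_one, mul_add]
  simp only [h1]
  have h2 : ∀ j, (n.choose j : R⟦X⟧) * (X * (X * (C x * PowerSeries.mk fun i =>
      gf x j i + gf x j (i + 2))) * uu x (n - j)) = X * (X * (C (x * n.choose j) *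
        ((PowerSeries.mk fun i => gf x j i + gf x j (i + 2)) * uu x (n - j)))) := by
    intro j
    rw [map_mul, map_natCast]; ring
  simp only [h2, ← mul_sum]
  congr 1
  ext c
  rcases c with _ | c
  · simp [uu, gf_nil]
  · rw [coeff_succ_X_mul, map_sum]
    simp only [coeff_C_mul]
    simp only [uu, coeff_mk, coeff_mul, Nat.sum_antidiagonal_eq_sum_range_succ_mk,
      gf_succ, Nat.succ_ne_zero, if_false, Nat.add_sub_cancel]
    rw [sum_comm, mul_sum]
    refine sum_congr rfl fun j _ => ?_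
    rw [mul_sum, mul_sum]
    exact sum_congr rfl fun i _ => by ring

theorem pa_succ (n : ℕ) : X * (PowerSeries.mk (pa x (n + 1)) : R⟦X⟧) =
    (C (1 - x) * X ^ 2 + 1) * PowerSeries.mk (pa x n) - (X ^ 2 + 1) * C (pa x n 0) := by
  have : (C (1 - x) * X ^ 2 + 1) * PowerSeries.mk (pa x n) - (X ^ 2 + 1) * C (pa x n 0) =
      X * (X * (C (1 - x) * PowerSeries.mk (pa x n) - C (pa x n 0))) +
        (PowerSeries.mk (pa x n) - C (pa x n 0)) := by ring
  rw [this]
  ext c
  rcases c with _ | _ | _ | c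
  · simp
  · simp [coeff_succ_X_mul, pa]
  · simp [coeff_succ_X_mul, pa]
    ring
  · rw [coeff_succ_X_mul, map_add, coeff_succ_X_mul, coeff_succ_X_mul, map_sub, coeff_C_mul]
    simp [pa]
    ring

theorem pa_rec [IsDomain R] [Algebra ℚ R] (n : ℕ) : pa x (n + 1) 0 =
    -∑ j ∈ range (n + 1), (n.choose j : R) * (x * gf x j 1 * pa x (n - j) 0) := by
  have : CharZero R⟦X⟧ := algebraRat.charZero _
  set U : R⟦X⟧⟦X⟧ := egf (uu x) with hU
  set Y : R⟦X⟧⟦X⟧ := egf fun n => PowerSeries.mk (pa x n) with hY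
  set Φ : R⟦X⟧⟦X⟧ := egf fun n => C (pa x n 0) with hΦ
  set U1 : R⟦X⟧⟦X⟧ := egf fun n => C (x * gf x n 1) with hU1
  set Y1 : R⟦X⟧⟦X⟧ := egf fun n => C (pa x n 1) with hY1
  set t : R⟦X⟧⟦X⟧ := C X with ht
  set s : R⟦X⟧⟦X⟧ := C (C (1 - x)) with hs
  have e1 : t * d⁄dX _ U = (t ^ 2 * (U - s) + (U - 1) - t * U1) * U := by
    rw [← mul_one s, ← egf_one, hU, hU1, ht, hs, egf_deriv, ← map_pow]
    simp only [C_mul_egf, egf_sub, egf_add, egf_mul, uu_succ]
  have e2 : t * d⁄dX _ Y = (s * t ^ 2 + 1) * Y - (t ^ 2 + 1) * Φ := by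
    rw [hY, hΦ, ht, hs, egf_deriv, ← map_pow, ← map_mul, ← map_one (C : R⟦X⟧ →+* R⟦X⟧⟦X⟧),
      ← map_add, ← map_add]
    simp only [C_mul_egf, egf_sub, pa_succ]
  have e3 : d⁄dX _ Φ = Y1 := by rw [hΦ, egf_deriv]; rfl
  have e4 : t * d⁄dX _ (U * Y - Φ) =
      ((t ^ 2 + 1) * U - t * U1) * (U * Y - Φ) - t * (U1 * Φ + Y1) := by
    rw [deriv_mul_sub, e3]
    linear_combination U * e2 + Y * e1
  have e5 : ∀ m, coeff m (U * Y - Φ) = 0 → coeff m (U1 * Φ + Y1) = 0 := by
    intro m
    rw [hU, hY, hΦ, hU1, hY1, egf_mul, egf_mul, egf_sub, egf_add, coeff_egf_eq_zero,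
      coeff_egf_eq_zero]
    intro h
    have h1 := congrArg (fun f => (C (coeff 1 f) : R⟦X⟧)) h
    simp only [map_sub, map_sum, map_zero, coeff_C, one_ne_zero, if_false, sub_zero] at h1
    rw [← h1]
    have h2 : ∀ j, (C (coeff 1 ((m.choose j : R⟦X⟧) * (uu x j * PowerSeries.mk (pa x (m - j))))) :
        R⟦X⟧) = (m.choose j : R⟦X⟧) * (C (x * gf x j 1) * C (pa x (m - j) 0)) +
          if j = 0 then C (pa x m 1) else 0 := by
      intro j
      rw [← map_natCast (C : R →+* R⟦X⟧), coeff_C_mul, coeff_mul, Nat.antidiagonal_succ]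
      by_cases hj : j = 0
      · simp [uu, hj, gf_nil, add_comm]
      · simp [uu, hj, gf_nil]
    simp only [h2, sum_add_distrib]
    simp
  have e6 : ∀ m, (X : R⟦X⟧⟦X⟧) ^ (m + 1) ∣ U * Y - Φ := by
    intro m
    induction m with
    | zero =>
      rw [zero_add, pow_one, X_dvd_iff, ← coeff_zero_eq_constantCoeff_apply, hU, hY, hΦ, egf_mul,
        egf_sub, coeff_egf_eq_zero]
      have a1 : uu x 0 = 1 := by
        ext c
        cases c <;> simp [uu, gf_zero, coeff_one]
      have a2 : (PowerSeries.mk (pa x 0) : R⟦X⟧) = 1 := by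
        ext c
        cases c <;> simp [pa, coeff_one]
      rw [sum_range_one, Nat.sub_self, a1, a2]
      simp [pa]
    | succ m ih =>
      have h1 : (X : R⟦X⟧⟦X⟧) ^ (m + 1) ∣ U1 * Φ + Y1 :=
        X_pow_dvd_iff.2 fun j hj => e5 j (X_pow_dvd_iff.1 ih j hj)
      have h2 : (X : R⟦X⟧⟦X⟧) ^ (m + 1) ∣ t * d⁄dX _ (U * Y - Φ) := by
        rw [e4]
        exact (ih.mul_left _).sub (h1.mul_left _)
      have h3 := X_pow_dvd_iff.1 h2 m (Nat.lt_succ_self m)
      rw [ht, coeff_C_mul, coeff_derivative, mul_eq_zero, mul_eq_zero] at h3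
      refine X_pow_dvd_iff.2 fun j hj => ?_
      rcases Nat.lt_succ_iff_lt_or_eq.1 hj with h | rfl
      · exact X_pow_dvd_iff.1 ih j h
      · rcases h3 with h | h | h
        · exact absurd h X_ne_zero
        · exact h
        · exact absurd h (by exact_mod_cast Nat.succ_ne_zero m)
  have e7 := e5 n (X_pow_dvd_iff.1 (e6 n) n (Nat.lt_succ_self n))
  rw [hΦ, hU1, hY1, egf_mul, egf_add, coeff_egf_eq_zero] at e7
  have e8 := congrArg (fun f : R⟦X⟧ => constantCoeff f) e7
  simp only [map_add, map_sum, map_mul, map_natCast, constantCoeff_C, map_zero] at e8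
  rw [pa]
  linear_combination e8

/-- Ballot paths with weight `1 - x` on the down steps. -/
def pb : ℕ → ℕ → R
  | 0, c => if c = 0 then 1 else 0
  | n + 1, 0 => pb n 1
  | n + 1, c + 1 => pb n (c + 2) + (1 - x) * pb n c

theorem pb_eq : ∀ n c : ℕ, pb x n c = if (n + c) % 2 = 0 then (1 - x) ^ ((n + c) / 2) *
    ((n.choose ((n + c) / 2) : R) - n.choose ((n + c) / 2 + 1)) else 0
  | 0, c => by
    rcases c with _ | c
    · simp [pb]
    · simp only [pb, Nat.succ_ne_zero, if_false, zero_add]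
      split_ifs with h
      · rw [Nat.choose_eq_zero_of_lt (by omega), Nat.choose_eq_zero_of_lt (by omega)]; simp
      · rfl
  | n + 1, 0 => by
    rw [pb, pb_eq n 1, add_zero]
    split_ifs with h
    · obtain ⟨t, rfl⟩ : ∃ t, n = 2 * t + 1 := ⟨n / 2, by omega⟩
      rw [show (2 * t + 1 + 1) / 2 = t + 1 by omega, Nat.choose_succ_succ' (2 * t + 1) t,
        Nat.choose_succ_succ' (2 * t + 1) (t + 1), Nat.choose_symm_half]
      push_cast
      ring
    · rfl
  | n + 1, c + 1 => by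
    rw [pb, pb_eq n (c + 2), pb_eq n c]
    by_cases h : (n + c) % 2 = 0
    · rw [if_pos h, if_pos (by omega), if_pos (by omega),
        show (n + (c + 2)) / 2 = (n + c) / 2 + 1 by omega,
        show (n + 1 + (c + 1)) / 2 = (n + c) / 2 + 1 by omega, Nat.choose_succ_succ' n,
        Nat.choose_succ_succ' n]
      push_cast
      ring
    · rw [if_neg h, if_neg (by omega), if_neg (by omega)]
      simp

theorem pa_pb : ∀ n c : ℕ, pa x (n + 2) c + x ^ 2 * pa x n c =
    -x * (1 - x) * (pb x n c + if 2 ≤ c then pb x n (c - 2) else 0)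
  | 0, c => by
    rcases c with _ | _ | _ | _ | c <;> simp [pa, pb] <;> ring
  | n + 1, 0 => by
    have := pa_pb n 1
    show pa x (n + 2) 1 + x ^ 2 * pa x n 1 = -x * (1 - x) * (pb x n 1 + 0)
    simpa using this
  | n + 1, 1 => by
    have h1 := pa_pb n 2
    have h2 := pa_pb n 0
    show (pa x (n + 2) 2 - x * pa x (n + 2) 0) + x ^ 2 * (pa x n 2 - x * pa x n 0) =
      -x * (1 - x) * ((pb x n 2 + (1 - x) * pb x n 0) + 0)
    rw [if_pos le_rfl] at h1
    rw [if_neg (by omega)] at h2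
    linear_combination h1 - x * h2
  | n + 1, 2 => by
    have h1 := pa_pb n 3
    have h2 := pa_pb n 1
    show (pa x (n + 2) 3 + (1 - x) * pa x (n + 2) 1) + x ^ 2 * (pa x n 3 + (1 - x) * pa x n 1) =
      -x * (1 - x) * ((pb x n 3 + (1 - x) * pb x n 1) + pb x n 1)
    rw [if_pos (by omega)] at h1
    rw [if_neg (by omega)] at h2
    linear_combination h1 + (1 - x) * h2
  | n + 1, c + 3 => by
    have h1 := pa_pb n (c + 4)
    have h2 := pa_pb n (c + 2)
    rw [if_pos (by omega), show c + 3 - 2 = c + 1 by omega]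
    show (pa x (n + 2) (c + 4) + (1 - x) * pa x (n + 2) (c + 2)) + x ^ 2 * (pa x n (c + 4) +
      (1 - x) * pa x n (c + 2)) = -x * (1 - x) * ((pb x n (c + 4) + (1 - x) * pb x n (c + 2)) +
        (pb x n (c + 2) + (1 - x) * pb x n c))
    rw [if_pos (by omega), show c + 4 - 2 = c + 2 by omega] at h1
    rw [if_pos (by omega), show c + 2 - 2 = c by omega] at h2
    linear_combination h1 + (1 - x) * h2

theorem choose_sub_eq_catalan (n : ℕ) :
    ((2 * n).choose n : ℤ) - (2 * n).choose (n + 1) = catalan n := by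
  have h1 := Nat.choose_succ_right_eq (2 * n) n
  have h2 := succ_mul_catalan_eq_centralBinom n
  rw [Nat.centralBinom_eq_two_mul_choose] at h2
  rw [show 2 * n - n = n by omega] at h1
  have h1' : ((2 * n).choose (n + 1) : ℤ) * (n + 1) = (2 * n).choose n * n := by exact_mod_cast h1
  have h2' : ((n : ℤ) + 1) * catalan n = (2 * n).choose n := by exact_mod_cast h2
  apply mul_left_cancel₀ (show (n : ℤ) + 1 ≠ 0 by positivity)
  linear_combination -h1' - h2'

/-- The even moments. -/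
def mo (n : ℕ) : R := pa x (2 * n) 0

theorem mo_zero : mo x 0 = 1 := by simp [mo, pa]

theorem mo_succ (n : ℕ) : mo x (n + 1) = -x * (1 - x) ^ (n + 1) * catalan n - x ^ 2 * mo x n := by
  have h := pa_pb x (2 * n) 0
  have h2 := congrArg (Int.cast : ℤ → R) (choose_sub_eq_catalan n)
  rw [pb_eq, if_pos (by omega), show (2 * n + 0) / 2 = n by omega] at h
  push_cast at h2
  rw [h2] at h
  simp only [mo, nonpos_iff_eq_zero, OfNat.ofNat_ne_zero, if_false, add_zero] at h ⊢
  rw [show 2 * (n + 1) = 2 * n + 2 by ring]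
  linear_combination h

theorem pa_odd (n : ℕ) : pa x (2 * n + 1) 0 = 0 := by
  induction n with
  | zero => simp [pa]
  | succ n ih =>
    have h := pa_pb x (2 * n + 1) 0
    rw [pb_eq, if_neg (by omega), ih] at h
    rw [show 2 * (n + 1) + 1 = 2 * n + 1 + 2 by ring]
    simpa using h

theorem sum_range_two_mul (f : ℕ → R) (k : ℕ) :
    ∑ i ∈ range (2 * k), f i = ∑ j ∈ range k, (f (2 * j) + f (2 * j + 1)) := by
  induction k with
  | zero => simp
  | succ k ih => rw [show 2 * (k + 1) = 2 * k + 1 + 1 by ring, sum_range_succ, sum_range_succ, ih,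
      sum_range_succ, add_assoc]

/-- The value of `Q (2 k + 2)`. -/
noncomputable def qq (k : ℕ) : R := x * gf x (2 * k + 1) 1

theorem qq_rec [IsDomain R] [Algebra ℚ R] (k : ℕ) : mo x (k + 1) =
    -∑ j ∈ range (k + 1), ((2 * k + 1).choose (2 * j + 1) : R) * (qq x j * mo x (k - j)) := by
  rw [mo, show 2 * (k + 1) = 2 * k + 1 + 1 by ring, pa_rec,
    show 2 * k + 1 + 1 = 2 * (k + 1) by ring, sum_range_two_mul]
  congr 1
  refine sum_congr rfl fun j hj => ?_
  have hj' : j ≤ k := Nat.lt_succ_iff.1 (mem_range.1 hj)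
  rw [show 2 * k + 1 - 2 * j = 2 * (k - j) + 1 by omega, pa_odd,
    show 2 * k + 1 - (2 * j + 1) = 2 * (k - j) by omega]
  simp [qq, mo]

end paths

theorem aeval_Q (k : ℕ) : (Trees (2 * k + 1)).Finite ∧
    ∀ (R : Type) [CommRing R] (x : R), Polynomial.aeval x (Q (2 * k + 2)) = qq x k := by
  obtain ⟨s, hs, h⟩ := trees_sum (m := 2 * k + 1) (by omega)
  refine ⟨hs ▸ s.finite_toSet, fun R _ x => ?_⟩
  rw [Q, show 2 * k + 2 - 1 = 2 * k + 1 from rfl, ← hs, finsum_mem_coe_finset, map_sum, qq, ← h,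
    mul_sum]
  simp [pow_succ']

theorem abs_gf_le (k : ℕ) {x b : ℝ} (h : |x| ≤ b) :
    |gf x (2 * k + 1) 1| ≤ gf b (2 * k + 1) 1 := by
  obtain ⟨s, -, hs⟩ := trees_sum (m := 2 * k + 1) (by omega)
  rw [← hs, ← hs]
  refine (abs_sum_le_sum_abs _ _).trans (sum_le_sum fun T _ => ?_)
  rw [abs_pow]
  exact pow_le_pow_left₀ (abs_nonneg _) h _

theorem map_gf {R S : Type} [CommRing R] [CommRing S] (f : R →+* S) (x : R) (k : ℕ) :
    f (gf x (2 * k + 1) 1) = gf (f x) (2 * k + 1) 1 := by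
  obtain ⟨s, -, hs⟩ := trees_sum (m := 2 * k + 1) (by omega)
  rw [← hs, ← hs, map_sum]
  simp

theorem map_mo {R S : Type} [CommRing R] [CommRing S] (f : R →+* S) (x : R) (n : ℕ) :
    f (mo x n) = mo (f x) n := by
  induction n with
  | zero => simp [mo_zero]
  | succ n ih => simp [mo_succ, ih]

end Pool.Agent.P.MP_ee6314_co
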