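import Pool.Agent.P.MP_ee6314_co.Asym

/-! Location of the approximate zeros for small values of the parameter. -/

namespace Pool.Agent.P.MP_ee6314_co

open Real

/-- The parameter for which the leading term equals one at `ξ`. -/
noncomputable def yA (ξ : ℝ) : ℝ := 8 * √π * ((ξ - 7 / 8) * √(ξ - 7 / 8)) * exp (-(2 * ξ))

variable {ξ : ℝ}

theorem yA_pos (h : 12 ≤ ξ) : 0 < yA ξ := by
  have : 0 < ξ - 7 / 8 := by linarith
  unfold yA; positivity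

theorem kap_yA (h : 12 ≤ ξ) {x : ℝ} (h0 : 0 ≤ x) (hx : x ≤ 2 * ξ) :
    kap (yA ξ) * x ^ 4 ≤ 1 / 10 ^ 5 := by
  have hy := yA_pos h
  have hs : √π ≤ 2 := by rw [sqrt_le_left (by norm_num)]; linarith [pi_lt_d2]
  have h1 : √(ξ - 7 / 8) ≤ ξ / 3 := by rw [sqrt_le_left (by linarith)]; nlinarith
  have h2 : yA ξ ≤ 8 * 2 * (ξ * (ξ / 3)) * exp (-(2 * ξ)) := by
    unfold yA
    have : 0 ≤ ξ - 7 / 8 := by linarith
    gcongr; linarith
  have h3 := pow_six_le (x := ξ) (by linarith)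
  have h4 := quadratic_le_exp_of_nonneg (x := ξ / 2) (by linarith)
  have h5 : 144 ≤ ξ ^ 2 := by nlinarith
  have h6 : ξ ^ 4 * (144 * 25) ≤ ξ ^ 4 * (ξ ^ 2 * exp (ξ / 2)) := by gcongr; linarith
  have h7 : ξ ^ 4 * exp (-(2 * ξ)) ≤ 1 / 40000 := by
    rw [exp_neg, ← div_eq_mul_inv, div_le_iff₀ (exp_pos _)]
    have : ξ ^ 4 * (ξ ^ 2 * exp (ξ / 2)) = ξ ^ 6 * exp (ξ / 2) := by ring
    linarith [exp_pos (2 * ξ)]
  have h8 : yA ξ * x ^ 2 ≤ 1 / 1000 := by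
    calc _ ≤ 8 * 2 * (ξ * (ξ / 3)) * exp (-(2 * ξ)) * (2 * ξ) ^ 2 := by gcongr
      _ = 64 / 3 * (ξ ^ 4 * exp (-(2 * ξ))) := by ring
      _ ≤ _ := by linarith
  calc _ ≤ yA ξ ^ 2 * x ^ 4 := by
        gcongr
        exact div_le_self (sq_nonneg _) (by linarith)
    _ = (yA ξ * x ^ 2) ^ 2 := by ring
    _ ≤ (1 / 1000) ^ 2 := by gcongr
    _ ≤ _ := by norm_num

theorem yA_mul_aa (h : 12 ≤ ξ) (v : ℂ) : yA ξ * aa v = Complex.exp (2 * (v - ξ) -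
    3 / 2 * (Complex.log (v - 7 / 8) - (log (ξ - 7 / 8) : ℝ))) := by
  have h0 : 0 < ξ - 7 / 8 := by linarith
  have e : yA ξ = 8 * √π * exp (3 / 2 * log (ξ - 7 / 8) - 2 * ξ) := by
    rw [yA, sub_eq_add_neg _ (2 * ξ), exp_add, show 3 / 2 * log (ξ - 7 / 8) =
      log (ξ - 7 / 8) + log (ξ - 7 / 8) * (1 / 2) by ring, exp_add, exp_log h0,
      ← rpow_def_of_pos h0, ← sqrt_eq_rpow]
    ring
  have h1 : ((8 * √π : ℝ) : ℂ) ≠ 0 := by exact_mod_cast (by positivity)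
  rw [e, aa, Complex.ofReal_mul, mul_assoc, mul_div_assoc', mul_div_assoc',
    mul_div_cancel_left₀ _ h1, Complex.ofReal_exp, ← Complex.exp_add]
  congr 1
  push_cast
  ring

theorem PsiR_le (h : 12 ≤ ξ) {x : ℝ} (h1 : 11.4 ≤ x) (h2 : x ≤ 2 * ξ) : PsiR (yA ξ) x - 1 ≤
    1.019 * exp (2 * (x - ξ) - 3 / 2 * (log (x - 7 / 8) - log (ξ - 7 / 8))) := by
  have hy := yA_pos h
  have a := asym hy (v := x) (by simpa using h1)
    (by rw [Complex.norm_real, Complex.ofReal_re, norm_of_nonneg (by linarith)]; linarith)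
    (kap_yA h (by simp; linarith) (by simpa using h2))
  have e : yA ξ * ‖aa x‖ = ‖yA ξ * aa x‖ := by
    rw [norm_mul, Complex.norm_real, norm_of_nonneg hy.le]
  have e2 : yA ξ * aa x =
      (exp (2 * (x - ξ) - 3 / 2 * (log (x - 7 / 8) - log (ξ - 7 / 8))) : ℝ) := by
    rw [yA_mul_aa h, Complex.ofReal_exp, show (x : ℂ) - 7 / 8 = ((x - 7 / 8 : ℝ) : ℂ) by simp,
      ← Complex.ofReal_log (by linarith)]
    push_cast
    rfl
  rw [e, e2, Psi_ofReal, ← Complex.ofReal_one, ← Complex.ofReal_sub, ← Complex.ofReal_sub,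
    Complex.norm_real, Complex.norm_real, Complex.ofReal_re, norm_of_nonneg (exp_pos _).le] at a
  have b : 2.42 / x ^ 2 ≤ 0.019 := by rw [div_le_iff₀ (by positivity)]; nlinarith
  have c := mul_le_mul_of_nonneg_right b
    (exp_pos (2 * (x - ξ) - 3 / 2 * (log (x - 7 / 8) - log (ξ - 7 / 8)))).le
  linarith [le_abs_self (PsiR (yA ξ) x - 1 -
    exp (2 * (x - ξ) - 3 / 2 * (log (x - 7 / 8) - log (ξ - 7 / 8)))), norm_eq_abs (PsiR (yA ξ) x - 1 -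
    exp (2 * (x - ξ) - 3 / 2 * (log (x - 7 / 8) - log (ξ - 7 / 8))))]

theorem log_sub_le {a b : ℝ} (ha : 0 < a) (hb : 0 < b) : log a - log b ≤ (a - b) / b := by
  rw [← log_div ha.ne' hb.ne', sub_div, div_self hb.ne']
  exact log_le_sub_one_of_pos (by positivity)

theorem PsiR_far (h : 12 ≤ ξ) : PsiR (yA ξ) (1.65 * ξ) ≤ exp (1.3 * ξ + 0.03) := by
  have h1 := PsiR_le h (x := 1.65 * ξ) (by linarith) (by linarith)
  have h2 : log (ξ - 7 / 8) ≤ log (1.65 * ξ - 7 / 8) := log_le_log (by linarith) (by linarith)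
  have h3 : exp (2 * (1.65 * ξ - ξ) - 3 / 2 * (log (1.65 * ξ - 7 / 8) - log (ξ - 7 / 8))) ≤
      exp (1.3 * ξ) := exp_le_exp.2 (by linarith)
  have h4 := quadratic_le_exp_of_nonneg (x := 1.3 * ξ) (by linarith)
  have h5 : 100 ≤ exp (1.3 * ξ) := by nlinarith
  have h6 := add_one_le_exp (0.03 : ℝ)
  rw [exp_add]
  nlinarith

theorem re_gt (h : 12 ≤ ξ) {v : ℂ} (h0 : 0 ≤ v.re) (hv : ‖v‖ ≤ 1.1 * ξ)
    (hz : ‖Psi (yA ξ) v‖ ≤ 0.1) : ξ - 0.6 < v.re := by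
  by_contra hc
  have h1 := norm_Psi_sub_one (yA_pos h) (v := v) (a := ξ - 0.6) (by linarith)
    (by rw [abs_of_nonneg h0]; exact not_lt.1 hc)
  have h2 := PsiR_le h (x := ξ - 0.6) (by linarith) (by linarith)
  have h3 := log_sub_le (a := ξ - 7 / 8) (b := ξ - 0.6 - 7 / 8) (by linarith) (by linarith)
  have h4 : (ξ - 7 / 8 - (ξ - 0.6 - 7 / 8)) / (ξ - 0.6 - 7 / 8) ≤ 0.06 := by
    rw [div_le_iff₀ (by linarith)]; linarith
  have h5 : exp (2 * (ξ - 0.6 - ξ) - 3 / 2 * (log (ξ - 0.6 - 7 / 8) - log (ξ - 7 / 8))) ≤ 0.37 := by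
    refine (exp_le_exp.2 (show _ ≤ -1 by linarith)).trans ?_
    linarith [exp_neg_one_lt_d9]
  have h6 : v.im ^ 2 / (ξ - 0.6) ^ 2 ≤ 1.35 := by
    rw [div_le_iff₀ (by apply pow_pos; linarith)]
    have := (Complex.abs_im_le_norm v).trans hv
    have h7 : v.im ^ 2 ≤ (1.1 * ξ) ^ 2 := by rw [← sq_abs]; gcongr
    nlinarith
  have h7 := norm_sub_norm_le (1 : ℂ) (Psi (yA ξ) v)
  rw [norm_sub_rev, norm_one] at h7
  have h8 : (1 + v.im ^ 2 / (ξ - 0.6) ^ 2) * (PsiR (yA ξ) (ξ - 0.6) - 1) ≤ 2.35 * (1.019 * 0.37) := by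
    rcases le_total 0 (PsiR (yA ξ) (ξ - 0.6) - 1) with h | h
    · gcongr <;> linarith
    · exact (mul_nonpos_of_nonneg_of_nonpos (by positivity) h).trans (by norm_num)
  linarith

theorem arctan_le_self {u : ℝ} (h : 0 ≤ u) : arctan u ≤ u := by
  conv_rhs => rw [← tan_arctan u]
  exact le_tan (arctan_nonneg.2 h) (arctan_lt_pi_div_two u)

theorem sub_arctan_le {u : ℝ} (h : 0 ≤ u) : u - arctan u ≤ u ^ 3 / 3 := by
  have hd : ∀ x, HasDerivAt (fun x => x ^ 3 / 3 - x + arctan x)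
      (x ^ 2 - 1 + 1 / (1 + x ^ 2)) x := fun x =>
    HasDerivAt.congr_deriv ((((hasDerivAt_pow 3 x).div_const 3).sub (hasDerivAt_id x)).add
      (hasDerivAt_arctan x)) (by push_cast; ring)
  have hm : Monotone fun x => x ^ 3 / 3 - x + arctan x :=
    monotone_of_deriv_nonneg (fun x => (hd x).differentiableAt) fun x => by
      rw [(hd x).deriv, show x ^ 2 - 1 + 1 / (1 + x ^ 2) = x ^ 4 / (1 + x ^ 2) by
        field_simp; ring]
      positivity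
  have := hm h
  simp only [arctan_zero] at this
  linarith

theorem arg_eq_arctan {v : ℂ} (h : 0 < v.re) : v.arg = arctan (v.im / v.re) := by
  have := abs_lt.1 (Complex.abs_arg_lt_pi_div_two_iff.2 (Or.inl h))
  rw [← Complex.tan_arg, arctan_tan this.1 this.2]

theorem near_eq (h : 12 ≤ ξ) {v : ℂ} (h0 : 0 ≤ v.re) (hv : ‖v‖ ≤ 1.1 * ξ)
    (hz : ‖Psi (yA ξ) v‖ ≤ 0.008 / ξ ^ 2) : ξ - 0.6 < v.re ∧ ∃ (n : ℤ) (e₁ e₂ : ℝ),
      |e₁| ≤ 2.8 / ξ ^ 2 ∧ |e₂| ≤ 2.8 / ξ ^ 2 ∧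
      2 * (v.re - ξ) - 3 / 2 * (log ‖v - 7 / 8‖ - log (ξ - 7 / 8)) = e₁ ∧
      2 * v.im - 3 / 2 * arctan (v.im / (v.re - 7 / 8)) = π * (2 * n + 1) + e₂ := by
  have hy := yA_pos h
  have hξ : 144 ≤ ξ ^ 2 := by nlinarith
  have hx := re_gt h h0 hv (hz.trans (by rw [div_le_iff₀ (by positivity)]; linarith))
  refine ⟨hx, ?_⟩
  have hx2 := (Complex.re_le_norm v).trans hv
  have a := asym hy (v := v) (by linarith) (by linarith) (kap_yA h h0 (by linarith))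
  rw [show yA ξ * ‖aa v‖ = ‖yA ξ * aa v‖ by
    rw [norm_mul, Complex.norm_real, norm_of_nonneg hy.le]] at a
  set w := yA ξ * aa v with hw
  have b1 : 2.42 / v.re ^ 2 ≤ 2.6815 / ξ ^ 2 := by
    rw [div_le_div_iff₀ (by apply pow_pos; linarith) (by positivity)]
    have : (0.95 * ξ) ^ 2 ≤ v.re ^ 2 := by gcongr; linarith
    linarith
  have b2 : 1 / ξ ^ 2 ≤ 1 / 144 := one_div_le_one_div_of_le (by norm_num) hξ
  have b3 : 0 < 1 / ξ ^ 2 := by positivity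
  rw [show 2.6815 / ξ ^ 2 = 2.6815 * (1 / ξ ^ 2) by ring] at b1
  rw [show 0.008 / ξ ^ 2 = 0.008 * (1 / ξ ^ 2) by ring] at hz
  rw [show 2.8 / ξ ^ 2 = 2.8 * (1 / ξ ^ 2) by ring]
  generalize 1 / ξ ^ 2 = g at *
  have c1 : ‖w‖ ≤ 1 + ‖-1 - w‖ := by
    have := norm_sub_le (-1) (-1 - w)
    rwa [sub_sub_cancel, norm_neg, norm_one] at this
  have c2 : ‖-1 - w‖ ≤ ‖Psi (yA ξ) v - 1 - w‖ + ‖Psi (yA ξ) v‖ := by
    have := norm_sub_le (Psi (yA ξ) v - 1 - w) (Psi (yA ξ) v)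
    rwa [show Psi (yA ξ) v - 1 - w - Psi (yA ξ) v = -1 - w by ring] at this
  have c3 := mul_le_mul b1 c1 (norm_nonneg _) (by positivity)
  have c4 : ‖-1 - w‖ ≤ 2.742 * g := by nlinarith [norm_nonneg (-1 - w)]
  have c5 : ‖-1 - w‖ ≤ 0.02 := by linarith
  have c6 := Complex.norm_log_one_add_le (z := -1 - w) (by linarith)
  have c7 : (1 - ‖-1 - w‖)⁻¹ ≤ 1.03 := by
    rw [inv_le_comm₀ (by linarith) (by norm_num)]; norm_num; linarith
  have c8 : ‖Complex.log (1 + (-1 - w))‖ ≤ 2.8 * g := by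
    have := mul_le_mul_of_nonneg_left c7 (sq_nonneg ‖-1 - w‖)
    nlinarith [norm_nonneg (-1 - w)]
  set L := Complex.log (1 + (-1 - w)) with hL
  have d1 : Complex.exp (L + π * Complex.I) = w := by
    rw [Complex.exp_add, Complex.exp_pi_mul_I, hL, Complex.exp_log]
    · ring
    · intro h0
      rw [show -1 - w = -1 by linear_combination h0] at c5
      norm_num at c5
  rw [hw, yA_mul_aa h, eq_comm, Complex.exp_eq_exp_iff_exists_int] at d1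
  obtain ⟨n, hn⟩ := d1
  refine ⟨n, L.re, L.im, (Complex.abs_re_le_norm L).trans c8, (Complex.abs_im_le_norm L).trans c8,
    ?_, ?_⟩
  · have := congrArg Complex.re hn
    simpa [Complex.log_re] using this
  · have := congrArg Complex.im hn
    simp [Complex.log_im] at this
    rw [arg_eq_arctan (by simp; linarith)] at this
    simp at this
    linarith

/-- Location data of an approximate zero `x + t i` on the `J`-th branch. -/
structure Loc (ξ x t : ℝ) (J : ℕ) : Prop where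
  odd : Odd J
  lo : ξ - 1.514 / ξ ^ 2 ≤ x
  hi : x ≤ ξ + 1.37 * (J / ξ) ^ 2 + 1.514 / ξ ^ 2
  t0 : 0 ≤ t
  t1 : t ≤ 1.7 * J
  t2 : π * J - 2.8 / ξ ^ 2 ≤ 2 * t
  ph : ∃ φ e : ℝ, 0 ≤ φ ∧ φ ≤ 2.07 * (J / ξ) ^ 3 ∧ |e| ≤ 2.8 / ξ ^ 2 ∧
    t * (2 - 1.5 / (x - 7 / 8)) = π * J + e - 1.5 * φ

theorem loc_real (h : 12 ≤ ξ) {x t u e₁ e₂ : ℝ} {n : ℤ} (hx : ξ - 0.6 < x) (ht : 0 ≤ t)
    (hu : u = t / (x - 7 / 8)) (h1 : |e₁| ≤ 2.8 / ξ ^ 2) (h2 : |e₂| ≤ 2.8 / ξ ^ 2)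
    (h3 : 2 * (x - ξ) - 3 / 2 * (log (x - 7 / 8) + log (1 + u ^ 2) / 2 - log (ξ - 7 / 8)) = e₁)
    (h4 : 2 * t - 3 / 2 * arctan u = π * (2 * n + 1) + e₂) : ∃ J, Loc ξ x t J := by
  have hb : 0 < x - 7 / 8 := by linarith
  have hξ : 144 ≤ ξ ^ 2 := by nlinarith
  have hξ0 : 0 < ξ := by linarith
  have g1 : 2.8 / ξ ^ 2 ≤ 0.0195 := by rw [div_le_iff₀ (by positivity)]; linarith
  have g2 : 1.514 / ξ ^ 2 = 1.514 / 2.8 * (2.8 / ξ ^ 2) := by ring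
  have g0 : 0 < 2.8 / ξ ^ 2 := by positivity
  have u0 : 0 ≤ u := by rw [hu]; positivity
  have l0 : 0 ≤ log (1 + u ^ 2) := log_nonneg (by linarith [sq_nonneg u])
  have l1 : log (1 + u ^ 2) ≤ u ^ 2 := by
    linarith [log_le_sub_one_of_pos (show 0 < 1 + u ^ 2 by positivity)]
  have a1 := arctan_le_self u0
  have a2 := sub_arctan_le u0
  have a0 := arctan_nonneg.2 u0
  rw [abs_le] at h1
  have lo : ξ - 1.514 / ξ ^ 2 ≤ x := by
    rcases le_total ξ x with c | c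
    · linarith
    · have b1 := log_sub_le (a := ξ - 7 / 8) (b := x - 7 / 8) (by linarith) hb
      have b2 : (ξ - 7 / 8 - (x - 7 / 8)) / (x - 7 / 8) ≤ (ξ - x) / 10 := by
        rw [show ξ - 7 / 8 - (x - 7 / 8) = ξ - x by ring]
        exact div_le_div_of_nonneg_left (by linarith) (by norm_num) (by linarith)
      linarith
  have hx1 : 0.9262 * ξ ≤ x - 7 / 8 := by linarith
  have ut : u ≤ 0.09 * t := by
    rw [hu, div_le_iff₀ hb]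
    have : t * 11.112 ≤ t * (x - 7 / 8) := mul_le_mul_of_nonneg_left (by linarith) ht
    linarith
  have h2' := abs_le.1 h2
  have hn : 0 ≤ n := by
    by_contra c
    have c1 : (n : ℝ) ≤ -1 := by exact_mod_cast (by omega : n ≤ -1)
    have c2 : π * (2 * n + 1) ≤ π * (-1) := mul_le_mul_of_nonneg_left (by linarith) pi_pos.le
    linarith [pi_gt_three]
  obtain ⟨m, rfl⟩ := Int.eq_ofNat_of_zero_le hn
  have hJ : ((2 * m + 1 : ℕ) : ℝ) = 2 * ((m : ℤ) : ℝ) + 1 := by push_cast; ring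
  rw [← hJ] at h4
  have J1 : (1 : ℝ) ≤ (2 * m + 1 : ℕ) := by exact_mod_cast (by omega)
  refine ⟨2 * m + 1, ?_⟩
  have ho : Odd (2 * m + 1) := odd_two_mul_add_one m
  generalize 2 * m + 1 = J at *
  have t1 : t ≤ 1.7 * J := by
    have : π * J ≤ 3.1416 * J := mul_le_mul_of_nonneg_right pi_lt_d4.le (by linarith)
    linarith
  have τ0 : 0 ≤ J / ξ := by positivity
  have u1 : u ≤ 1.838 * (J / ξ) := by
    rw [hu, div_le_iff₀ hb]
    have : 1.838 * (J / ξ) * (0.9262 * ξ) ≤ 1.838 * (J / ξ) * (x - 7 / 8) := by gcongr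
    rw [show 1.838 * (J / ξ) * (0.9262 * ξ) = 1.838 * 0.9262 * J by field_simp] at this
    linarith
  refine ⟨ho, lo, ?_, ht, t1, by linarith, u - arctan u, e₂, by linarith, ?_, h2, ?_⟩
  · have u2 : u ^ 2 ≤ (1.838 * (J / ξ)) ^ 2 := by gcongr
    have u3 : 0 ≤ (J / ξ) ^ 2 := by positivity
    rw [mul_pow] at u2
    rcases le_total x ξ with c | c
    · linarith
    · have b1 := log_sub_le (a := x - 7 / 8) (b := ξ - 7 / 8) hb (by linarith)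
      have b2 : (x - 7 / 8 - (ξ - 7 / 8)) / (ξ - 7 / 8) ≤ (x - ξ) / 10 := by
        rw [show x - 7 / 8 - (ξ - 7 / 8) = x - ξ by ring]
        exact div_le_div_of_nonneg_left (by linarith) (by norm_num) (by linarith)
      linarith
  · have u3 : u ^ 3 ≤ (1.838 * (J / ξ)) ^ 3 := by gcongr
    have : 0 ≤ (J / ξ) ^ 3 := by positivity
    rw [mul_pow] at u3
    linarith
  · rw [mul_sub, show t * (1.5 / (x - 7 / 8)) = 1.5 * u by rw [hu]; ring]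
    linarith

theorem loc (h : 12 ≤ ξ) {v : ℂ} (h0 : 0 ≤ v.re) (ht : 0 ≤ v.im) (hv : ‖v‖ ≤ 1.1 * ξ)
    (hz : ‖Psi (yA ξ) v‖ ≤ 0.008 / ξ ^ 2) : ∃ J, Loc ξ v.re v.im J := by
  obtain ⟨hx, n, e₁, e₂, h1, h2, h3, h4⟩ := near_eq h h0 hv hz
  have hb : 0 < v.re - 7 / 8 := by linarith
  have e : log ‖v - 7 / 8‖ = log (v.re - 7 / 8) + log (1 + (v.im / (v.re - 7 / 8)) ^ 2) / 2 := by
    have : ‖v - 7 / 8‖ ^ 2 = (v.re - 7 / 8) ^ 2 * (1 + (v.im / (v.re - 7 / 8)) ^ 2) := by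
      rw [Complex.sq_norm, Complex.normSq_apply, mul_add, ← mul_pow, mul_div_cancel₀ _ hb.ne']
      simp
      ring
    have h5 := congrArg log this
    rw [log_mul (by positivity) (by positivity), log_pow, log_pow] at h5
    push_cast at h5
    linarith
  rw [e] at h3
  exact loc_real h hx ht rfl h1 h2 h3 h4

theorem slope_eq {x : ℝ} (hb : 0 < x - 7 / 8) :
    x * (2 - 1.5 / (x - 7 / 8)) = 2 * x - 1.5 - 1.3125 / (x - 7 / 8) := by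
  obtain ⟨b, rfl⟩ : ∃ b, x = b + 7 / 8 := ⟨x - 7 / 8, by ring⟩
  rw [add_sub_cancel_right] at *
  field_simp
  ring

theorem Loc.norm_one (h : 12 ≤ ξ) {x t : ℝ} (L : Loc ξ x t 1) : x ^ 2 + t ^ 2 ≤ ξ ^ 2 + 3.39 := by
  have hξ0 : 0 < ξ := by linarith
  have h1 := L.hi
  have h2 := L.t1
  have h3 := L.lo
  rw [show ξ + 1.37 * (((1 : ℕ) : ℝ) / ξ) ^ 2 + 1.514 / ξ ^ 2 = ξ + 2.884 / ξ / ξ by
    push_cast; field_simp; ring] at h1
  have g1 : 2.884 / ξ ≤ 0.2404 := by rw [div_le_iff₀ hξ0]; linarith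
  have g2 : 2.884 / ξ / ξ ≤ 0.021 := by rw [div_le_iff₀ hξ0]; linarith
  have g3 : 1.514 / ξ ^ 2 ≤ 1 := by rw [div_le_iff₀ (by positivity)]; nlinarith
  have g4 : x ^ 2 ≤ (ξ + 2.884 / ξ / ξ) ^ 2 := by gcongr; linarith
  have g5 : ξ * (2.884 / ξ / ξ) = 2.884 / ξ := by field_simp
  have g6 : 0 ≤ 2.884 / ξ / ξ := by positivity
  have g7 : t ^ 2 ≤ 1.7 ^ 2 := by
    have := L.t0
    gcongr
    simpa using h2
  nlinarith

theorem Loc.norm_three (h : 12 ≤ ξ) {x t : ℝ} {J : ℕ} (L : Loc ξ x t J) (hJ : J ≠ 1) :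
    3 ≤ J ∧ (ξ ^ 2 + 3.39) * (1 + 2 * (J / ξ) ^ 2) ≤ x ^ 2 + t ^ 2 := by
  have hξ0 : 0 < ξ := by linarith
  have hξ : 144 ≤ ξ ^ 2 := by nlinarith
  have h3 : 3 ≤ J := by obtain ⟨m, hm⟩ := L.odd; omega
  refine ⟨h3, ?_⟩
  have h3' : (3 : ℝ) ≤ J := by exact_mod_cast h3
  have g1 : 2.8 / ξ ^ 2 ≤ 0.0195 := by rw [div_le_iff₀ (by positivity)]; linarith
  have g2 : 1.5675 * J ≤ t := by nlinarith [L.t2, pi_gt_d6]
  have g3 : (1.5675 * J) ^ 2 ≤ t ^ 2 := by gcongr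
  have g4 : 1.514 / ξ ≤ 0.1262 := by rw [div_le_iff₀ hξ0]; linarith
  have g5 : ξ * (1.514 / ξ ^ 2) = 1.514 / ξ := by field_simp
  have g6 : (ξ - 1.514 / ξ ^ 2) ^ 2 ≤ x ^ 2 := by
    have : 1.514 / ξ ^ 2 ≤ 1 := by rw [div_le_iff₀ (by positivity)]; nlinarith
    have := L.lo
    gcongr; linarith
  have g7 : ((J : ℝ) / ξ) ^ 2 ≤ J ^ 2 / 144 := by rw [div_pow]; gcongr
  have g8 : ξ ^ 2 * ((J : ℝ) / ξ) ^ 2 = J ^ 2 := by field_simp
  have g9 : (9 : ℝ) ≤ J ^ 2 := by nlinarith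
  nlinarith [sq_nonneg (1.514 / ξ ^ 2)]

theorem Loc.ratio (h : 12 ≤ ξ) {x t : ℝ} {J : ℕ} (L : Loc ξ x t J) :
    11.98 ≤ x ∧ t / x ≤ 1.704 * (J / ξ) ∧ 1.8625 * ξ ≤ x * (2 - 1.5 / (x - 7 / 8)) := by
  have hξ0 : 0 < ξ := by linarith
  have g1 : 1.514 / ξ ^ 2 ≤ 0.0106 := by rw [div_le_iff₀ (by positivity)]; nlinarith
  have h1 := L.lo
  refine ⟨by linarith, ?_, ?_⟩
  · rw [div_le_iff₀ (by linarith)]
    have : 1.704 * (J / ξ) * (0.999 * ξ) ≤ 1.704 * (J / ξ) * x := by gcongr; linarith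
    rw [show 1.704 * (J / ξ) * (0.999 * ξ) = 1.704 * 0.999 * J by field_simp] at this
    linarith [L.t1, (Nat.cast_nonneg J : (0 : ℝ) ≤ J)]
  · have hb : 0 < x - 7 / 8 := by linarith
    rw [slope_eq hb]
    have : 1.3125 / (x - 7 / 8) ≤ 0.1182 := by rw [div_le_iff₀ hb]; linarith
    linarith

theorem phase_real {g τ J u u₁ A A₁ e e₁ φ φ₁ : ℝ} (h : 12 ≤ ξ) (hg : ξ * g = 1) (h3 : 3 ≤ J)
    (hτ : τ = J * g) (u0 : 0 ≤ u) (v0 : 0 ≤ u₁) (a2 : u ≤ 1.704 * τ) (b2 : u₁ ≤ 1.704 * g)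
    (a3 : 1.8625 * ξ ≤ A) (r3 : |A₁ - A| ≤ 3.44 * τ ^ 2) (p0 : 0 ≤ φ) (p1 : φ ≤ 2.07 * τ ^ 3)
    (p2 : |e| ≤ 2.8 * g ^ 2) (q0 : 0 ≤ φ₁) (q1 : φ₁ ≤ 2.07 * g ^ 3) (q2 : |e₁| ≤ 2.8 * g ^ 2)
    (r1 : u * A = π * J + e - 1.5 * φ) (r2 : u₁ * A₁ = π + e₁ - 1.5 * φ₁) :
    |arctan u - J * arctan u₁| ≤ 2.3 * τ ^ 3 := by
  have g0 : 0 < g := by nlinarith
  have J0 : 0 ≤ J := by linarith
  have τ1 : 3 * g ≤ τ := by rw [hτ]; gcongr
  have τ0 : 0 < τ := by linarith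
  have τ2 : (3 * g) ^ 2 ≤ τ ^ 2 := by gcongr
  have τ3 : J * g ^ 3 ≤ τ ^ 3 / 9 := by
    have := mul_le_mul_of_nonneg_left τ2 τ0.le
    rw [show J * g ^ 3 = τ * g ^ 2 by rw [hτ]; ring]
    linarith
  have τ4 : 0 < τ ^ 3 := by positivity
  have s1 : J * u₁ ≤ 1.704 * τ := by
    have := mul_le_mul_of_nonneg_left b2 J0
    rw [hτ]; linarith
  have s2 : |J * u₁ * (A₁ - A)| ≤ 5.862 * τ ^ 3 := by
    rw [abs_mul, abs_of_nonneg (by positivity)]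
    calc _ ≤ 1.704 * τ * (3.44 * τ ^ 2) := by gcongr
      _ ≤ _ := by linarith
  have s3 : |e - J * e₁| ≤ 0.4149 * (ξ * τ ^ 3) := by
    refine (abs_sub _ _).trans ?_
    rw [abs_mul, abs_of_nonneg J0]
    have k1 : J * |e₁| ≤ J * (2.8 * g ^ 2) := by gcongr
    have k2 : J * g ^ 2 = ξ * (J * g ^ 3) := by linear_combination (-J * g ^ 2) * hg
    have k3 : ξ * (J * g ^ 3) ≤ ξ * (τ ^ 3 / 9) := by gcongr
    have k4 : 3 * g ^ 2 ≤ J * g ^ 2 := by gcongr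
    have k5 : 0 ≤ ξ * τ ^ 3 := by positivity
    linarith
  have s4 : |J * φ₁ - φ| ≤ 2.07 * τ ^ 3 := by
    have k1 : J * φ₁ ≤ J * (2.07 * g ^ 3) := by gcongr
    have k2 : 0 ≤ J * φ₁ := by positivity
    rw [abs_le]; constructor <;> linarith
  have s5 : (u - J * u₁) * A = J * u₁ * (A₁ - A) + (e - J * e₁) + 1.5 * (J * φ₁ - φ) := by
    linear_combination r1 - J * r2
  have s6 : |u - J * u₁| ≤ 0.63 * τ ^ 3 := by
    have hA0 : 0 < A := by linarith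
    refine le_of_mul_le_mul_right ?_ hA0
    rw [← abs_of_pos hA0, ← abs_mul, s5, abs_of_pos hA0]
    have k1 := abs_add_three (J * u₁ * (A₁ - A)) (e - J * e₁) (1.5 * (J * φ₁ - φ))
    rw [abs_mul (1.5 : ℝ), abs_of_pos (by norm_num : (0 : ℝ) < 1.5)] at k1
    have k2 : 0.63 * τ ^ 3 * (1.8625 * ξ) ≤ 0.63 * τ ^ 3 * A := by gcongr
    have k3 : 12 * τ ^ 3 ≤ ξ * τ ^ 3 := by gcongr
    linarith
  have s7 : u ^ 3 ≤ (1.704 * τ) ^ 3 := by gcongr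
  have s8 : u₁ ^ 3 ≤ (1.704 * g) ^ 3 := by gcongr
  have s9 : J * (u₁ - arctan u₁) ≤ J * ((1.704 * g) ^ 3 / 3) := by
    gcongr; linarith [sub_arctan_le v0]
  have s10 : 0 ≤ J * (u₁ - arctan u₁) := mul_nonneg J0 (by linarith [arctan_le_self v0])
  have s11 := sub_arctan_le u0
  have s12 := arctan_le_self u0
  rw [abs_le] at s6 ⊢
  constructor <;> linarith

theorem Loc.phase (h : 12 ≤ ξ) {x t x₁ t₁ : ℝ} {J : ℕ} (L : Loc ξ x t J) (L₁ : Loc ξ x₁ t₁ 1)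
    (hJ : 3 ≤ J) : |arctan (t / x) - J * arctan (t₁ / x₁)| ≤ 2.3 * (J / ξ) ^ 3 := by
  have hξ0 : 0 < ξ := by linarith
  have h3 : (3 : ℝ) ≤ J := by exact_mod_cast hJ
  obtain ⟨a1, a2, a3⟩ := L.ratio h
  obtain ⟨b1, b2, -⟩ := L₁.ratio h
  obtain ⟨φ, e, p0, p1, p2, p3⟩ := L.ph
  obtain ⟨φ₁, e₁, q0, q1, q2, q3⟩ := L₁.ph
  have c1 := L.lo
  have c2 := L.hi
  have d1 := L₁.lo
  have d2 := L₁.hi
  simp only [Nat.cast_one, mul_one] at b2 q1 q3 d2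
  have e2 : ∀ c : ℝ, c / ξ ^ 2 = c * (1 / ξ) ^ 2 := fun c => by ring
  rw [e2] at p2 q2 c1 c2 d1 d2
  refine phase_real (g := 1 / ξ) (A₁ := x₁ * (2 - 1.5 / (x₁ - 7 / 8))) h (by field_simp) h3
    (by ring) (div_nonneg L.t0 (by linarith)) (div_nonneg L₁.t0 (by linarith)) a2 b2 a3 ?_ p0 p1 p2
    q0 q1 q2 ?_ ?_
  · have hb : 11 ≤ x - 7 / 8 := by linarith
    have hb₁ : 11 ≤ x₁ - 7 / 8 := by linarith
    have τ2 : (3 * (1 / ξ)) ^ 2 ≤ (J / ξ) ^ 2 := by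
      rw [mul_one_div]; gcongr
    have : x₁ * (2 - 1.5 / (x₁ - 7 / 8)) - x * (2 - 1.5 / (x - 7 / 8)) =
        (x₁ - x) * (2 + 1.3125 / ((x₁ - 7 / 8) * (x - 7 / 8))) := by
      rw [slope_eq (by linarith), slope_eq (by linarith), show x₁ - x = (x₁ - 7 / 8) - (x - 7 / 8)
        by ring, show 2 * x₁ = 2 * (x₁ - 7 / 8) + 7 / 4 by ring,
        show 2 * x = 2 * (x - 7 / 8) + 7 / 4 by ring]
      generalize x - 7 / 8 = b at *
      generalize x₁ - 7 / 8 = b₁ at *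
      have : b ≠ 0 := by linarith
      have : b₁ ≠ 0 := by linarith
      field_simp
      ring
    have s1 : 1.3125 / ((x₁ - 7 / 8) * (x - 7 / 8)) ≤ 0.011 := by
      have : 11 * 11 ≤ (x₁ - 7 / 8) * (x - 7 / 8) := by gcongr
      rw [div_le_iff₀ (by positivity)]; linarith
    have s2 : |x₁ - x| ≤ 1.7065 * (J / ξ) ^ 2 := by
      have := sq_nonneg (1 / ξ)
      rw [abs_le]; constructor <;> linarith
    rw [this, abs_mul, abs_of_nonneg (a := 2 + _) (by positivity)]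
    calc _ ≤ 1.7065 * (J / ξ) ^ 2 * (2 + 0.011) := by gcongr
      _ ≤ _ := by linarith [sq_nonneg (J / ξ)]
  · rw [← p3, ← mul_assoc, div_mul_cancel₀ _ (by linarith)]
  · rw [← q3, ← mul_assoc, div_mul_cancel₀ _ (by linarith)]

end Pool.Agent.P.MP_ee6314_co
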