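import Pool.Agent.P.MP_ee6314_co.Dom
import Pool.Agent.P.MP_ee6314_co.Base

/-! Following the inner pair of zeros along the parameter. -/

namespace Pool.Agent.P.MP_ee6314_co

open Real Set

theorem yA_anti {a b : ℝ} (ha : 12 ≤ a) (h : a ≤ b) : yA b ≤ yA a := by
  have e : ∀ ξ, 12 ≤ ξ → yA ξ = 8 * √π * exp (3 / 2 * log (ξ - 7 / 8) - 2 * ξ) := fun ξ h => by
    have h0 : 0 < ξ - 7 / 8 := by linarith
    rw [yA, sub_eq_add_neg _ (2 * ξ), exp_add, show 3 / 2 * log (ξ - 7 / 8) =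
      log (ξ - 7 / 8) + log (ξ - 7 / 8) * (1 / 2) by ring, exp_add, exp_log h0,
      ← rpow_def_of_pos h0, ← sqrt_eq_rpow]
    ring
  have h1 := log_sub_le (a := b - 7 / 8) (b := a - 7 / 8) (by linarith) (by linarith)
  have h2 : (b - 7 / 8 - (a - 7 / 8)) / (a - 7 / 8) ≤ b - 7 / 8 - (a - 7 / 8) :=
    div_le_self (by linarith) (by linarith)
  rw [e a ha, e b (ha.trans h)]
  exact mul_le_mul_of_nonneg_left (exp_le_exp.2 (by linarith)) (by positivity)

theorem yA_twelve : yA 12 ∈ Icc (19 / 10 ^ 9 : ℝ) (21 / 10 ^ 9) := by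
  have a1 : 1.77 ≤ √π := le_sqrt_of_sq_le (by linarith [pi_gt_d2])
  have a2 : √π ≤ 1.78 := by rw [sqrt_le_left (by norm_num)]; linarith [pi_lt_d2]
  have b1 : 3.33 ≤ √(12 - 7 / 8 : ℝ) := le_sqrt_of_sq_le (by norm_num)
  have b2 : √(12 - 7 / 8 : ℝ) ≤ 3.34 := by rw [sqrt_le_left (by norm_num)]; norm_num
  have c : exp (-(2 * 12)) = exp (-1) ^ 24 := by rw [← exp_nat_mul]; norm_num
  have c1 := exp_neg_one_gt_d9
  have c2 := exp_neg_one_lt_d9
  rw [yA, c]
  constructor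
  · calc _ ≤ 8 * 1.77 * ((12 - 7 / 8) * 3.33) * (0.36787944116 : ℝ) ^ 24 := by norm_num
      _ ≤ _ := by gcongr
  · calc _ ≤ 8 * 1.78 * ((12 - 7 / 8) * 3.34) * (0.3678794412 : ℝ) ^ 24 := by gcongr
      _ ≤ _ := by norm_num

theorem continuous_cf {Y : ℝ → ℝ} (hY : Continuous Y) (h0 : ∀ s, 0 < Y s) (n : ℕ) :
    Continuous fun s => cf (Y s) n := by
  have : Continuous fun s => mo (-Y s) n := by
    induction n with
    | zero => simpa [mo_zero] using continuous_const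
    | succ n ih =>
      simp only [mo_succ]
      fun_prop
  unfold cf mu
  exact (this.div (by fun_prop) fun s => by have := h0 s; positivity).div_const _

theorem big {k : ℕ} (hk : 63 ≤ k) {R : ℝ → ℝ} (hR : Continuous R) (h0 : R (yA 12) ^ 2 = 156)
    (h1 : R (5 / 2) = 21 / 5) (hA : ∀ y ∈ Icc (yA 12) (5 / 2), ∃ a b, 0 < a ∧ a ≤ R y ∧ R y ≤ b ∧
      b ≤ 12.8 ∧ 1.025 * a ≤ b ∧ ∀ v : ℂ, a ≤ ‖v‖ → ‖v‖ ≤ b → 1 / 10 ^ 6 < ‖Psi y v‖) :
    ∃ a, HR (red k) a (k - 1) := by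
  have hK : (64 : ℝ) ≤ (k + 1 : ℕ) := by exact_mod_cast Nat.succ_le_succ hk
  obtain ⟨D, hD, hT⟩ := trunc (k + 1) (ε := 0.001 / (k + 1 : ℕ) ^ 2) (by positivity)
  have hK' : ((k + 1 : ℕ) : ℝ) = k + 1 := Nat.cast_succ k
  generalize ((k + 1 : ℕ) : ℝ) = K at *
  have y12 := yA_twelve
  have tA : ∀ ξ, 12 ≤ ξ → ξ ≤ 0.6 * K → ∀ v : ℂ, ‖v‖ ≤ 1.1 * ξ →
      ‖Psi (yA ξ) v - (poly (cf (yA ξ)) D).eval (v ^ 2)‖ ≤ 0.008 / ξ ^ 2 := fun ξ a1 a2 v hv =>
    (hT _ (yA_pos a1) v (by linarith)).trans (by gcongr; norm_num; linarith)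
  have tC : ∀ y, 0 < y → ∀ v : ℂ, ‖v‖ ≤ 12.8 →
      ‖Psi y v - (poly (cf y) D).eval (v ^ 2)‖ ≤ 1 / 10 ^ 6 := fun y hy v hv =>
    (hT y hy v (by linarith)).trans (by rw [div_le_iff₀ (by positivity)]; nlinarith)
  obtain ⟨Y, hY⟩ : ∃ Y : ℝ → ℝ, Y = fun s => yA (max (-s) 12) + max (s + 12) 0 := ⟨_, rfl⟩
  obtain ⟨S, hS⟩ : ∃ S : ℝ → ℝ,
    S = fun s => R (yA 12 + max (s + 12) 0) ^ 2 + (max (-s) 12 ^ 2 - 144) := ⟨_, rfl⟩
  have eA : ∀ s, s ≤ -12 → Y s = yA (-s) ∧ S s = (-s) ^ 2 + 12 := fun s hs => by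
    simp only [hY, hS]
    rw [max_eq_left (by linarith), max_eq_right (by linarith), add_zero, add_zero, h0]
    exact ⟨rfl, by ring⟩
  have eC : ∀ s, -12 ≤ s → Y s = yA 12 + (s + 12) ∧ S s = R (Y s) ^ 2 := fun s hs => by
    simp only [hY, hS]
    rw [max_eq_right (by linarith), max_eq_left (by linarith)]
    exact ⟨rfl, by ring⟩
  have Y0 : ∀ s, 0 < Y s := fun s => hY ▸
    add_pos_of_pos_of_nonneg (yA_pos (le_max_right _ _)) (le_max_right _ _)
  have Y1 : Continuous Y := by rw [hY]; unfold yA; fun_prop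
  have Y2 : Monotone Y := fun s t h => hY ▸ add_le_add
    (yA_anti (le_max_right _ _) (max_le_max_right _ (neg_le_neg h)))
    (max_le_max_right _ (by linarith))
  have S1 : Continuous S := by rw [hS]; fun_prop
  have cC : ∀ s ∈ Icc (-(0.6 * K)) (5 / 2 - yA 12 - 12), -12 ≤ s → Y s ∈ Icc (yA 12) (5 / 2) :=
    fun s hs h => by rw [(eC s h).1]; exact ⟨by linarith, by linarith [hs.2]⟩
  have hab : -(0.6 * K) ≤ 5 / 2 - yA 12 - 12 := by linarith [y12.2]
  have hb : -12 ≤ 5 / 2 - yA 12 - 12 := by linarith [y12.2]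
  have hc := continuous_cf Y1 Y0
  have hps := continuousOn_psum (p := fun s => poly (cf (Y s)) D) (R := S)
    (S := Icc (-(0.6 * K)) (5 / 2 - yA 12 - 12)) ?_ ?_ S1.continuousOn ?_ ?_
  rotate_left
  · simp only [eval_poly]
    exact (continuous_finsetSum _ fun n _ => (Complex.continuous_ofReal.comp
      ((hc n).comp continuous_fst)).mul (by fun_prop)).continuousOn
  · simp only [poly, map_sum, Polynomial.derivative_C_mul, Polynomial.eval_finsetSum,
      Polynomial.eval_mul, Polynomial.eval_C]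
    exact (continuous_finsetSum _ fun n _ => (Complex.continuous_ofReal.comp
      ((hc n).comp continuous_fst)).mul (by fun_prop)).continuousOn
  · intro s hs
    rcases le_total s (-12) with h | h
    · rw [(eA s h).2]; positivity
    · obtain ⟨a, b, a1, a2, -⟩ := hA _ (cC s hs h)
      rw [(eC s h).2]
      exact pow_pos (a1.trans_le a2) 2
  · intro s hs z hz e
    rcases le_total s (-12) with h | h
    · rw [(eA s h).2] at hz
      rw [(eA s h).1] at e
      obtain ⟨x, t, J, L, b1, -⟩ := root_loc (ξ := -s) (by linarith)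
        (tA _ (by linarith) (by linarith [hs.1])) e (by nlinarith)
      rcases L.lt_iff (by linarith) with h | h <;> linarith [h.2]
    · obtain ⟨a, b, a1, a2, a3, a4, -, a6⟩ := hA _ (cC s hs h)
      rw [(eC s h).2] at hz
      have a7 : a ^ 2 ≤ R (Y s) ^ 2 := by gcongr
      have a8 : R (Y s) ^ 2 ≤ b ^ 2 := by gcongr; linarith
      rcases root_out a6 (fun v hv => tC _ (Y0 s) v (hv.trans a4)) (by linarith) e with h | h <;>
        linarith
  have e1 : Y (5 / 2 - yA 12 - 12) = 5 / 2 := by rw [(eC _ hb).1]; ring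
  have e3 : S (5 / 2 - yA 12 - 12) = (21 / 5) ^ 2 := by rw [(eC _ hb).2, e1, h1]
  obtain ⟨b1, b2⟩ := base D fun v hv => tC _ (by norm_num) v (by linarith)
  have h2 : ∀ s ∈ Icc (-(0.6 * K)) (5 / 2 - yA 12 - 12),
      (ins (poly (cf (Y s)) D) (S s)).card = 2 := fun s hs => by
    rw [card_ins_eq isPreconnected_Icc (hps 0) hs (right_mem_Icc.2 hab), e1, e3, b1]
  have hp := fun s hs => pair (cf_zero _) (cf_nonneg (Y0 s)) (h2 s hs)
  refine chain (u := fun s => cs (poly (cf (Y s)) D) (S s)) (by omega) (red_continuous k)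
    (red_zero k) hab ?_ Y2 (fun s => (Y0 s).le) ?_ ?_ fun s hs m m1 m2 e => ?_
  · refine (Complex.continuous_re.comp_continuousOn (hps 1)).div
      (continuousOn_const.mul (ContinuousOn.sqrt ((Complex.continuous_re.comp_continuousOn
        (((hps 1).pow 2).sub (hps 2))).div_const 2))) fun s hs => ?_
    have := (hp s hs).1
    positivity
  · have a1 := hp _ (left_mem_Icc.2 hab)
    obtain ⟨z, hz⟩ := Multiset.card_pos_iff_exists_mem.1 (h2 _ (left_mem_Icc.2 hab) ▸ two_pos)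
    have a2 : |z.arg| ≤ (2 : ℕ) * π / (k + 1) := by
      rw [(eA _ (by linarith)).1, (eA _ (by linarith)).2, neg_neg] at hz
      obtain ⟨-, -, -, -, -, a3⟩ := first_A (by linarith) (tA _ (by linarith) le_rfl) hz
      refine a3.trans ?_
      rw [← hK', div_le_div_iff₀ (by positivity) (by positivity)]
      push_cast
      nlinarith [pi_gt_three]
    have a3 : (2 : ℕ) * π / (k + 1) < π := by
      rw [← hK', div_lt_iff₀ (by positivity)]
      push_cast
      nlinarith [pi_pos]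
    obtain ⟨r, -, a4⟩ := a1.2.resolve_left fun h => by linarith [h.2 z hz]
    rw [← (a4 z hz).2]
    exact cos_le_cos_of_nonneg_of_le_pi (abs_nonneg _) a3.le a2
  · have a1 := hp _ (right_mem_Icc.2 hab)
    simp only [e1, e3] at a1 ⊢
    have a2 : ∀ x : ℝ, (poly (cf (5 / 2)) D).eval (x : ℂ) =
        (∑ n ∈ Finset.range (D + 1), cf (5 / 2) n * x ^ n : ℝ) := fun x => by simp [eval_poly]
    obtain ⟨x, hx, a3⟩ := intermediate_value_Ioo (a := -19 / 2) (b := 0)
      (f := fun x : ℝ => ((poly (cf (5 / 2)) D).eval (x : ℂ)).re) (by norm_num) (by fun_prop)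
      (show 0 ∈ Ioo _ _ from ⟨by simpa using b2, by simp [eval_zero_poly (cf_zero _)]⟩)
    rcases a1.2 with h | ⟨r, -, h⟩
    · exact h.1
    · rw [← (h x ?_).2, Complex.arg_ofReal_of_neg hx.2, abs_of_pos pi_pos, cos_pi]
      simp only [a2, Complex.ofReal_re] at a3
      rw [mem_ins (cf_zero _), a2, a3, Complex.norm_real, norm_of_nonpos hx.2.le]
      exact ⟨rfl, by linarith [hx.1]⟩
  · have m3 : (m : ℝ) ≤ k := by exact_mod_cast m2
    have a1 : m * π / (k + 1) < π := by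
      rw [div_lt_iff₀ (by positivity)]
      nlinarith [pi_pos]
    have a0 : 0 ≤ m * π / (k + 1) := by positivity
    obtain ⟨r, hr, a2⟩ := (hp s hs).2.resolve_left fun h => by
      have := cos_lt_cos_of_nonneg_of_le_pi a0 le_rfl a1
      linarith [h.1, cos_pi]
    have a3 : ∀ z ∈ ins (poly (cf (Y s)) D) (S s), ‖z‖ = r ∧ |z.arg| = m * π / (k + 1) :=
      fun z hz => ⟨(a2 z hz).1, injOn_cos ⟨abs_nonneg _, Complex.abs_arg_le_pi z⟩ ⟨a0, a1.le⟩
        ((a2 z hz).2.trans e)⟩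
    have a4 := h2 s hs
    refine sign_of_sum (Y0 s) hD hr ?_
    rcases le_total s (-12) with h | h
    · rw [(eA s h).1, (eA s h).2] at *
      exact dom_A (by linarith) (tA _ (by linarith) (by linarith [hs.1])) hk m1 hr a4 a3
    · obtain ⟨a, b, c1, c2, c3, c4, c5, c6⟩ := hA _ (cC s hs h)
      rw [(eC s h).2] at a3 a4
      exact dom_C (Y0 s) c6 (fun v hv => tC _ (Y0 s) v (hv.trans c4)) c1 c2 c3 c4 c5 hk hr a4 a3

end Pool.Agent.P.MP_ee6314_co
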