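import Pool.Agent.P.MP_ee6314_co.Egf

/-! Degree and constant term of the reduced polynomial; real roots from sign changes. -/

namespace Pool.Agent.P.MP_ee6314_co

open Finset Polynomial

theorem natDegree_pa : ∀ n c : ℕ, (pa (X : ℝ[X]) n c).natDegree ≤ (n + c) / 2
  | 0, c => by
    rw [pa]
    split_ifs <;> simp
  | n + 1, 0 => by simpa [pa] using natDegree_pa n 1
  | n + 1, 1 => by
    rw [pa]
    have h1 := natDegree_pa n 2
    have h2 := natDegree_pa n 0
    have h3 : (X * pa (X : ℝ[X]) n 0).natDegree ≤ 1 + (n + 0) / 2 :=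
      natDegree_mul_le_of_le natDegree_X_le h2
    exact (natDegree_sub_le _ _).trans (max_le (by omega) (by omega))
  | n + 1, c + 2 => by
    rw [pa]
    have h1 := natDegree_pa n (c + 3)
    have h2 := natDegree_pa n (c + 1)
    have h0 : (1 - X : ℝ[X]).natDegree ≤ 1 := by compute_degree
    have h3 := natDegree_mul_le_of_le h0 h2
    exact (natDegree_add_le _ _).trans (max_le (by omega) (by omega))

theorem natDegree_mo (n : ℕ) : (mo (X : ℝ[X]) n).natDegree ≤ n := by
  have := natDegree_pa (2 * n) 0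
  rw [mo]
  omega

theorem qq_eq {R : Type} [CommRing R] [IsDomain R] [Algebra ℚ R] (x : R) (k : ℕ) : qq x k =
    -mo x (k + 1) - ∑ j ∈ range k, ((2 * k + 1).choose (2 * j + 1) : R) * (qq x j * mo x (k - j)) := by
  rw [qq_rec, sum_range_succ, Nat.choose_self, Nat.sub_self, mo_zero]
  simp

theorem natDegree_qq (k : ℕ) : (qq (X : ℝ[X]) k).natDegree ≤ k + 1 := by
  induction k using Nat.strong_induction_on with
  | _ k ih =>
    rw [qq_eq]
    refine (natDegree_sub_le _ _).trans (max_le (by simpa using natDegree_mo (k + 1)) ?_)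
    refine natDegree_sum_le_of_forall_le _ _ fun j hj => ?_
    have hj' := mem_range.1 hj
    have h1 := natDegree_mul_le_of_le (ih j hj') (natDegree_mo (k - j))
    have h2 := natDegree_mul_le_of_le
      (natDegree_natCast (R := ℝ) ((2 * k + 1).choose (2 * j + 1))).le h1
    omega

/-- The reduced function: `Q (2 k + 2)` at `-y`, divided by `-y`. -/
noncomputable def red (k : ℕ) (y : ℝ) : ℝ := gf (-y) (2 * k + 1) 1

theorem eval_gf (k : ℕ) (y : ℝ) : (gf (X : ℝ[X]) (2 * k + 1) 1).eval y = gf y (2 * k + 1) 1 := by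
  have := map_gf (evalRingHom y) X k
  simpa using this

theorem red_continuous (k : ℕ) : Continuous (red k) := by
  have : red k = fun y => (gf (X : ℝ[X]) (2 * k + 1) 1).eval (-y) := by
    ext y; rw [eval_gf, red]
  rw [this]
  exact (Polynomial.continuous _).comp continuous_neg

theorem red_zero (k : ℕ) : 0 < red k 0 := by
  have h := qq_rec (X : ℝ[X]) k
  rw [mo_succ] at h
  have h2 : -(1 - X) ^ (k + 1) * (catalan k : ℝ[X]) - X * mo X k = -∑ j ∈ range (k + 1),
      ((2 * k + 1).choose (2 * j + 1) : ℝ[X]) * (gf X (2 * j + 1) 1 * mo X (k - j)) := by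
    apply mul_left_cancel₀ (X_ne_zero (R := ℝ))
    rw [mul_neg, mul_sum]
    simp only [qq] at h
    have e : ∀ j, (X : ℝ[X]) * (((2 * k + 1).choose (2 * j + 1) : ℝ[X]) *
        (gf X (2 * j + 1) 1 * mo X (k - j))) = ((2 * k + 1).choose (2 * j + 1) : ℝ[X]) *
          (X * gf X (2 * j + 1) 1 * mo X (k - j)) := fun j => by ring
    simp only [e]
    linear_combination h
  have h3 := congrArg (evalRingHom (0 : ℝ)) h2
  simp only [map_sub, map_mul, map_neg, map_pow, map_one, map_natCast, map_sum, map_mo, map_gf,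
    coe_evalRingHom, eval_X] at h3
  rw [sum_range_succ, sum_eq_zero] at h3
  · have hc : (0 : ℝ) < catalan k := by
      have := succ_mul_catalan_eq_centralBinom k
      have h0 := Nat.centralBinom_pos k
      exact_mod_cast Nat.pos_of_ne_zero fun h => by rw [h] at this; omega
    simp only [Nat.choose_self, Nat.sub_self, mo_zero] at h3
    rw [red, neg_zero]
    simp at h3
    linarith
  · intro j hj
    obtain ⟨i, hi⟩ : ∃ i, k - j = i + 1 := ⟨k - j - 1, by have := mem_range.1 hj; omega⟩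
    simp [hi, mo_succ]

theorem im_eq_zero_of_roots {P : ℝ[X]} (hP : P ≠ 0) {s : Finset ℝ} (hd : P.natDegree ≤ s.card + 1)
    (hs : ∀ r ∈ s, P.eval r = 0) {z : ℂ} (hz : aeval z P = 0) : z.im = 0 := by
  have hle : s.val ≤ P.roots := by
    rw [Multiset.le_iff_subset s.nodup]
    intro r hr
    exact (mem_roots hP).2 (hs r hr)
  obtain ⟨T, hT⟩ := (Multiset.prod_X_sub_C_dvd_iff_le_roots hP s.val).2 hle
  have hT0 : T ≠ 0 := by rintro rfl; simp [hP] at hT
  have hm : (Multiset.map (fun a => X - C a) s.val).prod.Monic :=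
    monic_multiset_prod_of_monic _ _ fun a _ => monic_X_sub_C a
  have hdeg : T.natDegree ≤ 1 := by
    rw [hT, natDegree_mul hm.ne_zero hT0, natDegree_multiset_prod_X_sub_C_eq_card] at hd
    simpa using hd
  rw [hT, map_mul, mul_eq_zero] at hz
  rcases hz with hz | hz
  · rw [map_multiset_prod, Multiset.prod_eq_zero_iff] at hz
    simp only [Multiset.map_map, Function.comp, map_sub, aeval_X, aeval_C, Multiset.mem_map] at hz
    obtain ⟨r, -, hr⟩ := hz
    rw [sub_eq_zero.1 hr]
    simp
  · rw [eq_X_add_C_of_natDegree_le_one hdeg] at hz hT0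
    simp only [map_add, map_mul, aeval_C, aeval_X, Complex.coe_algebraMap] at hz
    have h1 := congrArg Complex.im hz
    have h2 := congrArg Complex.re hz
    simp only [Complex.add_im, Complex.mul_im, Complex.ofReal_re, Complex.ofReal_im, zero_mul,
      add_zero, Complex.zero_im, mul_eq_zero] at h1
    rcases h1 with h1 | h1
    · simp [h1] at h2
      simp [h1, h2] at hT0
    · exact h1

/-- `f` has `n` zeros below `a`. -/
def HR (f : ℝ → ℝ) (a : ℝ) (n : ℕ) : Prop :=
  ∃ s : Finset ℝ, s.card = n ∧ ∀ r ∈ s, r < a ∧ f r = 0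

theorem HR.zero (f : ℝ → ℝ) (a : ℝ) : HR f a 0 := ⟨∅, rfl, by simp⟩

theorem HR.step {f : ℝ → ℝ} (hf : Continuous f) {a b : ℝ} {n : ℕ} (h : HR f a n) (hab : a ≤ b)
    (hs : f a * f b < 0) : HR f b (n + 1) := by
  obtain ⟨s, h1, h2⟩ := h
  obtain ⟨r, hr, h0⟩ : ∃ r ∈ Set.Ioo a b, f r = 0 := by
    rcases mul_neg_iff.1 hs with h | h
    · exact intermediate_value_Ioo' hab hf.continuousOn ⟨h.2, h.1⟩
    · exact intermediate_value_Ioo hab hf.continuousOn ⟨h.1, h.2⟩
  have hn : r ∉ s := fun h => lt_asymm (h2 r h).1 hr.1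
  refine ⟨insert r s, by rw [card_insert_of_notMem hn, h1], fun q hq => ?_⟩
  rcases mem_insert.1 hq with rfl | hq
  · exact ⟨hr.2, h0⟩
  · exact ⟨(h2 q hq).1.trans_le hab, (h2 q hq).2⟩

theorem real_of_HR {k : ℕ} {a : ℝ} (h : HR (red k) a (k - 1)) {z : ℂ}
    (hz : aeval z (Q (2 * k + 2)) = 0) : z.im = 0 := by
  rw [(aeval_Q k).2, qq, mul_eq_zero] at hz
  rcases hz with rfl | hz
  · rfl
  obtain ⟨s, h1, h2⟩ := h
  have hne : gf (X : ℝ[X]) (2 * k + 1) 1 ≠ 0 := by
    intro h0
    have := red_zero k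
    rw [red, ← eval_gf, h0] at this
    simp at this
  have hd := natDegree_qq k
  rw [qq, natDegree_X_mul hne] at hd
  refine im_eq_zero_of_roots hne (s := s.image fun r => -r) ?_ ?_ ?_
  · rw [card_image_of_injective _ neg_injective, h1]
    omega
  · intro r hr
    obtain ⟨q, hq, rfl⟩ := mem_image.1 hr
    rw [eval_gf]
    exact (h2 q hq).2
  · have := map_gf (aeval z : ℝ[X] →ₐ[ℝ] ℂ).toRingHom X k
    simp only [AlgHom.toRingHom_eq_coe, RingHom.coe_coe, aeval_X] at this
    rw [this, hz]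

end Pool.Agent.P.MP_ee6314_co
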